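import Mathlib

/-!
# From local complementation with small constant to complementation
-/

open Set Filter Topology Metric NormedSpace
open scoped NNReal

namespace Pool.Agent.H23

variable {X Y : Type*} [NormedAddCommGroup X] [NormedSpace ℝ X]
  [NormedAddCommGroup Y] [NormedSpace ℝ Y]

/-- The operator `x ↦ (ψ ↦ E (ψ ∘ A) x)` into the bidual. -/
noncomputable def bidualExt (A : Y →L[ℝ] X) (E : StrongDual ℝ Y →ₗ[ℝ] StrongDual ℝ X) {C : ℝ}
    (hE : ∀ (x : X) (ψ : StrongDual ℝ X), ‖E (ψ.comp A) x‖ ≤ C * ‖x‖ * ‖ψ‖) :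
    X →L[ℝ] StrongDual ℝ (StrongDual ℝ X) :=
  (LinearMap.mk₂ ℝ (fun (x : X) (ψ : StrongDual ℝ X) => E (ψ.comp A) x)
    (by intro x x' ψ; simp) (by intro c x ψ; simp)
    (by intro x ψ ψ'; simp [ContinuousLinearMap.add_comp])
    (by intro c x ψ; simp [ContinuousLinearMap.smul_comp])).mkContinuous₂ C hE

theorem bidualExt_apply (A : Y →L[ℝ] X) (E : StrongDual ℝ Y →ₗ[ℝ] StrongDual ℝ X) {C : ℝ}
    (hE : ∀ (x : X) (ψ : StrongDual ℝ X), ‖E (ψ.comp A) x‖ ≤ C * ‖x‖ * ‖ψ‖) (x : X)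
    (ψ : StrongDual ℝ X) : bidualExt A E hE x ψ = E (ψ.comp A) x := rfl

theorem norm_bidualExt_le (A : Y →L[ℝ] X) (E : StrongDual ℝ Y →ₗ[ℝ] StrongDual ℝ X) {C : ℝ}
    (hC : 0 ≤ C)
    (hE : ∀ (x : X) (ψ : StrongDual ℝ X), ‖E (ψ.comp A) x‖ ≤ C * ‖x‖ * ‖ψ‖) (x : X) :
    ‖bidualExt A E hE x‖ ≤ C * ‖x‖ :=
  ContinuousLinearMap.opNorm_le_bound _ (by positivity) fun ψ => hE x ψ

/-- Hahn-Banach: a functional `ζ` in the bidual which kills the annihilator of `M` is at least as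
far from `w` as `M` is. -/
theorem infDist_le_of_annihilates {M : Submodule ℝ X} (w : X)
    (ζ : StrongDual ℝ (StrongDual ℝ X))
    (hζ : ∀ ψ : StrongDual ℝ X, (∀ m ∈ M, ψ m = 0) → ζ ψ = 0) :
    infDist w (M : Set X) ≤ ‖ζ - inclusionInDoubleDual ℝ X w‖ := by
  obtain ⟨f, hf1, hf2⟩ := exists_dual_vector'' ℝ (M.mkQ w)
  have hcont : Continuous M.mkQ := continuous_quot_mk
  let q : X →L[ℝ] (X ⧸ M) := ⟨M.mkQ, hcont⟩
  have hq : ∀ x, ‖q x‖ ≤ 1 * ‖x‖ := by
    intro x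
    rw [one_mul]
    exact QuotientAddGroup.norm_mk_le_norm
  let ψ : StrongDual ℝ X := f.comp q
  have hψ1 : ‖ψ‖ ≤ 1 := by
    refine ContinuousLinearMap.opNorm_le_bound _ zero_le_one fun x => ?_
    calc ‖f (q x)‖ ≤ ‖f‖ * ‖q x‖ := f.le_opNorm _
      _ ≤ 1 * (1 * ‖x‖) := by gcongr; exact hq x
      _ = 1 * ‖x‖ := by ring
  have hψM : ∀ m ∈ M, ψ m = 0 := by
    intro m hm
    show f (M.mkQ m) = 0
    rw [(Submodule.Quotient.mk_eq_zero M).2 hm |> fun h => (show M.mkQ m = 0 from h), map_zero]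
  have hψw : ψ w = infDist w (M : Set X) := by
    show f (M.mkQ w) = _
    have h1 : f (M.mkQ w) = ‖M.mkQ w‖ := by simpa using hf2
    rw [h1]
    exact QuotientAddGroup.norm_mk (S := M.toAddSubgroup) w
  rw [← hψw]
  have h2 : ψ w = - (ζ - inclusionInDoubleDual ℝ X w) ψ := by
    rw [sub_apply, hζ ψ hψM, dual_def]
    ring
  rw [h2]
  calc - (ζ - inclusionInDoubleDual ℝ X w) ψ ≤ ‖(ζ - inclusionInDoubleDual ℝ X w) ψ‖ := by
        rw [Real.norm_eq_abs]; exact neg_le_abs _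
    _ ≤ ‖ζ - inclusionInDoubleDual ℝ X w‖ * ‖ψ‖ := ContinuousLinearMap.le_opNorm _ _
    _ ≤ ‖ζ - inclusionInDoubleDual ℝ X w‖ * 1 := by gcongr
    _ = _ := mul_one _

/-- **Iteration.** An operator fixing a closed subspace and contracting the distance to it has
powers converging to a projection onto the subspace. -/
theorem exists_projection_of_contraction [CompleteSpace X] {M : Submodule ℝ X}
    (hM : IsClosed (M : Set X)) (G : X →L[ℝ] X) (hG : ∀ m ∈ M, G m = m) {ρ : ℝ} (hρ0 : 0 < ρ)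
    (hρ1 : ρ < 1) (hGd : ∀ x, infDist (G x) (M : Set X) ≤ ρ * ‖x‖) :
    ∃ P : X →L[ℝ] X, (∀ x, P x ∈ M) ∧ ∀ m ∈ M, P m = m := by
  have hMne : (M : Set X).Nonempty := ⟨0, M.zero_mem⟩
  have hcontr : ∀ x, infDist (G x) (M : Set X) ≤ ρ * infDist x (M : Set X) := by
    intro x
    rw [mul_comm, ← div_le_iff₀ hρ0, le_infDist hMne]
    intro m hm
    rw [div_le_iff₀ hρ0, dist_eq_norm, mul_comm]
    have h1 : infDist (G x) (M : Set X) ≤ infDist (G (x - m)) (M : Set X) := by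
      -- translation invariance
      rw [le_infDist hMne]
      intro m' hm'
      have h2 := infDist_le_dist_of_mem (x := G x) (M.add_mem hm' hm)
      have h3 : dist (G x) (m' + m) = dist (G (x - m)) m' := by
        rw [dist_eq_norm, dist_eq_norm, map_sub, hG m hm]
        congr 1
        abel
      rw [← h3]
      exact h2
    exact h1.trans (hGd _)
  have hpow : ∀ (n : ℕ) x, infDist ((G ^ n) x) (M : Set X) ≤ ρ ^ n * ‖x‖ := by
    intro n
    induction n with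
    | zero =>
      intro x
      simp only [pow_zero, one_mul]
      have := infDist_le_dist_of_mem (x := x) (M.zero_mem)
      simpa using this
    | succ n ih =>
      intro x
      rw [pow_succ', mul_apply_eq_comp]
      calc infDist (G ((G ^ n) x)) (M : Set X) ≤ ρ * infDist ((G ^ n) x) (M : Set X) := hcontr _
        _ ≤ ρ * (ρ ^ n * ‖x‖) := by gcongr; exact ih x
        _ = ρ ^ (n + 1) * ‖x‖ := by ring
  have hstep : ∀ z, ‖G z - z‖ ≤ (‖G‖ + 1) * infDist z (M : Set X) := by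
    intro z
    have hpos : 0 < ‖G‖ + 1 := by positivity
    rw [mul_comm, ← div_le_iff₀ hpos, le_infDist hMne]
    intro m hm
    rw [div_le_iff₀ hpos, dist_eq_norm]
    have h1 : G z - z = G (z - m) - (z - m) := by
      rw [map_sub, hG m hm]; abel
    rw [h1]
    calc ‖G (z - m) - (z - m)‖ ≤ ‖G (z - m)‖ + ‖z - m‖ := norm_sub_le _ _
      _ ≤ ‖G‖ * ‖z - m‖ + ‖z - m‖ := by gcongr; exact G.le_opNorm _
      _ = ‖z - m‖ * (‖G‖ + 1) := by ring
  have hcauchy : CauchySeq (fun n : ℕ => G ^ n) := by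
    refine cauchySeq_of_le_geometric ρ (‖G‖ + 1) hρ1 fun n => ?_
    rw [dist_comm, dist_eq_norm]
    refine ContinuousLinearMap.opNorm_le_bound _ (by positivity) fun x => ?_
    have h1 : (G ^ (n + 1) - G ^ n) x = G ((G ^ n) x) - (G ^ n) x := by
      rw [sub_apply, pow_succ', mul_apply_eq_comp]
    rw [h1]
    calc ‖G ((G ^ n) x) - (G ^ n) x‖ ≤ (‖G‖ + 1) * infDist ((G ^ n) x) (M : Set X) := hstep _
      _ ≤ (‖G‖ + 1) * (ρ ^ n * ‖x‖) := by gcongr; exact hpow n x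
      _ = (‖G‖ + 1) * ρ ^ n * ‖x‖ := by ring
  obtain ⟨P, hP⟩ := cauchySeq_tendsto_of_complete hcauchy
  have hPx : ∀ x, Tendsto (fun n : ℕ => (G ^ n) x) atTop (𝓝 (P x)) := fun x =>
    ((ContinuousLinearMap.apply ℝ X x).continuous.tendsto P).comp hP
  refine ⟨P, fun x => ?_, fun m hm => ?_⟩
  · have h1 : infDist (P x) (M : Set X) = 0 := by
      have h2 : Tendsto (fun n : ℕ => infDist ((G ^ n) x) (M : Set X)) atTop
          (𝓝 (infDist (P x) (M : Set X))) :=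
        ((continuous_infDist_pt (M : Set X)).tendsto (P x)).comp (hPx x)
      have h3 : Tendsto (fun n : ℕ => infDist ((G ^ n) x) (M : Set X)) atTop (𝓝 0) := by
        refine squeeze_zero (fun n => infDist_nonneg) (fun n => hpow n x) ?_
        have := (tendsto_pow_atTop_nhds_zero_of_lt_one hρ0.le hρ1).mul_const ‖x‖
        simpa using this
      exact tendsto_nhds_unique h2 h3
    exact (hM.mem_iff_infDist_zero hMne).2 h1
  · have h1 : ∀ n : ℕ, (G ^ n) m = m := by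
      intro n
      induction n with
      | zero => simp
      | succ n ih => rw [pow_succ', mul_apply_eq_comp, ih, hG m hm]
    have h2 := hPx m
    simp only [h1] at h2
    exact (tendsto_nhds_unique h2 tendsto_const_nhds)

/-- A locally complemented copy of `Y` in `X` with constant less than `κ` is complemented. -/
theorem exists_left_inverse_of_local_complement [CompleteSpace X] [CompleteSpace Y]
    (π : StrongDual ℝ (StrongDual ℝ X) →L[ℝ] X) (hπ : ∀ x, π (inclusionInDoubleDual ℝ X x) = x)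
    {κ : ℝ} (hκ : 0 < κ)
    (hπκ : ∀ ζ, κ * min ‖π ζ‖ ‖ζ - inclusionInDoubleDual ℝ X (π ζ)‖ ≤ ‖ζ‖)
    (A : Y →L[ℝ] X) {K L c : ℝ} (hK : 0 ≤ K) (hL : 0 ≤ L) (hc : 0 < c)
    (hA : ∀ v, ‖A v‖ ≤ K * ‖v‖) (hA' : ∀ v, c * ‖v‖ ≤ ‖A v‖)
    (E : StrongDual ℝ Y →ₗ[ℝ] StrongDual ℝ X) (hE : ∀ φ, ‖E φ‖ ≤ L * ‖φ‖)
    (hEA : ∀ φ h, E φ (A h) = φ h) (hKL : K * L < κ) : ∃ P : X →L[ℝ] Y, ∀ h, P (A h) = h := by
  have hcomp : ∀ ψ : StrongDual ℝ X, ‖ψ.comp A‖ ≤ K * ‖ψ‖ := by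
    intro ψ
    refine ContinuousLinearMap.opNorm_le_bound _ (by positivity) fun v => ?_
    calc ‖ψ (A v)‖ ≤ ‖ψ‖ * ‖A v‖ := ψ.le_opNorm _
      _ ≤ ‖ψ‖ * (K * ‖v‖) := by gcongr; exact hA v
      _ = K * ‖ψ‖ * ‖v‖ := by ring
  have hEb : ∀ (x : X) (ψ : StrongDual ℝ X), ‖E (ψ.comp A) x‖ ≤ (K * L) * ‖x‖ * ‖ψ‖ := by
    intro x ψ
    calc ‖E (ψ.comp A) x‖ ≤ ‖E (ψ.comp A)‖ * ‖x‖ := ContinuousLinearMap.le_opNorm _ _
      _ ≤ (L * ‖ψ.comp A‖) * ‖x‖ := by gcongr; exact hE _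
      _ ≤ (L * (K * ‖ψ‖)) * ‖x‖ := by gcongr; exact hcomp ψ
      _ = (K * L) * ‖x‖ * ‖ψ‖ := by ring
  let T : X →L[ℝ] StrongDual ℝ (StrongDual ℝ X) := bidualExt A E hEb
  have hT : ∀ x, ‖T x‖ ≤ (K * L) * ‖x‖ := norm_bidualExt_le A E (by positivity) hEb
  have hTA : ∀ h, T (A h) = inclusionInDoubleDual ℝ X (A h) := by
    intro h
    ext ψ
    show E (ψ.comp A) (A h) = ψ (A h)
    rw [hEA]; rfl
  let M : Submodule ℝ X := LinearMap.range (A : Y →ₗ[ℝ] X)
  have hanti : AntilipschitzWith (Real.toNNReal c⁻¹) A := by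
    apply AddMonoidHomClass.antilipschitz_of_bound
    intro v
    rw [Real.coe_toNNReal _ (by positivity)]
    have := hA' v
    rw [inv_mul_eq_div, le_div_iff₀ hc]
    linarith
  have hMcl : IsClosed (M : Set X) := by
    have : (M : Set X) = Set.range A := by
      ext x; simp [M]
    rw [this]
    exact hanti.isClosed_range A.uniformContinuous
  let G : X →L[ℝ] X := π.comp T
  have hGM : ∀ m ∈ M, G m = m := by
    rintro m ⟨h, rfl⟩
    show π (T (A h)) = A h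
    rw [hTA, hπ]
  have hdist : ∀ x, infDist (G x) (M : Set X) ≤ (K * L / κ) * ‖x‖ := by
    intro x
    have h1 : infDist (G x) (M : Set X) ≤ ‖G x‖ := by
      have := infDist_le_dist_of_mem (x := G x) (M.zero_mem)
      simpa using this
    have h2 : infDist (G x) (M : Set X) ≤ ‖T x - inclusionInDoubleDual ℝ X (G x)‖ := by
      apply infDist_le_of_annihilates
      intro ψ hψ
      show E (ψ.comp A) x = 0
      have : ψ.comp A = 0 := by
        ext h
        exact hψ (A h) ⟨h, rfl⟩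
      rw [this, map_zero]; rfl
    have h3 : κ * infDist (G x) (M : Set X) ≤ (K * L) * ‖x‖ := by
      calc κ * infDist (G x) (M : Set X)
          ≤ κ * min ‖π (T x)‖ ‖T x - inclusionInDoubleDual ℝ X (π (T x))‖ := by
            gcongr
            exact le_min h1 h2
        _ ≤ ‖T x‖ := hπκ _
        _ ≤ (K * L) * ‖x‖ := hT x
    rw [div_mul_eq_mul_div, le_div_iff₀ hκ]
    linarith
  -- choose a positive contraction constant
  have hρ : K * L / κ < 1 := by rwa [div_lt_one hκ]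
  have hρ' : 0 ≤ K * L / κ := by positivity
  obtain ⟨P, hP1, hP2⟩ := exists_projection_of_contraction hMcl G hGM
    (ρ := (K * L / κ + 1) / 2) (by linarith) (by linarith) 
    (fun x => (hdist x).trans (mul_le_mul_of_nonneg_right (by linarith) (norm_nonneg x)))
  have hinj : Function.Injective A := hanti.injective
  have hcl : IsClosed (Set.range A) := hanti.isClosed_range A.uniformContinuous
  let e := A.equivRange hinj hcl
  let P' : X →L[ℝ] LinearMap.range (A : Y →ₗ[ℝ] X) := P.codRestrict _ hP1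
  refine ⟨(e.symm : _ →L[ℝ] Y).comp P', fun h => ?_⟩
  show e.symm (P' (A h)) = h
  rw [ContinuousLinearEquiv.symm_apply_eq]
  apply Subtype.ext
  show P (A h) = A h
  exact hP2 _ ⟨h, rfl⟩

/-- If `X` is complemented in its bidual and `E` is a local complementation operator for
`B : X → Y`, then `B` has a bounded linear left inverse. -/
theorem exists_left_inverse_of_bidual_projection
    (π : StrongDual ℝ (StrongDual ℝ X) →L[ℝ] X) (hπ : ∀ x, π (inclusionInDoubleDual ℝ X x) = x)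
    (B : X →L[ℝ] Y) {L : ℝ} (E : StrongDual ℝ X →ₗ[ℝ] StrongDual ℝ Y)
    (hE : ∀ φ, ‖E φ‖ ≤ L * ‖φ‖)
    (hEB : ∀ φ h, E φ (B h) = φ h) : ∃ Q : Y →L[ℝ] X, ∀ x, Q (B x) = x := by
  have hEb : ∀ (y : Y) (ψ : StrongDual ℝ X), ‖E ψ y‖ ≤ L * ‖y‖ * ‖ψ‖ := by
    intro y ψ
    calc ‖E ψ y‖ ≤ ‖E ψ‖ * ‖y‖ := ContinuousLinearMap.le_opNorm _ _
      _ ≤ (L * ‖ψ‖) * ‖y‖ := by gcongr; exact hE _
      _ = L * ‖y‖ * ‖ψ‖ := by ring
  let T : Y →L[ℝ] StrongDual ℝ (StrongDual ℝ X) :=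
    (LinearMap.mk₂ ℝ (fun (y : Y) (ψ : StrongDual ℝ X) => E ψ y)
      (by intro x x' ψ; simp) (by intro c x ψ; simp)
      (by intro x ψ ψ'; simp) (by intro c x ψ; simp)).mkContinuous₂ L hEb
  refine ⟨π.comp T, fun x => ?_⟩
  have h1 : T (B x) = inclusionInDoubleDual ℝ X x := by
    ext ψ
    show E ψ (B x) = ψ x
    exact hEB ψ x
  show π (T (B x)) = x
  rw [h1, hπ]

end Pool.Agent.H23
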