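import Mathlib

/-!
# Pelczynski's decomposition method for `ℓ_p`-sums
-/

open Set Filter Topology
open scoped NNReal ENNReal

namespace Pool.Agent.H23

section Maps

variable {p : ℝ≥0∞} [Fact (1 ≤ p)] {E F : Type*} [NormedAddCommGroup E] [NormedSpace ℝ E]
  [NormedAddCommGroup F] [NormedSpace ℝ F]

/-- Coordinatewise application of a bounded operator. -/
noncomputable def mapLp (p : ℝ≥0∞) [Fact (1 ≤ p)] (T : E →L[ℝ] F) :
    lp (fun _ : ℕ => E) p →L[ℝ] lp (fun _ : ℕ => F) p :=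
  LinearMap.mkContinuous
    { toFun := fun x => ⟨fun i => T (x i), by
        have h1 : Memℓp (fun i => ‖T‖ * ‖x i‖) p := (lp.memℓp x).norm.const_mul ‖T‖
        exact h1.mono fun i => T.le_opNorm _⟩
      map_add' := by
        intro x y
        ext i
        show T ((x + y) i) = T (x i) + T (y i)
        rw [lp.coeFn_add, Pi.add_apply, map_add]
      map_smul' := by
        intro c x
        ext i
        show T ((c • x) i) = c • T (x i)
        rw [lp.coeFn_smul, Pi.smul_apply, map_smul] }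
    ‖T‖ (by
      intro x
      have hp : p ≠ 0 := (zero_lt_one.trans_le (Fact.out : (1 : ℝ≥0∞) ≤ p)).ne'
      have h1 : ‖(‖T‖ • x : lp (fun _ : ℕ => E) p)‖ = ‖T‖ * ‖x‖ := by
        rw [norm_smul, norm_norm]
      rw [← h1]
      apply lp.norm_mono hp
      intro i
      show ‖T (x i)‖ ≤ ‖(‖T‖ • x : lp (fun _ : ℕ => E) p) i‖
      rw [lp.coeFn_smul, Pi.smul_apply, norm_smul, norm_norm]
      exact T.le_opNorm _)

@[simp]
theorem mapLp_apply (T : E →L[ℝ] F) (x : lp (fun _ : ℕ => E) p) (i : ℕ) :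
    mapLp p T x i = T (x i) := rfl

/-- The left shift. -/
noncomputable def shiftL (p : ℝ≥0∞) [Fact (1 ≤ p)] (hp : p ≠ ∞) (E : Type*)
    [NormedAddCommGroup E] [NormedSpace ℝ E] :
    lp (fun _ : ℕ => E) p →L[ℝ] lp (fun _ : ℕ => E) p :=
  have hp' : 0 < p.toReal :=
    ENNReal.toReal_pos (zero_lt_one.trans_le (Fact.out : (1 : ℝ≥0∞) ≤ p)).ne' hp
  LinearMap.mkContinuous
    { toFun := fun x => ⟨fun i => x (i + 1), by
        apply memℓp_gen
        exact (summable_nat_add_iff 1).2 ((lp.memℓp x).summable hp')⟩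
      map_add' := by
        intro x y
        ext i
        show (x + y) (i + 1) = x (i + 1) + y (i + 1)
        rw [lp.coeFn_add, Pi.add_apply]
      map_smul' := by
        intro c x
        ext i
        show (c • x) (i + 1) = c • x (i + 1)
        rw [lp.coeFn_smul, Pi.smul_apply] }
    1 (by
      intro x
      rw [one_mul]
      apply lp.norm_le_of_tsum_le hp' (norm_nonneg _)
      rw [lp.norm_rpow_eq_tsum hp']
      have h1 := ((lp.memℓp x).summable hp').tsum_eq_zero_add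
      show ∑' i : ℕ, ‖x (i + 1)‖ ^ p.toReal ≤ _
      rw [h1]
      have : 0 ≤ ‖x 0‖ ^ p.toReal := by positivity
      linarith)

@[simp]
theorem shiftL_apply (hp : p ≠ ∞) (x : lp (fun _ : ℕ => E) p) (i : ℕ) :
    shiftL p hp E x i = x (i + 1) := rfl

/-- The right shift. -/
noncomputable def shiftR (p : ℝ≥0∞) [Fact (1 ≤ p)] (hp : p ≠ ∞) (E : Type*)
    [NormedAddCommGroup E] [NormedSpace ℝ E] :
    lp (fun _ : ℕ => E) p →L[ℝ] lp (fun _ : ℕ => E) p :=
  have hp' : 0 < p.toReal :=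
    ENNReal.toReal_pos (zero_lt_one.trans_le (Fact.out : (1 : ℝ≥0∞) ≤ p)).ne' hp
  LinearMap.mkContinuous
    { toFun := fun x => ⟨fun i => Nat.casesOn i 0 (fun j => x j), by
        apply memℓp_gen
        exact (summable_nat_add_iff 1).1 ((lp.memℓp x).summable hp')⟩
      map_add' := by
        intro x y
        ext i
        rcases i with _ | j
        · show (0 : E) = 0 + 0
          simp
        · show (x + y) j = x j + y j
          rw [lp.coeFn_add, Pi.add_apply]
      map_smul' := by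
        intro c x
        ext i
        rcases i with _ | j
        · show (0 : E) = c • (0 : E)
          simp
        · show (c • x) j = c • x j
          rw [lp.coeFn_smul, Pi.smul_apply] }
    1 (by
      intro x
      rw [one_mul]
      apply lp.norm_le_of_tsum_le hp' (norm_nonneg _)
      rw [lp.norm_rpow_eq_tsum hp']
      have h0 : Summable (fun i : ℕ => ‖(Nat.casesOn i 0 (fun j => x j) : E)‖ ^ p.toReal) :=
        (summable_nat_add_iff 1).1 ((lp.memℓp x).summable hp')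
      show ∑' i : ℕ, ‖(Nat.casesOn i 0 (fun j => x j) : E)‖ ^ p.toReal ≤ _
      rw [h0.tsum_eq_zero_add]
      simp [Real.zero_rpow hp'.ne'])

@[simp]
theorem shiftR_zero (hp : p ≠ ∞) (x : lp (fun _ : ℕ => E) p) :
    shiftR p hp E x 0 = 0 := rfl

@[simp]
theorem shiftR_succ (hp : p ≠ ∞) (x : lp (fun _ : ℕ => E) p) (i : ℕ) :
    shiftR p hp E x (i + 1) = x i := rfl

/-- If `Y` is complemented in `X`, then `ℓ_p(X) ≅ Y × ℓ_p(X)`. -/
theorem exists_equiv_prod_lp {X Y : Type*} [NormedAddCommGroup X] [NormedSpace ℝ X]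
    [NormedAddCommGroup Y] [NormedSpace ℝ Y] (hp : p ≠ ∞) (A : Y →L[ℝ] X) (P : X →L[ℝ] Y)
    (hPA : ∀ y, P (A y) = y) :
    Nonempty (lp (fun _ : ℕ => X) p ≃L[ℝ] Y × lp (fun _ : ℕ => X) p) := by
  let e : X →L[ℝ] X := A.comp P
  let f : X →L[ℝ] X := ContinuousLinearMap.id ℝ X - e
  have he : ∀ x, e x = A (P x) := fun _ => rfl
  have hf : ∀ x, f x = x - A (P x) := fun _ => rfl
  let ev0 : lp (fun _ : ℕ => X) p →L[ℝ] X :=
    LinearMap.mkContinuous
      { toFun := fun x => x 0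
        map_add' := fun x y => by rw [lp.coeFn_add, Pi.add_apply]
        map_smul' := fun c x => by rw [lp.coeFn_smul, Pi.smul_apply]; rfl }
      1 (fun x => by
        rw [one_mul]
        exact lp.norm_apply_le_norm (zero_lt_one.trans_le (Fact.out : (1 : ℝ≥0∞) ≤ p)).ne' x 0)
  have hev0 : ∀ x, ev0 x = x 0 := fun _ => rfl
  let S0 : X →L[ℝ] lp (fun _ : ℕ => X) p :=
    lp.singleContinuousLinearMap ℝ (fun _ : ℕ => X) p 0
  have hS00 : ∀ x : X, S0 x 0 = x := fun x =>
    lp.single_apply_self (E := fun _ : ℕ => X) p 0 x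
  have hS0s : ∀ (x : X) (i : ℕ), S0 x (i + 1) = 0 := fun x i =>
    lp.single_apply_ne (E := fun _ : ℕ => X) p 0 x (Nat.succ_ne_zero i)
  let Θ : lp (fun _ : ℕ => X) p →L[ℝ] Y × lp (fun _ : ℕ => X) p :=
    (P.comp ev0).prod ((mapLp p e).comp (shiftL p hp X) + mapLp p f)
  let Θ' : Y × lp (fun _ : ℕ => X) p →L[ℝ] lp (fun _ : ℕ => X) p :=
    (S0.comp A).comp (ContinuousLinearMap.fst ℝ _ _) +
      ((shiftR p hp X).comp (mapLp p e) + mapLp p f).comp (ContinuousLinearMap.snd ℝ _ _)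
  have hΘ' : ∀ (y : Y) (z : lp (fun _ : ℕ => X) p),
      Θ' (y, z) = S0 (A y) + (shiftR p hp X (mapLp p e z) + mapLp p f z) := fun _ _ => rfl
  have hΘ'0 : ∀ (y : Y) (z : lp (fun _ : ℕ => X) p), Θ' (y, z) 0 = A y + f (z 0) := by
    intro y z
    rw [hΘ', lp.coeFn_add, Pi.add_apply, lp.coeFn_add, Pi.add_apply, hS00, shiftR_zero,
      mapLp_apply, zero_add]
  have hΘ's : ∀ (y : Y) (z : lp (fun _ : ℕ => X) p) (i : ℕ),
      Θ' (y, z) (i + 1) = e (z i) + f (z (i + 1)) := by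
    intro y z i
    rw [hΘ', lp.coeFn_add, Pi.add_apply, lp.coeFn_add, Pi.add_apply, hS0s, shiftR_succ,
      mapLp_apply, mapLp_apply, zero_add]
  have hΘ1 : ∀ x, (Θ x).1 = P (x 0) := fun _ => rfl
  have hΘ2 : ∀ x i, (Θ x).2 i = e (x (i + 1)) + f (x i) := by
    intro x i
    show ((mapLp p e (shiftL p hp X x)) + mapLp p f x : lp (fun _ : ℕ => X) p) i = _
    rw [lp.coeFn_add, Pi.add_apply]
    rfl
  refine ⟨ContinuousLinearEquiv.equivOfInverse Θ Θ' ?_ ?_⟩
  · intro x
    ext i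
    have hx : Θ x = ((Θ x).1, (Θ x).2) := rfl
    rw [hx]
    rcases i with _ | i
    · rw [hΘ'0, hΘ1, hΘ2]
      simp only [he, hf, map_add, map_sub, hPA]
      abel
    · rw [hΘ's, hΘ2, hΘ2]
      simp only [he, hf, map_add, map_sub, hPA]
      abel
  · rintro ⟨y, z⟩
    apply Prod.ext
    · rw [hΘ1, hΘ'0]
      simp only [hf, map_add, map_sub, hPA]
      abel
    · ext i
      rw [hΘ2, hΘ's]
      rcases i with _ | i
      · rw [hΘ'0]
        simp only [he, hf, map_add, map_sub, hPA]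
        abel
      · rw [hΘ's]
        simp only [he, hf, map_add, map_sub, hPA]
        abel

/-- **Pelczynski's decomposition method.** -/
theorem nonempty_equiv_of_complemented {X Y : Type*} [NormedAddCommGroup X] [NormedSpace ℝ X]
    [NormedAddCommGroup Y] [NormedSpace ℝ Y] (hp : p ≠ ∞)
    (hX : Nonempty (X ≃L[ℝ] lp (fun _ : ℕ => X) p))
    (A : Y →L[ℝ] X) (P : X →L[ℝ] Y) (hPA : ∀ y, P (A y) = y)
    (B : X →L[ℝ] Y) (Q : Y →L[ℝ] X) (hQB : ∀ x, Q (B x) = x) : Nonempty (Y ≃L[ℝ] X) := by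
  obtain ⟨eX⟩ := hX
  obtain ⟨e1⟩ := exists_equiv_prod_lp hp A P hPA
  obtain ⟨e2⟩ := exists_equiv_prod_lp hp (ContinuousLinearMap.id ℝ X)
    (ContinuousLinearMap.id ℝ X) (fun _ => rfl)
  -- `X ≅ Y × X`
  have f1 : X ≃L[ℝ] Y × X :=
    eX.trans (e1.trans ((ContinuousLinearEquiv.refl ℝ Y).prodCongr eX.symm))
  -- `X ≅ X × X`
  have f2 : X ≃L[ℝ] X × X :=
    eX.trans (e2.trans ((ContinuousLinearEquiv.refl ℝ X).prodCongr eX.symm))
  -- `Y ≅ X × W`
  have f3 : Y ≃L[ℝ] X × LinearMap.ker (Q : Y →ₗ[ℝ] X) :=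
    ContinuousLinearEquiv.equivOfRightInverse Q B hQB
  exact ⟨f3.trans ((f2.prodCongr (ContinuousLinearEquiv.refl ℝ _)).trans
    ((ContinuousLinearEquiv.prodAssoc ℝ X X _).trans
      (((ContinuousLinearEquiv.refl ℝ X).prodCongr f3.symm).trans
        ((ContinuousLinearEquiv.prodComm ℝ X Y).trans f1.symm))))⟩

end Maps

end Pool.Agent.H23
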