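import Mathlib

/-!
# Real ultralimits and invariant means on commutative groups
-/

open Set Filter Topology Metric
open scoped NNReal

namespace Pool.Agent.H23

/-- The limit of a real function along an ultrafilter. -/
noncomputable def ulim {ι : Type*} (U : Ultrafilter ι) (φ : ι → ℝ) : ℝ :=
  limUnder (U : Filter ι) φ

theorem tendsto_ulim {ι : Type*} (U : Ultrafilter ι) {φ : ι → ℝ} {C : ℝ}
    (h : ∀ᶠ i in (U : Filter ι), |φ i| ≤ C) : Tendsto φ (U : Filter ι) (𝓝 (ulim U φ)) := by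
  have h1 : Icc (-C) C ∈ ((U.map φ : Ultrafilter ℝ) : Filter ℝ) := by
    rw [Ultrafilter.coe_map, Filter.mem_map]
    filter_upwards [h] with i hi
    exact abs_le.1 hi
  obtain ⟨x, -, hx⟩ := (isCompact_Icc (a := -C) (b := C)).ultrafilter_le_nhds (U.map φ)
    (by simpa using h1)
  exact tendsto_nhds_limUnder ⟨x, hx⟩

theorem ulim_eq {ι : Type*} (U : Ultrafilter ι) {φ : ι → ℝ} {x : ℝ}
    (h : Tendsto φ (U : Filter ι) (𝓝 x)) : ulim U φ = x :=
  h.limUnder_eq

theorem abs_ulim_le {ι : Type*} (U : Ultrafilter ι) {φ : ι → ℝ} {C : ℝ}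
    (h : ∀ᶠ i in (U : Filter ι), |φ i| ≤ C) : |ulim U φ| ≤ C :=
  le_of_tendsto ((tendsto_ulim U h).abs) h

theorem ulim_add {ι : Type*} (U : Ultrafilter ι) {φ ψ : ι → ℝ} {C C' : ℝ}
    (h : ∀ᶠ i in (U : Filter ι), |φ i| ≤ C) (h' : ∀ᶠ i in (U : Filter ι), |ψ i| ≤ C') :
    ulim U (fun i => φ i + ψ i) = ulim U φ + ulim U ψ :=
  ulim_eq U ((tendsto_ulim U h).add (tendsto_ulim U h'))

theorem ulim_sub {ι : Type*} (U : Ultrafilter ι) {φ ψ : ι → ℝ} {C C' : ℝ}
    (h : ∀ᶠ i in (U : Filter ι), |φ i| ≤ C) (h' : ∀ᶠ i in (U : Filter ι), |ψ i| ≤ C') :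
    ulim U (fun i => φ i - ψ i) = ulim U φ - ulim U ψ :=
  ulim_eq U ((tendsto_ulim U h).sub (tendsto_ulim U h'))

theorem ulim_smul {ι : Type*} (U : Ultrafilter ι) {φ : ι → ℝ} {C : ℝ} (c : ℝ)
    (h : ∀ᶠ i in (U : Filter ι), |φ i| ≤ C) :
    ulim U (fun i => c * φ i) = c * ulim U φ :=
  ulim_eq U ((tendsto_ulim U h).const_mul c)

theorem ulim_const {ι : Type*} (U : Ultrafilter ι) (c : ℝ) : ulim U (fun _ => c) = c :=
  ulim_eq U tendsto_const_nhds

theorem ulim_congr {ι : Type*} (U : Ultrafilter ι) {φ ψ : ι → ℝ}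
    (h : ∀ᶠ i in (U : Filter ι), φ i = ψ i) : ulim U φ = ulim U ψ := by
  unfold ulim limUnder
  rw [Filter.map_congr h]

/-- A mean on the bounded real functions on `G`, extended arbitrarily to all functions. -/
structure IsMean {G : Type*} (M : (G → ℝ) → ℝ) : Prop where
  add : ∀ φ ψ : G → ℝ, (∃ C, ∀ x, |φ x| ≤ C) → (∃ C, ∀ x, |ψ x| ≤ C) →
    M (fun x => φ x + ψ x) = M φ + M ψ
  smul : ∀ (c : ℝ) (φ : G → ℝ), (∃ C, ∀ x, |φ x| ≤ C) → M (fun x => c * φ x) = c * M φ
  bound : ∀ (C : ℝ) (φ : G → ℝ), (∀ x, |φ x| ≤ C) → |M φ| ≤ C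
  const : ∀ c : ℝ, M (fun _ => c) = c

theorem IsMean.sub {G : Type*} {M : (G → ℝ) → ℝ} (hM : IsMean M) (φ ψ : G → ℝ)
    (hφ : ∃ C, ∀ x, |φ x| ≤ C) (hψ : ∃ C, ∀ x, |ψ x| ≤ C) :
    M (fun x => φ x - ψ x) = M φ - M ψ := by
  have h1 : (fun x => φ x - ψ x) = fun x => φ x + (-1) * ψ x := by
    funext x; ring
  obtain ⟨C, hC⟩ := hψ
  rw [h1, hM.add φ (fun x => (-1) * ψ x) hφ ⟨C, fun x => by simpa using hC x⟩,
    hM.smul (-1) ψ ⟨C, hC⟩]
  ring

/-- One step in the construction of invariant means. -/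
theorem exists_mean_insert {G : Type*} [AddCommGroup G] (F : Set G) (g : G)
    {M : (G → ℝ) → ℝ} (hM : IsMean M)
    (hinv : ∀ a ∈ F, ∀ φ : G → ℝ, (∃ C, ∀ x, |φ x| ≤ C) → M (fun x => φ (x + a)) = M φ) :
    ∃ M' : (G → ℝ) → ℝ, IsMean M' ∧
      ∀ a ∈ insert g F, ∀ φ : G → ℝ, (∃ C, ∀ x, |φ x| ≤ C) → M' (fun x => φ (x + a)) = M' φ := by
  obtain ⟨U, hU⟩ := Filter.exists_ultrafilter_le (f := (atTop : Filter ℕ))
  let A : (G → ℝ) → ℕ → ℝ := fun φ n =>
    ((n : ℝ) + 1)⁻¹ * ∑ k ∈ Finset.range (n + 1), M (fun x => φ (x + k • g))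
  have hAb : ∀ (C : ℝ) (φ : G → ℝ), (∀ x, |φ x| ≤ C) → ∀ n, |A φ n| ≤ C := by
    intro C φ hφ n
    have hn : (0 : ℝ) < (n : ℝ) + 1 := by positivity
    have h1 : |∑ k ∈ Finset.range (n + 1), M (fun x => φ (x + k • g))| ≤ ((n : ℝ) + 1) * C := by
      calc |∑ k ∈ Finset.range (n + 1), M (fun x => φ (x + k • g))|
          ≤ ∑ k ∈ Finset.range (n + 1), |M (fun x => φ (x + k • g))| :=
            Finset.abs_sum_le_sum_abs _ _
        _ ≤ ∑ _k ∈ Finset.range (n + 1), C :=
            Finset.sum_le_sum fun k _ => hM.bound C _ fun x => hφ _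
        _ = ((n : ℝ) + 1) * C := by simp
    simp only [A, abs_mul, abs_inv, abs_of_pos hn]
    calc ((n : ℝ) + 1)⁻¹ * |∑ k ∈ Finset.range (n + 1), M (fun x => φ (x + k • g))|
        ≤ ((n : ℝ) + 1)⁻¹ * (((n : ℝ) + 1) * C) := by gcongr
      _ = C := by field_simp
  refine ⟨fun φ => ulim U (A φ), ⟨?_, ?_, ?_, ?_⟩, ?_⟩
  · rintro φ ψ ⟨C, hC⟩ ⟨C', hC'⟩
    have h1 : A (fun x => φ x + ψ x) = fun n => A φ n + A ψ n := by
      funext n
      simp only [A]
      rw [← mul_add, ← Finset.sum_add_distrib]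
      congr 1
      refine Finset.sum_congr rfl fun k _ => ?_
      exact hM.add (fun x => φ (x + k • g)) (fun x => ψ (x + k • g)) ⟨C, fun x => hC _⟩
        ⟨C', fun x => hC' _⟩
    simp only [h1]
    exact ulim_add U (Eventually.of_forall (hAb C φ hC)) (Eventually.of_forall (hAb C' ψ hC'))
  · rintro c φ ⟨C, hC⟩
    have h1 : A (fun x => c * φ x) = fun n => c * A φ n := by
      funext n
      have h2 : ∀ k : ℕ, M (fun x => c * φ (x + k • g)) = c * M (fun x => φ (x + k • g)) :=
        fun k => hM.smul c (fun x => φ (x + k • g)) ⟨C, fun x => hC _⟩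
      simp only [A, h2, ← Finset.mul_sum]
      ring
    simp only [h1]
    exact ulim_smul U c (Eventually.of_forall (hAb C φ hC))
  · intro C φ hC
    exact abs_ulim_le U (Eventually.of_forall (hAb C φ hC))
  · intro c
    have h1 : A (fun _ => c) = fun _ => c := by
      funext n
      simp only [A, hM.const]
      have hn : (0 : ℝ) < (n : ℝ) + 1 := by positivity
      simp
      field_simp
    simp only [h1]
    exact ulim_const U c
  · rintro a ha φ ⟨C, hC⟩
    rcases ha with rfl | ha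
    · -- invariance under `g`
      have hdiff : ∀ n : ℕ, A (fun x => φ (x + a)) n - A φ n
          = ((n : ℝ) + 1)⁻¹ * (M (fun x => φ (x + (n + 1) • a)) - M φ) := by
        intro n
        simp only [A]
        rw [← mul_sub, ← Finset.sum_sub_distrib]
        congr 1
        have h2 : ∀ k : ℕ, M (fun x => φ (x + k • a + a)) = M (fun x => φ (x + (k + 1) • a)) := by
          intro k
          congr 1
          funext x
          rw [succ_nsmul, add_assoc]
        simp only [h2]
        rw [Finset.sum_range_sub (fun k => M (fun x => φ (x + k • a)))]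
        simp
      have hlim : Tendsto (fun n => A (fun x => φ (x + a)) n - A φ n) (U : Filter ℕ) (𝓝 0) := by
        refine Tendsto.mono_left ?_ hU
        apply squeeze_zero_norm (a := fun n : ℕ => ((n : ℝ) + 1)⁻¹ * (2 * C))
        · intro n
          rw [hdiff n, norm_mul, Real.norm_eq_abs, Real.norm_eq_abs,
            abs_of_pos (show (0 : ℝ) < ((n : ℝ) + 1)⁻¹ by positivity)]
          gcongr
          have h3 := hM.bound C (fun x => φ (x + (n + 1) • a)) fun x => hC _
          have h4 := hM.bound C φ hC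
          calc |M (fun x => φ (x + (n + 1) • a)) - M φ|
              ≤ |M (fun x => φ (x + (n + 1) • a))| + |M φ| := abs_sub _ _
            _ ≤ 2 * C := by linarith
        · have := (tendsto_one_div_add_atTop_nhds_zero_nat (𝕜 := ℝ)).mul_const (2 * C)
          simpa using this
      have h5 := ulim_sub U (Eventually.of_forall (hAb C (fun x => φ (x + a)) fun x => hC _))
        (Eventually.of_forall (hAb C φ hC))
      rw [ulim_eq U hlim] at h5
      linarith
    · -- invariance under `F`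
      have h1 : A (fun x => φ (x + a)) = A φ := by
        funext n
        simp only [A]
        congr 1
        refine Finset.sum_congr rfl fun k _ => ?_
        have := hinv a ha (fun x => φ (x + k • g)) ⟨C, fun x => hC _⟩
        rw [← this]
        congr 1
        funext x
        rw [add_right_comm]
      simp only [h1]

theorem exists_mean_finset {G : Type*} [AddCommGroup G] (F : Finset G) :
    ∃ M : (G → ℝ) → ℝ, IsMean M ∧
      ∀ a ∈ F, ∀ φ : G → ℝ, (∃ C, ∀ x, |φ x| ≤ C) → M (fun x => φ (x + a)) = M φ := by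
  classical
  induction F using Finset.induction_on with
  | empty =>
    refine ⟨fun φ => φ 0, ⟨?_, ?_, ?_, ?_⟩, ?_⟩
    · intro φ ψ _ _; rfl
    · intro c φ _; rfl
    · intro C φ h; exact h 0
    · intro c; rfl
    · intro a ha; simp at ha
  | insert g F _ ih =>
    obtain ⟨M, hM, hinv⟩ := ih
    obtain ⟨M', hM', hinv'⟩ := exists_mean_insert (F : Set G) g hM (by simpa using hinv)
    refine ⟨M', hM', ?_⟩
    intro a ha
    apply hinv'
    simpa using ha

/-- Every commutative group carries a translation invariant mean. -/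
theorem exists_invariant_mean (G : Type*) [AddCommGroup G] :
    ∃ M : (G → ℝ) → ℝ, IsMean M ∧
      ∀ a : G, ∀ φ : G → ℝ, (∃ C, ∀ x, |φ x| ≤ C) → M (fun x => φ (x + a)) = M φ := by
  classical
  choose M hM hinv using fun F : Finset G => exists_mean_finset F
  obtain ⟨U, hU⟩ := Filter.exists_ultrafilter_le (f := (atTop : Filter (Finset G)))
  refine ⟨fun φ => ulim U (fun F => M F φ), ⟨?_, ?_, ?_, ?_⟩, ?_⟩
  · rintro φ ψ ⟨C, hC⟩ ⟨C', hC'⟩
    have h1 : (fun F => M F (fun x => φ x + ψ x)) = fun F => M F φ + M F ψ := by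
      funext F
      exact (hM F).add φ ψ ⟨C, hC⟩ ⟨C', hC'⟩
    rw [h1]
    exact ulim_add U (Eventually.of_forall fun F => (hM F).bound C φ hC)
      (Eventually.of_forall fun F => (hM F).bound C' ψ hC')
  · rintro c φ ⟨C, hC⟩
    have h1 : (fun F => M F (fun x => c * φ x)) = fun F => c * M F φ := by
      funext F
      exact (hM F).smul c φ ⟨C, hC⟩
    rw [h1]
    exact ulim_smul U c (Eventually.of_forall fun F => (hM F).bound C φ hC)
  · intro C φ hC
    exact abs_ulim_le U (Eventually.of_forall fun F => (hM F).bound C φ hC)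
  · intro c
    have h1 : (fun F => M F (fun _ => c)) = fun _ => c := by
      funext F
      exact (hM F).const c
    rw [h1]
    exact ulim_const U c
  · rintro a φ hφ
    apply ulim_congr
    have h1 : ∀ᶠ F : Finset G in atTop, a ∈ F := by
      filter_upwards [eventually_ge_atTop ({a} : Finset G)] with F hF
      exact hF (Finset.mem_singleton_self a)
    filter_upwards [hU h1] with F hF
    exact hinv F a hF φ hφ

end Pool.Agent.H23
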