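import Mathlib
import Pool.Agent.H23.UltraLim

/-!
# Lipschitz curves in separable dual spaces are differentiable almost everywhere
-/

open MeasureTheory Set Filter Topology Metric TopologicalSpace
open scoped NNReal ENNReal

namespace Pool.Agent.H23

/-- A function into a separable metric space is measurable as soon as the preimages of closed
balls are. -/
theorem measurable_of_preimage_closedBall {α X : Type*} [MeasurableSpace α] [PseudoMetricSpace X]
    [SeparableSpace X] [MeasurableSpace X] [BorelSpace X] {f : α → X}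
    (h : ∀ x : X, ∀ r : ℝ, MeasurableSet (f ⁻¹' closedBall x r)) : Measurable f := by
  apply measurable_of_isOpen
  intro U hU
  obtain ⟨S, hSc, hSd⟩ := TopologicalSpace.exists_countable_dense X
  let T : Set (X × ℚ) := {p | p.1 ∈ S ∧ closedBall p.1 (p.2 : ℝ) ⊆ U}
  have hTc : T.Countable := by
    have : T ⊆ S ×ˢ (Set.univ : Set ℚ) := fun p hp => ⟨hp.1, trivial⟩
    exact (hSc.prod (Set.countable_univ)).mono this
  have hUeq : U = ⋃ p ∈ T, closedBall p.1 (p.2 : ℝ) := by
    apply Set.Subset.antisymm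
    · intro x hx
      obtain ⟨ε, hε, hball⟩ := Metric.isOpen_iff.1 hU x hx
      obtain ⟨q, hq1, hq2⟩ := exists_rat_btwn (show (0 : ℝ) < ε / 2 by linarith)
      obtain ⟨s, hs, hsx⟩ := hSd.exists_dist_lt x hq1
      simp only [Set.mem_iUnion]
      refine ⟨(s, q), ⟨hs, ?_⟩, ?_⟩
      · intro y hy
        apply hball
        simp only [mem_closedBall, mem_ball] at *
        calc dist y x ≤ dist y s + dist s x := dist_triangle _ _ _
          _ < ε := by rw [dist_comm s x]; linarith
      · simp only [mem_closedBall]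
        exact hsx.le
    · intro x hx
      simp only [Set.mem_iUnion] at hx
      obtain ⟨p, hp, hxp⟩ := hx
      exact hp.2 hxp
  rw [hUeq, Set.preimage_iUnion₂]
  exact MeasurableSet.biUnion hTc fun p _ => h _ _

/-- A separable dual has a countable norming family in the predual. -/
theorem exists_norming_family {Z : Type*} [NormedAddCommGroup Z] [NormedSpace ℝ Z]
    [SeparableSpace (Z →L[ℝ] ℝ)] :
    ∃ z : ℕ × ℕ → Z, (∀ n, ‖z n‖ ≤ 1) ∧
      ∀ x : Z →L[ℝ] ℝ, ∀ c : ℝ, (∀ n, |x (z n)| ≤ c) → ‖x‖ ≤ c := by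
  obtain ⟨d, hd⟩ := TopologicalSpace.exists_dense_seq (Z →L[ℝ] ℝ)
  have h1 : ∀ p : ℕ × ℕ, ∃ z : Z, ‖z‖ ≤ 1 ∧ ‖d p.1‖ - 1 / ((p.2 : ℝ) + 1) ≤ |d p.1 z| := by
    intro p
    by_cases hp : ‖d p.1‖ - 1 / ((p.2 : ℝ) + 1) < 0
    · exact ⟨0, by simp, by simp; exact (by simpa using hp.le)⟩
    · have hlt : ‖d p.1‖ - 1 / ((p.2 : ℝ) + 1) < ‖d p.1‖ := by
        have : (0 : ℝ) < 1 / ((p.2 : ℝ) + 1) := by positivity
        linarith
      obtain ⟨z, hz1, hz2⟩ := ContinuousLinearMap.exists_lt_apply_of_lt_opNorm (d p.1) hlt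
      exact ⟨z, hz1.le, by simpa using hz2.le⟩
  choose z hz1 hz2 using h1
  refine ⟨z, hz1, fun x c hc => ?_⟩
  apply le_of_forall_pos_le_add
  intro ε hε
  obtain ⟨k, hk⟩ := exists_nat_one_div_lt (show (0 : ℝ) < ε / 3 by linarith)
  obtain ⟨m, hm⟩ := hd.exists_dist_lt x (show (0 : ℝ) < ε / 3 by linarith)
  rw [dist_eq_norm] at hm
  have h3 := hz2 (m, k)
  simp only at h3
  have h4 : |d m (z (m, k))| ≤ |x (z (m, k))| + ‖x - d m‖ := by
    have : d m (z (m, k)) = x (z (m, k)) - (x - d m) (z (m, k)) := by simp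
    rw [this]
    have h5 : |(x - d m) (z (m, k))| ≤ ‖x - d m‖ := by
      calc |(x - d m) (z (m, k))| = ‖(x - d m) (z (m, k))‖ := (Real.norm_eq_abs _).symm
        _ ≤ ‖x - d m‖ * ‖z (m, k)‖ := (x - d m).le_opNorm _
        _ ≤ ‖x - d m‖ * 1 := by gcongr; exact hz1 _
        _ = ‖x - d m‖ := mul_one _
    exact (abs_sub _ _).trans (by linarith)
  have h6 : ‖x‖ ≤ ‖x - d m‖ + ‖d m‖ := by
    have := norm_add_le (x - d m) (d m)
    simpa using this
  have h7 := hc (m, k)
  linarith


/-- Weak-star cluster point of difference quotients: if all the scalar functions `t ↦ γ t (z n)`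
are differentiable at `t`, the derivatives are the values of one functional. -/
theorem exists_weakStar_deriv {Z : Type*} [NormedAddCommGroup Z] [NormedSpace ℝ Z] {ι : Type*}
    (z : ι → Z) {γ : ℝ → (Z →L[ℝ] ℝ)} {K : ℝ≥0} (hγ : LipschitzWith K γ) {t : ℝ}
    (ht : ∀ n, DifferentiableAt ℝ (fun s => γ s (z n)) t) :
    ∃ x : Z →L[ℝ] ℝ, ‖x‖ ≤ K ∧ ∀ n, x (z n) = deriv (fun s => γ s (z n)) t := by
  let Q : ℝ → (Z →L[ℝ] ℝ) := fun h => h⁻¹ • (γ (t + h) - γ t)
  have hQ : ∀ h, ‖Q h‖ ≤ K := by
    intro h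
    by_cases hh : h = 0
    · simp [Q, hh]
    · simp only [Q, norm_smul, norm_inv]
      have h1 := hγ.dist_le_mul (t + h) t
      rw [dist_eq_norm, dist_eq_norm] at h1
      have h2 : ‖t + h - t‖ = ‖h‖ := by ring_nf
      rw [h2] at h1
      have h3 : 0 < ‖h‖ := norm_pos_iff.2 hh
      calc ‖h‖⁻¹ * ‖γ (t + h) - γ t‖ ≤ ‖h‖⁻¹ * (K * ‖h‖) := by gcongr
        _ = K := by field_simp
  have hQv : ∀ h v, |Q h v| ≤ K * ‖v‖ := by
    intro h v
    calc |Q h v| = ‖Q h v‖ := (Real.norm_eq_abs _).symm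
      _ ≤ ‖Q h‖ * ‖v‖ := (Q h).le_opNorm v
      _ ≤ K * ‖v‖ := by gcongr; exact hQ h
  obtain ⟨U, hU⟩ := Filter.exists_ultrafilter_le (f := 𝓝[≠] (0 : ℝ))
  let x : Z →ₗ[ℝ] ℝ :=
    { toFun := fun v => ulim U (fun h => Q h v)
      map_add' := by
        intro v w
        simp only [map_add]
        exact ulim_add U (Eventually.of_forall fun h => hQv h v)
          (Eventually.of_forall fun h => hQv h w)
      map_smul' := by
        intro c v
        simp only [map_smul, smul_eq_mul, RingHom.id_apply]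
        exact ulim_smul U c (Eventually.of_forall fun h => hQv h v) }
  have hx : ∀ v, ‖x v‖ ≤ K * ‖v‖ := fun v =>
    abs_ulim_le U (Eventually.of_forall fun h => hQv h v)
  refine ⟨x.mkContinuous K hx, x.mkContinuous_norm_le K.2 hx, fun n => ?_⟩
  rw [LinearMap.mkContinuous_apply]
  apply ulim_eq
  refine Tendsto.mono_left ?_ hU
  have h1 := (ht n).hasDerivAt
  rw [hasDerivAt_iff_tendsto_slope_zero] at h1
  simpa [Q] using h1

/-- **Radon-Nikodym property of separable duals**: a Lipschitz curve in a separable dual space is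
differentiable almost everywhere. -/
theorem ae_differentiableAt_of_separable_dual {Z : Type*} [NormedAddCommGroup Z]
    [NormedSpace ℝ Z] [SeparableSpace (Z →L[ℝ] ℝ)] {γ : ℝ → (Z →L[ℝ] ℝ)} {K : ℝ≥0}
    (hγ : LipschitzWith K γ) : ∀ᵐ t, DifferentiableAt ℝ γ t := by
  classical
  obtain ⟨z, hz1, hz2⟩ := exists_norming_family (Z := Z)
  let φ : ℕ × ℕ → ℝ → ℝ := fun n t => γ t (z n)
  have hφ : ∀ n, LipschitzWith K (φ n) := by
    intro n
    apply LipschitzWith.of_dist_le_mul
    intro s t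
    have h1 := hγ.dist_le_mul s t
    rw [dist_eq_norm] at h1
    have h2 : φ n s - φ n t = (γ s - γ t) (z n) := by simp [φ]
    rw [dist_eq_norm, h2]
    calc ‖(γ s - γ t) (z n)‖ ≤ ‖γ s - γ t‖ * ‖z n‖ := (γ s - γ t).le_opNorm _
      _ ≤ ‖γ s - γ t‖ * 1 := by gcongr; exact hz1 n
      _ ≤ K * dist s t := by rw [mul_one]; exact h1
  have hφd : ∀ᵐ t, ∀ n, DifferentiableAt ℝ (φ n) t :=
    ae_all_iff.2 fun n => (hφ n).ae_differentiableAt
  let G : Set ℝ := {t | ∀ n, DifferentiableAt ℝ (φ n) t}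
  have hGm : MeasurableSet G := by
    have : G = ⋂ n, {t | DifferentiableAt ℝ (φ n) t} := by
      ext t; simp [G]
    rw [this]
    exact MeasurableSet.iInter fun n => measurableSet_of_differentiableAt ℝ (φ n)
  have hex : ∀ t ∈ G, ∃ x : Z →L[ℝ] ℝ, ‖x‖ ≤ K ∧ ∀ n, x (z n) = deriv (φ n) t :=
    fun t ht => exists_weakStar_deriv z hγ ht
  choose! F0 hF0n hF0 using hex
  let F : ℝ → (Z →L[ℝ] ℝ) := G.indicator F0
  have hFK : ∀ t, ‖F t‖ ≤ K := by
    intro t
    by_cases ht : t ∈ G
    · simp only [F, Set.indicator_of_mem ht]; exact hF0n t ht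
    · simp only [F, Set.indicator_of_notMem ht]; simp
  have hFz : ∀ n, (fun t => F t (z n)) = G.indicator (deriv (φ n)) := by
    intro n
    funext t
    by_cases ht : t ∈ G
    · simp only [F, Set.indicator_of_mem ht]; exact hF0 t ht n
    · simp only [F, Set.indicator_of_notMem ht]; simp
  have : SecondCountableTopology (Z →L[ℝ] ℝ) := UniformSpace.secondCountable_of_separable _
  have hFm : Measurable F := by
    apply measurable_of_preimage_closedBall
    intro x r
    have h1 : F ⁻¹' closedBall x r = ⋂ n, {t | |F t (z n) - x (z n)| ≤ r} := by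
      ext t
      simp only [Set.mem_preimage, mem_closedBall, dist_eq_norm, Set.mem_iInter,
        Set.mem_ofPred_eq]
      constructor
      · intro h n
        have h2 : F t (z n) - x (z n) = (F t - x) (z n) := by simp
        rw [h2, ← Real.norm_eq_abs]
        calc ‖(F t - x) (z n)‖ ≤ ‖F t - x‖ * ‖z n‖ := (F t - x).le_opNorm _
          _ ≤ ‖F t - x‖ * 1 := by gcongr; exact hz1 n
          _ ≤ r := by rw [mul_one]; exact h
      · intro h
        apply hz2
        intro n
        simpa using h n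
    rw [h1]
    refine MeasurableSet.iInter fun n => ?_
    have h3 : Measurable (fun t => F t (z n)) := by
      rw [hFz n]
      exact (measurable_deriv (φ n)).indicator hGm
    exact measurableSet_le ((h3.sub_const _).abs) measurable_const
  have hFs : StronglyMeasurable F := hFm.stronglyMeasurable
  have hFint : LocallyIntegrable F volume := by
    refine (locallyIntegrable_const (K : ℝ)).mono hFs.aestronglyMeasurable ?_
    refine Eventually.of_forall fun t => ?_
    simpa using hFK t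
  have hFii : ∀ a b, IntervalIntegrable F volume a b := fun a b =>
    intervalIntegrable_iff.mpr <|
      (hFint.integrableOn_isCompact isCompact_uIcc).mono_set uIoc_subset_uIcc
  have hkey : ∀ t, ∫ s in (0 : ℝ)..t, F s = γ t - γ 0 := by
    intro t
    have h0 : ‖(∫ s in (0 : ℝ)..t, F s) - (γ t - γ 0)‖ ≤ 0 := by
      apply hz2
      intro n
      have h1 : (∫ s in (0 : ℝ)..t, F s) (z n) = ∫ s in (0 : ℝ)..t, F s (z n) := by
        have := (ContinuousLinearMap.apply ℝ ℝ (z n)).intervalIntegral_comp_comm (hFii 0 t)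
        simpa using this.symm
      have h2 : ∫ s in (0 : ℝ)..t, F s (z n) = ∫ s in (0 : ℝ)..t, deriv (φ n) s := by
        apply intervalIntegral.integral_congr_ae
        filter_upwards [hφd] with s hs _
        have h7 : F s (z n) = G.indicator (deriv (φ n)) s := congrFun (hFz n) s
        rw [h7, Set.indicator_of_mem (show s ∈ G from hs)]
      have h3 : ∫ s in (0 : ℝ)..t, deriv (φ n) s = φ n t - φ n 0 :=
        ((hφ n).lipschitzOnWith (s := uIcc 0 t)).absolutelyContinuousOnInterval.integral_deriv_eq_sub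
      have h4 : ((∫ s in (0 : ℝ)..t, F s) - (γ t - γ 0)) (z n) = 0 := by
        simp only [sub_apply, h1, h2, h3, φ]
        ring
      rw [h4]; simp
    exact sub_eq_zero.1 (norm_le_zero_iff.1 h0)
  filter_upwards [_root_.LocallyIntegrable.ae_hasDerivAt_integral hFint] with t ht
  have h5 := ht 0
  simp only [hkey] at h5
  have h6 := (h5.add_const (γ 0)).differentiableAt
  simpa using h6

/-- Version for spaces isomorphic to a dual space. -/
theorem ae_differentiableAt_of_equiv_dual {X Z : Type*} [NormedAddCommGroup X] [NormedSpace ℝ X]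
    [NormedAddCommGroup Z] [NormedSpace ℝ Z] [SeparableSpace X] (e : X ≃L[ℝ] (Z →L[ℝ] ℝ))
    {γ : ℝ → X} {K : ℝ≥0} (hγ : LipschitzWith K γ) : ∀ᵐ t, DifferentiableAt ℝ γ t := by
  have : SeparableSpace (Z →L[ℝ] ℝ) :=
    e.surjective.denseRange.separableSpace e.continuous
  have h1 : LipschitzWith (‖(e : X →L[ℝ] (Z →L[ℝ] ℝ))‖₊ * K) (fun t => e (γ t)) :=
    (e : X →L[ℝ] (Z →L[ℝ] ℝ)).lipschitz.comp hγ
  filter_upwards [ae_differentiableAt_of_separable_dual h1] with t ht
  have h2 : γ = fun s => e.symm (e (γ s)) := by funext s; simp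
  rw [h2]
  exact e.symm.differentiableAt.comp t ht

end Pool.Agent.H23
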