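import Mathlib
import Pool.Agent.H23.RNCurve

/-!
# Points of Gateaux differentiability of Lipschitz maps on separable Banach spaces
-/

open MeasureTheory Set Filter Topology Metric TopologicalSpace
open scoped NNReal ENNReal

namespace Pool.Agent.H23

section Resample

variable {lam : Measure ℝ} [IsProbabilityMeasure lam]

theorem infinitePi_resample (i : ℕ) :
    ((Measure.infinitePi (fun _ : ℕ => lam)).prod lam).map
      (fun p : (ℕ → ℝ) × ℝ => Function.update p.1 i p.2) = Measure.infinitePi (fun _ : ℕ => lam) := by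
  have hmeas : Measurable (fun p : (ℕ → ℝ) × ℝ => Function.update p.1 i p.2) :=
    measurable_update'
  apply Measure.eq_infinitePi
  intro s t ht
  rw [Measure.map_apply hmeas (MeasurableSet.pi s.countable_toSet fun i _ => ht i)]
  by_cases his : i ∈ s
  · have h1 : (fun p : (ℕ → ℝ) × ℝ => Function.update p.1 i p.2) ⁻¹' (Set.pi s t)
        = (Set.pi (s.erase i : Finset ℕ) t) ×ˢ (t i) := by
      ext p
      simp only [Set.mem_preimage, Set.mem_pi, Set.mem_prod, Finset.mem_coe, Finset.mem_erase]
      constructor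
      · intro h
        refine ⟨fun j hj => ?_, ?_⟩
        · have := h j hj.2
          rwa [Function.update_of_ne hj.1] at this
        · have := h i his
          rwa [Function.update_self] at this
      · rintro ⟨h2, h3⟩ j hj
        by_cases hji : j = i
        · subst hji; rwa [Function.update_self]
        · rw [Function.update_of_ne hji]; exact h2 j ⟨hji, hj⟩
    rw [h1, Measure.prod_prod, Measure.infinitePi_pi _ (fun j _ => ht j), mul_comm,
      Finset.mul_prod_erase s (fun j => lam (t j)) his]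
  · have h1 : (fun p : (ℕ → ℝ) × ℝ => Function.update p.1 i p.2) ⁻¹' (Set.pi s t)
        = (Set.pi s t) ×ˢ (Set.univ : Set ℝ) := by
      ext p
      simp only [Set.mem_preimage, Set.mem_pi, Set.mem_prod, Finset.mem_coe, Set.mem_univ,
        and_true]
      refine forall₂_congr fun j hj => ?_
      rw [Function.update_of_ne (show j ≠ i from fun h => his (h ▸ hj))]
    rw [h1, Measure.prod_prod, Measure.infinitePi_pi _ (fun j _ => ht j)]
    simp

theorem lintegral_resample (i : ℕ) {f : (ℕ → ℝ) → ℝ≥0∞} (hf : Measurable f) :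
    ∫⁻ ω, f ω ∂(Measure.infinitePi (fun _ : ℕ => lam))
      = ∫⁻ ω, ∫⁻ τ, f (Function.update ω i τ) ∂lam ∂(Measure.infinitePi (fun _ : ℕ => lam)) := by
  have hmeas : Measurable (fun p : (ℕ → ℝ) × ℝ => Function.update p.1 i p.2) :=
    measurable_update'
  conv_lhs => rw [← infinitePi_resample (lam := lam) i]
  rw [lintegral_map hf hmeas]
  exact lintegral_prod (fun p : (ℕ → ℝ) × ℝ => f (Function.update p.1 i p.2))
    (hf.comp hmeas).aemeasurable

theorem measure_zero_of_resample (i : ℕ) {N : Set (ℕ → ℝ)} (hN : MeasurableSet N)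
    (h : ∀ ω : ℕ → ℝ, lam ((fun τ => Function.update ω i τ) ⁻¹' N) = 0) :
    Measure.infinitePi (fun _ : ℕ => lam) N = 0 := by
  rw [← lintegral_indicator_one hN, lintegral_resample i (measurable_one.indicator hN)]
  have h1 : ∀ ω : ℕ → ℝ, ∫⁻ τ, N.indicator 1 (Function.update ω i τ) ∂lam = 0 := by
    intro ω
    have h2 : (fun τ => N.indicator (1 : (ℕ → ℝ) → ℝ≥0∞) (Function.update ω i τ))
        = ((fun τ => Function.update ω i τ) ⁻¹' N).indicator 1 := by
      funext τ
      classical
      rw [Set.indicator_apply, Set.indicator_apply]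
      rfl
    rw [h2, lintegral_indicator_one ((measurable_update ω) hN)]
    exact h ω
  simp [h1]

theorem measure_zero_of_resample₂ {i j : ℕ} {N : Set (ℕ → ℝ)}
    (hN : MeasurableSet N)
    (h : ∀ ω : ℕ → ℝ,
      (lam.prod lam)
        ((fun p : ℝ × ℝ => Function.update (Function.update ω i p.1) j p.2) ⁻¹' N) = 0) :
    Measure.infinitePi (fun _ : ℕ => lam) N = 0 := by
  rw [← lintegral_indicator_one hN, lintegral_resample j (measurable_one.indicator hN)]
  have hmeas : Measurable (fun p : (ℕ → ℝ) × ℝ => Function.update p.1 j p.2) :=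
    measurable_update'
  have hm2 : Measurable (fun ω : ℕ → ℝ => ∫⁻ τ, N.indicator 1 (Function.update ω j τ) ∂lam) :=
    Measurable.lintegral_prod_right'
      (f := fun p : (ℕ → ℝ) × ℝ => N.indicator (1 : (ℕ → ℝ) → ℝ≥0∞) (Function.update p.1 j p.2))
      ((measurable_one.indicator hN).comp hmeas)
  rw [lintegral_resample i hm2]
  have h1 : ∀ ω : ℕ → ℝ, ∫⁻ σ, ∫⁻ τ, N.indicator 1
      (Function.update (Function.update ω i σ) j τ) ∂lam ∂lam = 0 := by
    intro ω
    have hm3 : Measurable (fun p : ℝ × ℝ => Function.update (Function.update ω i p.1) j p.2) :=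
      hmeas.comp (((measurable_update ω).comp measurable_fst).prodMk measurable_snd)
    have h3 := lintegral_prod (μ := lam) (ν := lam)
      (fun p : ℝ × ℝ => N.indicator (1 : (ℕ → ℝ) → ℝ≥0∞)
        (Function.update (Function.update ω i p.1) j p.2))
      ((measurable_one.indicator hN).comp hm3).aemeasurable
    rw [← h3]
    have h2 : (fun p : ℝ × ℝ => N.indicator (1 : (ℕ → ℝ) → ℝ≥0∞)
          (Function.update (Function.update ω i p.1) j p.2))
        = ((fun p : ℝ × ℝ =>
            Function.update (Function.update ω i p.1) j p.2) ⁻¹' N).indicator 1 := by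
      funext p
      classical
      rw [Set.indicator_apply, Set.indicator_apply]
      rfl
    rw [h2, lintegral_indicator_one (hm3 hN)]
    exact h ω
  simp [h1]

end Resample

/-- A countable family of functionals separating the points of a separable space. -/
theorem exists_separating_seq (X : Type*) [NormedAddCommGroup X] [NormedSpace ℝ X]
    [SeparableSpace X] :
    ∃ ψ : ℕ → (X →L[ℝ] ℝ), ∀ x : X, (∀ n, ψ n x = 0) → x = 0 := by
  obtain ⟨d, hd⟩ := TopologicalSpace.exists_dense_seq X
  choose ψ hψ1 hψ2 using fun n => exists_dual_vector'' ℝ (d n)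
  refine ⟨ψ, fun x hx => ?_⟩
  rw [← norm_le_zero_iff]
  apply le_of_forall_pos_le_add
  intro ε hε
  obtain ⟨m, hm⟩ := hd.exists_dist_lt x (half_pos hε)
  rw [dist_eq_norm] at hm
  have h1 : ‖d m‖ ≤ ‖x - d m‖ := by
    have h2 : ψ m (d m) = ‖d m‖ := by simpa using hψ2 m
    have h3 : ψ m (d m) = - ψ m (x - d m) := by rw [map_sub, hx m]; ring
    calc ‖d m‖ = ψ m (d m) := h2.symm
      _ ≤ |ψ m (d m)| := le_abs_self _
      _ = ‖ψ m (x - d m)‖ := by rw [h3, abs_neg, Real.norm_eq_abs]
      _ ≤ ‖ψ m‖ * ‖x - d m‖ := (ψ m).le_opNorm _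
      _ ≤ 1 * ‖x - d m‖ := by gcongr; exact hψ1 m
      _ = ‖x - d m‖ := one_mul _
  have h4 : ‖x‖ ≤ ‖x - d m‖ + ‖d m‖ := by
    have := norm_add_le (x - d m) (d m)
    simpa using this
  linarith

section Main

variable {Y X : Type*} [NormedAddCommGroup Y] [NormedSpace ℝ Y]
  [NormedAddCommGroup X] [NormedSpace ℝ X]

/-- If the line derivatives exist in a dense set of directions, they exist in all directions. -/
theorem lineDifferentiableAt_of_dense [CompleteSpace X] {g : Y → X} {K : ℝ≥0}
    (hg : LipschitzWith K g) {y : Y} {w : ℕ → Y} (hw : DenseRange w)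
    (h : ∀ i, LineDifferentiableAt ℝ g y (w i)) (v : Y) : LineDifferentiableAt ℝ g y v := by
  have hq : ∀ (v v' : Y) (t : ℝ), ‖t⁻¹ • (g (y + t • v) - g y) - t⁻¹ • (g (y + t • v') - g y)‖
      ≤ K * ‖v - v'‖ := by
    intro v v' t
    by_cases ht : t = 0
    · subst ht; simp; positivity
    · have h1 : t⁻¹ • (g (y + t • v) - g y) - t⁻¹ • (g (y + t • v') - g y)
          = t⁻¹ • (g (y + t • v) - g (y + t • v')) := by
        rw [← smul_sub]; congr 1; abel
      have h2 := hg.dist_le_mul (y + t • v) (y + t • v')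
      rw [dist_eq_norm, dist_eq_norm] at h2
      have h3 : y + t • v - (y + t • v') = t • (v - v') := by rw [smul_sub]; abel
      rw [h3, norm_smul] at h2
      rw [h1, norm_smul, norm_inv]
      have h4 : 0 < ‖t‖ := norm_pos_iff.2 ht
      calc ‖t‖⁻¹ * ‖g (y + t • v) - g (y + t • v')‖ ≤ ‖t‖⁻¹ * (K * (‖t‖ * ‖v - v'‖)) := by gcongr
        _ = K * ‖v - v'‖ := by field_simp
  have hex : ∃ x, Tendsto (fun t : ℝ => t⁻¹ • (g (y + t • v) - g y)) (𝓝[≠] 0) (𝓝 x) := by
    rw [← cauchy_map_iff_exists_tendsto, Metric.cauchy_iff]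
    refine ⟨inferInstance, fun ε hε => ?_⟩
    have hδ : (0 : ℝ) < ε / (4 * ((K : ℝ) + 1)) := by positivity
    obtain ⟨i, hi⟩ := hw.exists_dist_lt v hδ
    have h5 : Tendsto (fun t : ℝ => t⁻¹ • (g (y + t • w i) - g y)) (𝓝[≠] 0)
        (𝓝 (lineDeriv ℝ g y (w i))) := by
      have h6 := (h i).hasLineDerivAt
      unfold HasLineDerivAt at h6
      rw [hasDerivAt_iff_tendsto_slope_zero] at h6
      simpa using h6
    refine ⟨ball (lineDeriv ℝ g y (w i)) (ε / 2), ?_, ?_⟩
    · rw [Filter.mem_map]
      filter_upwards [Metric.tendsto_nhds.1 h5 (ε / 4) (by positivity)] with t ht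
      simp only [Set.mem_preimage, mem_ball]
      have h7 : dist (t⁻¹ • (g (y + t • v) - g y)) (t⁻¹ • (g (y + t • w i) - g y)) ≤ ε / 4 := by
        rw [dist_eq_norm]
        refine (hq v (w i) t).trans ?_
        rw [dist_eq_norm] at hi
        calc (K : ℝ) * ‖v - w i‖ ≤ ((K : ℝ) + 1) * (ε / (4 * ((K : ℝ) + 1))) := by
              gcongr
              linarith
          _ = ε / 4 := by field_simp
      calc dist (t⁻¹ • (g (y + t • v) - g y)) (lineDeriv ℝ g y (w i))
          ≤ dist (t⁻¹ • (g (y + t • v) - g y)) (t⁻¹ • (g (y + t • w i) - g y))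
            + dist (t⁻¹ • (g (y + t • w i) - g y)) (lineDeriv ℝ g y (w i)) :=
              dist_triangle _ _ _
        _ < ε / 2 := by linarith
    · intro a ha b hb
      rw [mem_ball] at ha hb
      calc dist a b ≤ dist a (lineDeriv ℝ g y (w i)) + dist (lineDeriv ℝ g y (w i)) b :=
            dist_triangle _ _ _
        _ < ε := by rw [dist_comm _ b]; linarith
  obtain ⟨x, hx⟩ := hex
  have h1 : HasLineDerivAt ℝ g x y v := by
    unfold HasLineDerivAt
    rw [hasDerivAt_iff_tendsto_slope_zero]
    simpa using hx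
  exact h1.lineDifferentiableAt

/-- **Existence of points of Gateaux differentiability** for Lipschitz maps from a separable
Banach space into a separable Banach space in which Lipschitz curves are differentiable almost
everywhere. -/
theorem exists_gateaux_point [CompleteSpace Y] [SeparableSpace Y] [CompleteSpace X]
    [SeparableSpace X]
    (hX : ∀ (γ : ℝ → X) (K : ℝ≥0), LipschitzWith K γ → ∀ᵐ t : ℝ, DifferentiableAt ℝ γ t)
    {g : Y → X} {K : ℝ≥0} (hg : LipschitzWith K g) {O : Set Y} (hO : IsOpen O)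
    (hne : O.Nonempty) :
    ∃ y ∈ O, ∃ A : Y →L[ℝ] X, (∀ v, ‖A v‖ ≤ K * ‖v‖) ∧ ∀ v, HasLineDerivAt ℝ g (A v) y v := by
  classical
  borelize Y
  obtain ⟨u, hu⟩ := hne
  obtain ⟨r, hr, hball⟩ := Metric.isOpen_iff.1 hO u hu
  obtain ⟨w, hw⟩ := TopologicalSpace.exists_dense_seq Y
  obtain ⟨ψ, hψ⟩ := exists_separating_seq X
  -- scaled directions
  let c : ℕ → ℝ := fun i => (r / 2) / 2 / 2 ^ i / (1 + ‖w i‖)
  have hc : ∀ i, 0 < c i := fun i => by positivity
  let V : ℕ → Y := fun i => c i • w i
  have hV : ∀ i, ‖V i‖ ≤ (r / 2) / 2 / 2 ^ i := by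
    intro i
    simp only [V, norm_smul, Real.norm_eq_abs, abs_of_pos (hc i)]
    simp only [c]
    rw [div_mul_eq_mul_div, div_le_iff₀ (by positivity)]
    have : 0 < r / 2 / 2 / 2 ^ i := by positivity
    nlinarith [norm_nonneg (w i)]
  have hwV : ∀ i, w i = (c i)⁻¹ • V i := by
    intro i
    simp only [V, smul_smul]
    rw [inv_mul_cancel₀ (hc i).ne', one_smul]
  have hgeo : HasSum (fun i : ℕ => (r / 2) / 2 / 2 ^ i) (r / 2) := hasSum_geometric_two' _
  -- clamping
  let cl : ℝ → ℝ := fun τ => max 0 (min 1 τ)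
  have hcl0 : ∀ τ, 0 ≤ cl τ := fun τ => le_max_left _ _
  have hcl1 : ∀ τ, cl τ ≤ 1 := fun τ => max_le zero_le_one (min_le_left _ _)
  have hclI : ∀ τ ∈ Icc (0 : ℝ) 1, cl τ = τ := by
    rintro τ ⟨h0, h1⟩
    simp only [cl, min_eq_right h1, max_eq_right h0]
  have hclc : Continuous cl := by fun_prop
  have hterm : ∀ (i : ℕ) (τ : ℝ), ‖cl τ • V i‖ ≤ (r / 2) / 2 / 2 ^ i := by
    intro i τ
    rw [norm_smul, Real.norm_eq_abs, abs_of_nonneg (hcl0 τ)]
    calc cl τ * ‖V i‖ ≤ 1 * ((r / 2) / 2 / 2 ^ i) := by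
          gcongr
          · exact hcl1 τ
          · exact hV i
      _ = (r / 2) / 2 / 2 ^ i := one_mul _
  have hsumm : ∀ ω : ℕ → ℝ, Summable (fun i => cl (ω i) • V i) := fun ω =>
    Summable.of_norm_bounded hgeo.summable fun i => hterm i _
  let Φ : (ℕ → ℝ) → Y := fun ω => u + ∑' i, cl (ω i) • V i
  have hΦO : ∀ ω, Φ ω ∈ O := by
    intro ω
    apply hball
    rw [mem_ball, dist_eq_norm]
    have h1 : ‖∑' i, cl (ω i) • V i‖ ≤ r / 2 :=
      tsum_of_norm_bounded hgeo fun i => hterm i _
    have h2 : Φ ω - u = ∑' i, cl (ω i) • V i := by simp [Φ]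
    rw [h2]
    linarith
  have hΦm : Measurable Φ := by
    apply Continuous.measurable
    refine continuous_const.add ?_
    exact continuous_tsum (fun i => (hclc.comp (continuous_apply i)).smul continuous_const)
      hgeo.summable fun i ω => hterm i _
  have hΦu : ∀ (ω : ℕ → ℝ) (i : ℕ) (τ : ℝ),
      Φ (Function.update ω i τ) = (Φ ω - cl (ω i) • V i) + cl τ • V i := by
    intro ω i τ
    have h1 := (hsumm ω).hasSum.update i (cl τ • V i)
    have h2 : (fun k => cl (Function.update ω i τ k) • V k)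
        = Function.update (fun k => cl (ω k) • V k) i (cl τ • V i) := by
      funext k
      exact Function.apply_update (fun k x => cl x • V k) ω i τ k
    have h3 : ∑' k, cl (Function.update ω i τ k) • V k
        = cl τ • V i - cl (ω i) • V i + ∑' k, cl (ω k) • V k := by
      rw [h2]
      exact h1.tsum_eq
    simp only [Φ]
    rw [h3]
    abel
  -- the probability measure
  let lam : Measure ℝ := volume.restrict (Icc 0 1)
  have hlam : IsProbabilityMeasure lam := ⟨by simp [lam]⟩
  let μ : Measure (ℕ → ℝ) := Measure.infinitePi (fun _ : ℕ => lam)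
  -- directional differentiability
  have hA1 : ∀ i, ∀ᵐ ω ∂μ, LineDifferentiableAt ℝ g (Φ ω) (w i) := by
    intro i
    have hNm : MeasurableSet (Φ ⁻¹' {y | LineDifferentiableAt ℝ g y (w i)})ᶜ :=
      (hΦm (measurableSet_lineDifferentiableAt hg.continuous)).compl
    have h1 : μ (Φ ⁻¹' {y | LineDifferentiableAt ℝ g y (w i)})ᶜ = 0 := by
      apply measure_zero_of_resample i hNm
      intro ω
      let s : Y := Φ ω - cl (ω i) • V i
      have hγ : LipschitzWith (K * (0 + ‖(ContinuousLinearMap.toSpanSingleton ℝ (V i))‖₊))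
          (fun τ : ℝ => g (s + τ • V i)) := by
        have h2 := hg.comp ((LipschitzWith.const s).add
          (ContinuousLinearMap.toSpanSingleton ℝ (V i)).lipschitz)
        exact h2
      have h3 : ∀ᵐ τ ∂lam, τ ∉ ((fun τ => Function.update ω i τ) ⁻¹'
          (Φ ⁻¹' {y | LineDifferentiableAt ℝ g y (w i)})ᶜ) := by
        filter_upwards [ae_restrict_of_ae (hX _ _ hγ), ae_restrict_mem measurableSet_Icc]
          with τ hτ hτI
        simp only [Set.mem_preimage, Set.mem_compl_iff, not_not]
        show LineDifferentiableAt ℝ g (Φ (Function.update ω i τ)) (w i)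
        rw [hΦu, hclI τ hτI, hwV i]
        apply LineDifferentiableAt.smul
        show DifferentiableAt ℝ (fun t => g (s + τ • V i + t • V i)) 0
        have h4 : DifferentiableAt ℝ (fun τ : ℝ => g (s + τ • V i)) (τ + 0) := by simpa using hτ
        have h5 : DifferentiableAt ℝ (fun t : ℝ => τ + t) 0 := differentiableAt_id.const_add _
        have h6 := h4.comp 0 h5
        have h7 : (fun t : ℝ => g (s + τ • V i + t • V i))
            = (fun τ : ℝ => g (s + τ • V i)) ∘ (fun t : ℝ => τ + t) := by
          funext t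
          simp only [Function.comp_apply, add_smul, add_assoc]
        rw [h7]
        exact h6
      exact measure_eq_zero_iff_ae_notMem.2 h3
    exact measure_eq_zero_iff_ae_notMem.1 h1 |>.mono fun ω hω => by
      simpa using hω
  -- additivity of the scalar derivatives
  have hadd : ∀ (n i j : ℕ), i ≠ j → ∀ᵐ ω ∂μ,
      lineDeriv ℝ (fun y => ψ n (g y)) (Φ ω) (w i + w j)
        = lineDeriv ℝ (fun y => ψ n (g y)) (Φ ω) (w i)
          + lineDeriv ℝ (fun y => ψ n (g y)) (Φ ω) (w j) := by
    intro n i j hij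
    have hcont : Continuous (fun y => ψ n (g y)) := (ψ n).continuous.comp hg.continuous
    let S : Set Y := {y | lineDeriv ℝ (fun y => ψ n (g y)) y (w i + w j)
        = lineDeriv ℝ (fun y => ψ n (g y)) y (w i) + lineDeriv ℝ (fun y => ψ n (g y)) y (w j)}
    have hSm : MeasurableSet S :=
      measurableSet_eq_fun (measurable_lineDeriv hcont)
        ((measurable_lineDeriv hcont).add (measurable_lineDeriv hcont))
    have hNm : MeasurableSet (Φ ⁻¹' S)ᶜ := (hΦm hSm).compl
    have h1 : μ (Φ ⁻¹' S)ᶜ = 0 := by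
      apply measure_zero_of_resample₂ (i := i) (j := j) hNm
      intro ω
      let s : Y := Φ ω - cl (ω i) • V i - cl (ω j) • V j
      let L : ℝ × ℝ →L[ℝ] Y := (ContinuousLinearMap.fst ℝ ℝ ℝ).smulRight (V i)
        + (ContinuousLinearMap.snd ℝ ℝ ℝ).smulRight (V j)
      have hL : ∀ p : ℝ × ℝ, L p = p.1 • V i + p.2 • V j := fun p => by simp [L]
      let H : ℝ × ℝ → ℝ := fun p => ψ n (g (s + L p))
      have hH : LipschitzWith (‖ψ n‖₊ * (K * (0 + ‖L‖₊))) H :=
        (ψ n).lipschitz.comp (hg.comp ((LipschitzWith.const s).add L.lipschitz))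
      have hHd : ∀ᵐ p ∂(volume : Measure (ℝ × ℝ)), DifferentiableAt ℝ H p := hH.ae_differentiableAt
      have hprod : lam.prod lam = (volume : Measure (ℝ × ℝ)).restrict (Icc 0 1 ×ˢ Icc 0 1) := by
        rw [Measure.volume_eq_prod]
        exact Measure.prod_restrict _ _
      have h3 : ∀ᵐ p ∂(lam.prod lam), p ∉ ((fun p : ℝ × ℝ =>
          Function.update (Function.update ω i p.1) j p.2) ⁻¹' (Φ ⁻¹' S)ᶜ) := by
        rw [hprod]
        filter_upwards [ae_restrict_of_ae hHd,
          ae_restrict_mem (measurableSet_Icc.prod measurableSet_Icc)] with p hp hpI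
        simp only [Set.mem_preimage, Set.mem_compl_iff, not_not]
        show lineDeriv ℝ (fun y => ψ n (g y))
            (Φ (Function.update (Function.update ω i p.1) j p.2)) (w i + w j)
          = lineDeriv ℝ (fun y => ψ n (g y))
              (Φ (Function.update (Function.update ω i p.1) j p.2)) (w i)
            + lineDeriv ℝ (fun y => ψ n (g y))
              (Φ (Function.update (Function.update ω i p.1) j p.2)) (w j)
        have hy : Φ (Function.update (Function.update ω i p.1) j p.2) = s + L p := by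
          rw [hΦu, hΦu, Function.update_of_ne hij.symm, hclI p.1 hpI.1, hclI p.2 hpI.2, hL]
          simp only [s]
          abel
        rw [hy]
        have hdir : ∀ q : ℝ × ℝ, HasLineDerivAt ℝ (fun y => ψ n (g y)) (fderiv ℝ H p q)
            (s + L p) (L q) := by
          intro q
          have h4 := hp.hasFDerivAt.hasLineDerivAt q
          unfold HasLineDerivAt at h4 ⊢
          have h5 : (fun t : ℝ => H (p + t • q)) = fun t : ℝ => ψ n (g (s + L p + t • L q)) := by
            funext t
            simp only [H, map_add, map_smul, add_assoc]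
          rw [h5] at h4
          exact h4
        have hwi : w i = L ((c i)⁻¹, 0) := by rw [hL, hwV i]; simp
        have hwj : w j = L (0, (c j)⁻¹) := by rw [hL, hwV j]; simp
        have hwij : w i + w j = L ((c i)⁻¹, (c j)⁻¹) := by
          rw [hwi, hwj, ← map_add]; simp
        rw [hwij, (hdir _).lineDeriv]
        rw [hwi, hwj, (hdir _).lineDeriv, (hdir _).lineDeriv, ← map_add]
        simp
      exact measure_eq_zero_iff_ae_notMem.2 h3
    exact measure_eq_zero_iff_ae_notMem.1 h1 |>.mono fun ω hω => by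
      have h9 : Φ ω ∈ S := by simpa using hω
      exact h9
  -- choose the point
  have hall : ∀ᵐ ω ∂μ, (∀ i, LineDifferentiableAt ℝ g (Φ ω) (w i)) ∧
      ∀ n i j, i ≠ j → lineDeriv ℝ (fun y => ψ n (g y)) (Φ ω) (w i + w j)
        = lineDeriv ℝ (fun y => ψ n (g y)) (Φ ω) (w i)
          + lineDeriv ℝ (fun y => ψ n (g y)) (Φ ω) (w j) := by
    refine (ae_all_iff.2 hA1).and ?_
    refine ae_all_iff.2 fun n => ae_all_iff.2 fun i => ae_all_iff.2 fun j => ?_
    by_cases hij : i = j
    · exact Eventually.of_forall fun ω h => absurd hij h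
    · exact (hadd n i j hij).mono fun ω hω _ => hω
  have : IsProbabilityMeasure μ := inferInstance
  obtain ⟨ω, hω1, hω2⟩ := hall.exists
  set y : Y := Φ ω with hy
  have hline : ∀ v, LineDifferentiableAt ℝ g y v := lineDifferentiableAt_of_dense hg hw hω1
  have hbd : ∀ v, ‖lineDeriv ℝ g y v‖ ≤ K * ‖v‖ := fun v => norm_lineDeriv_le_of_lipschitz ℝ hg
  have hscal : ∀ n v, lineDeriv ℝ (fun y => ψ n (g y)) y v = ψ n (lineDeriv ℝ g y v) := by
    intro n v
    have h1 := (hline v).hasLineDerivAt
    apply HasLineDerivAt.lineDeriv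
    unfold HasLineDerivAt at h1 ⊢
    exact (ψ n).hasFDerivAt.comp_hasDerivAt 0 h1
  have hlip : ∀ v v', ‖lineDeriv ℝ g y v - lineDeriv ℝ g y v'‖ ≤ K * ‖v - v'‖ := by
    intro v v'
    have h1 := (hline v).hasLineDerivAt
    have h2 := (hline v').hasLineDerivAt
    rw [hasLineDerivAt_iff_tendsto_slope_zero] at h1 h2
    refine le_of_tendsto (h1.sub h2).norm (Eventually.of_forall fun t => ?_)
    rw [← smul_sub]
    by_cases ht : t = 0
    · subst ht; simp; positivity
    · have h3 := hg.dist_le_mul (y + t • v) (y + t • v')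
      rw [dist_eq_norm, dist_eq_norm] at h3
      have h4 : y + t • v - (y + t • v') = t • (v - v') := by rw [smul_sub]; abel
      rw [h4, norm_smul] at h3
      have h5 : g (y + t • v) - g y - (g (y + t • v') - g y) = g (y + t • v) - g (y + t • v') := by
        abel
      rw [h5, norm_smul, norm_inv]
      have h6 : 0 < ‖t‖ := norm_pos_iff.2 ht
      calc ‖t‖⁻¹ * ‖g (y + t • v) - g (y + t • v')‖ ≤ ‖t‖⁻¹ * (K * (‖t‖ * ‖v - v'‖)) := by gcongr
        _ = K * ‖v - v'‖ := by field_simp
  have hcontd : Continuous (fun v => lineDeriv ℝ g y v) := by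
    have : LipschitzWith K (fun v => lineDeriv ℝ g y v) :=
      LipschitzWith.of_dist_le_mul fun v v' => by
        rw [dist_eq_norm, dist_eq_norm]; exact hlip v v'
    exact this.continuous
  have hadd2 : ∀ v v', lineDeriv ℝ g y (v + v') = lineDeriv ℝ g y v + lineDeriv ℝ g y v' := by
    have hclosed : IsClosed {p : Y × Y | lineDeriv ℝ g y (p.1 + p.2)
        = lineDeriv ℝ g y p.1 + lineDeriv ℝ g y p.2} :=
      isClosed_eq (hcontd.comp (continuous_fst.add continuous_snd))
        ((hcontd.comp continuous_fst).add (hcontd.comp continuous_snd))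
    intro v v'
    refine hw.induction_on₂ (p := fun a b => lineDeriv ℝ g y (a + b)
        = lineDeriv ℝ g y a + lineDeriv ℝ g y b) hclosed ?_ v v'
    intro i j
    by_cases hij : i = j
    · subst hij
      rw [← two_smul ℝ (w i), lineDeriv_smul, two_smul]
    · have h1 : ∀ n, ψ n (lineDeriv ℝ g y (w i + w j)
          - (lineDeriv ℝ g y (w i) + lineDeriv ℝ g y (w j))) = 0 := by
        intro n
        have h2 := hω2 n i j hij
        rw [hscal, hscal, hscal] at h2
        rw [map_sub, map_add, h2, sub_self]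
      exact sub_eq_zero.1 (hψ _ h1)
  let A0 : Y →ₗ[ℝ] X :=
    { toFun := fun v => lineDeriv ℝ g y v
      map_add' := hadd2
      map_smul' := fun a v => lineDeriv_smul }
  refine ⟨y, hΦO ω, A0.mkContinuous K hbd, fun v => hbd v, fun v => (hline v).hasLineDerivAt⟩

end Main

end Pool.Agent.H23
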