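import Mathlib
import Pool.Agent.H23.UltraLim

/-!
# Linear local complementation from a bi-Lipschitz map with a Gateaux derivative
-/

open Set Filter Topology Metric
open scoped NNReal

namespace Pool.Agent.H23

section Linearize

variable {U V : Type*} [NormedAddCommGroup U] [NormedSpace ℝ U]
  [NormedAddCommGroup V] [NormedSpace ℝ V]

/-- First averaging: over the directions `A u`. -/
noncomputable def hone (M₁ : (U → ℝ) → ℝ) (A : U →L[ℝ] V) (h : V → ℝ) : V → ℝ :=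
  fun v => M₁ (fun u => h (v + A u) - h (A u))

/-- Second averaging: over all of `V`. -/
noncomputable def lin (M₁ : (U → ℝ) → ℝ) (M₂ : (V → ℝ) → ℝ) (A : U →L[ℝ] V) (h : V → ℝ) :
    V → ℝ :=
  fun v => M₂ (fun w => hone M₁ A h (v + w) - hone M₁ A h w)

variable {M₁ : (U → ℝ) → ℝ} {M₂ : (V → ℝ) → ℝ} {A : U →L[ℝ] V}

theorem hone_bdd {h : V → ℝ} {C : ℝ} (hh : ∀ v v', |h v - h v'| ≤ C * ‖v - v'‖) (v : V) :
    ∀ u, |h (v + A u) - h (A u)| ≤ C * ‖v‖ := by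
  intro u
  have := hh (v + A u) (A u)
  simpa using this

theorem hone_lip (hM₁ : IsMean M₁) {h : V → ℝ} {C : ℝ}
    (hh : ∀ v v', |h v - h v'| ≤ C * ‖v - v'‖) (v v' : V) :
    |hone M₁ A h v - hone M₁ A h v'| ≤ C * ‖v - v'‖ := by
  unfold hone
  rw [← hM₁.sub _ _ ⟨_, hone_bdd hh v⟩ ⟨_, hone_bdd hh v'⟩]
  apply hM₁.bound
  intro u
  have h1 : h (v + A u) - h (A u) - (h (v' + A u) - h (A u)) = h (v + A u) - h (v' + A u) := by
    ring
  rw [h1]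
  have := hh (v + A u) (v' + A u)
  simpa using this

theorem hone_add (hM₁ : IsMean M₁) {h h' : V → ℝ} {C C' : ℝ}
    (hh : ∀ v v', |h v - h v'| ≤ C * ‖v - v'‖) (hh' : ∀ v v', |h' v - h' v'| ≤ C' * ‖v - v'‖)
    (v : V) : hone M₁ A (fun x => h x + h' x) v = hone M₁ A h v + hone M₁ A h' v := by
  unfold hone
  rw [← hM₁.add _ _ ⟨_, hone_bdd hh v⟩ ⟨_, hone_bdd hh' v⟩]
  congr 1
  funext u
  ring

theorem hone_smul (hM₁ : IsMean M₁) {h : V → ℝ} {C : ℝ} (c : ℝ)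
    (hh : ∀ v v', |h v - h v'| ≤ C * ‖v - v'‖)
    (v : V) : hone M₁ A (fun x => c * h x) v = c * hone M₁ A h v := by
  unfold hone
  rw [← hM₁.smul c _ ⟨_, hone_bdd hh v⟩]
  congr 1
  funext u
  ring

theorem hone_shift (hM₁ : IsMean M₁)
    (hinv : ∀ a : U, ∀ φ : U → ℝ, (∃ C, ∀ x, |φ x| ≤ C) → M₁ (fun x => φ (x + a)) = M₁ φ)
    {h : V → ℝ} {C : ℝ} (hh : ∀ v v', |h v - h v'| ≤ C * ‖v - v'‖) {φ : U →L[ℝ] ℝ}
    (hφ : ∀ u, h (A u) = φ u) (v : V) (u₀ : U) :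
    hone M₁ A h (v + A u₀) = hone M₁ A h v + φ u₀ := by
  unfold hone
  let ψ : U → ℝ := fun u => h (v + A u) - h (A u)
  have h1 : (fun u => h (v + A u₀ + A u) - h (A u)) = fun u => ψ (u + u₀) + φ u₀ := by
    funext u
    simp only [ψ, hφ, map_add]
    have : v + A u₀ + A u = v + (A u + A u₀) := by abel
    rw [this]
    ring
  rw [h1, hM₁.add (fun u => ψ (u + u₀)) (fun _ => φ u₀) ⟨_, fun u => hone_bdd hh v (u + u₀)⟩
    ⟨|φ u₀|, fun _ => le_rfl⟩, hM₁.const, hinv u₀ ψ ⟨_, hone_bdd hh v⟩]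

theorem lin_bdd (hM₁ : IsMean M₁) {h : V → ℝ} {C : ℝ}
    (hh : ∀ v v', |h v - h v'| ≤ C * ‖v - v'‖) (v : V) :
    ∀ w, |hone M₁ A h (v + w) - hone M₁ A h w| ≤ C * ‖v‖ := by
  intro w
  have := hone_lip (A := A) hM₁ hh (v + w) w
  simpa using this

theorem abs_lin_le (hM₁ : IsMean M₁) (hM₂ : IsMean M₂) {h : V → ℝ} {C : ℝ}
    (hh : ∀ v v', |h v - h v'| ≤ C * ‖v - v'‖) (v : V) :
    |lin M₁ M₂ A h v| ≤ C * ‖v‖ :=
  hM₂.bound _ _ (lin_bdd hM₁ hh v)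

theorem lin_map_add (hM₁ : IsMean M₁) (hM₂ : IsMean M₂)
    (hinv : ∀ a : V, ∀ φ : V → ℝ, (∃ C, ∀ x, |φ x| ≤ C) → M₂ (fun x => φ (x + a)) = M₂ φ)
    {h : V → ℝ} {C : ℝ}
    (hh : ∀ v v', |h v - h v'| ≤ C * ‖v - v'‖) (v v' : V) :
    lin M₁ M₂ A h (v + v') = lin M₁ M₂ A h v + lin M₁ M₂ A h v' := by
  unfold lin
  let θ : V → ℝ := fun w => hone M₁ A h (v + w) - hone M₁ A h w
  have h1 : (fun w => hone M₁ A h (v + v' + w) - hone M₁ A h w)
      = fun w => θ (w + v') + (hone M₁ A h (v' + w) - hone M₁ A h w) := by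
    funext w
    simp only [θ]
    have e1 : v + v' + w = v + (w + v') := by abel
    have e2 : v' + w = w + v' := by abel
    rw [e1, e2]
    ring
  rw [h1, hM₂.add (fun w => θ (w + v')) _ ⟨_, fun w => lin_bdd hM₁ hh v (w + v')⟩
    ⟨_, lin_bdd hM₁ hh v'⟩, hinv v' θ ⟨_, lin_bdd hM₁ hh v⟩]

theorem lin_add (hM₁ : IsMean M₁) (hM₂ : IsMean M₂) {h h' : V → ℝ} {C C' : ℝ}
    (hh : ∀ v v', |h v - h v'| ≤ C * ‖v - v'‖) (hh' : ∀ v v', |h' v - h' v'| ≤ C' * ‖v - v'‖)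
    (v : V) : lin M₁ M₂ A (fun x => h x + h' x) v = lin M₁ M₂ A h v + lin M₁ M₂ A h' v := by
  unfold lin
  rw [← hM₂.add _ _ ⟨_, lin_bdd hM₁ hh v⟩ ⟨_, lin_bdd hM₁ hh' v⟩]
  congr 1
  funext u
  rw [hone_add hM₁ hh hh', hone_add hM₁ hh hh']
  ring

theorem lin_smul (hM₁ : IsMean M₁) (hM₂ : IsMean M₂) {h : V → ℝ} {C : ℝ} (c : ℝ)
    (hh : ∀ v v', |h v - h v'| ≤ C * ‖v - v'‖)
    (v : V) : lin M₁ M₂ A (fun x => c * h x) v = c * lin M₁ M₂ A h v := by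
  unfold lin
  rw [← hM₂.smul c _ ⟨_, lin_bdd hM₁ hh v⟩]
  congr 1
  funext u
  rw [hone_smul hM₁ c hh, hone_smul hM₁ c hh]
  ring

theorem lin_apply_A (hM₁ : IsMean M₁) (hM₂ : IsMean M₂)
    (hinv : ∀ a : U, ∀ φ : U → ℝ, (∃ C, ∀ x, |φ x| ≤ C) → M₁ (fun x => φ (x + a)) = M₁ φ)
    {h : V → ℝ} {C : ℝ} (hh : ∀ v v', |h v - h v'| ≤ C * ‖v - v'‖) {φ : U →L[ℝ] ℝ}
    (hφ : ∀ u, h (A u) = φ u) (u₀ : U) : lin M₁ M₂ A h (A u₀) = φ u₀ := by
  unfold lin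
  have h1 : (fun w => hone M₁ A h (A u₀ + w) - hone M₁ A h w) = fun _ => φ u₀ := by
    funext w
    rw [add_comm (A u₀) w, hone_shift hM₁ hinv hh hφ]
    ring
  rw [h1, hM₂.const]

end Linearize

/-- **Local complementation.** Let `a : U → V` have Gateaux derivative `A` at `u₀`, and let `b` be
an `L`-Lipschitz left inverse of `a` defined near `a u₀`. Then there is a linear operator
`E : U* → V*` of norm at most `L` such that `E φ` extends `φ ∘ A⁻¹`. -/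
theorem exists_local_complement {U V : Type*} [NormedAddCommGroup U] [NormedSpace ℝ U]
    [NormedAddCommGroup V] [NormedSpace ℝ V] {a : U → V} {b : V → U} {u₀ : U} {A : U →L[ℝ] V}
    {L : ℝ≥0} {S : Set V} (hS : S ∈ 𝓝 (a u₀)) (hb : LipschitzOnWith L b S)
    (hba : ∀ᶠ u in 𝓝 u₀, b (a u) = u) (hA : ∀ h, HasLineDerivAt ℝ a (A h) u₀ h) :
    ∃ E : (U →L[ℝ] ℝ) →ₗ[ℝ] (V →L[ℝ] ℝ), (∀ φ, ‖E φ‖ ≤ L * ‖φ‖) ∧
      ∀ φ h, E φ (A h) = φ h := by
  obtain ⟨M₁, hM₁, hinv₁⟩ := exists_invariant_mean U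
  obtain ⟨M₂, hM₂, hinv₂⟩ := exists_invariant_mean V
  obtain ⟨𝒰, h𝒰⟩ := Filter.exists_ultrafilter_le (f := 𝓝[≠] (0 : ℝ))
  have hb0 : b (a u₀) = u₀ := hba.self_of_nhds
  -- points `a u₀ + t v` are eventually in `S`
  have hin : ∀ v : V, ∀ᶠ t in 𝓝[≠] (0 : ℝ), a u₀ + t • v ∈ S := by
    intro v
    have h1 : Tendsto (fun t : ℝ => a u₀ + t • v) (𝓝 0) (𝓝 (a u₀)) := by
      have : Continuous (fun t : ℝ => a u₀ + t • v) := by fun_prop
      simpa using this.tendsto 0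
    exact (h1.mono_left nhdsWithin_le_nhds) hS
  have hne : ∀ᶠ t in 𝓝[≠] (0 : ℝ), t ≠ 0 := self_mem_nhdsWithin
  let f : ℝ → V → U := fun t v => t⁻¹ • (b (a u₀ + t • v) - u₀)
  have hf1 : ∀ v v' : V, ∀ᶠ t in 𝓝[≠] (0 : ℝ), ‖f t v - f t v'‖ ≤ L * ‖v - v'‖ := by
    intro v v'
    filter_upwards [hin v, hin v', hne] with t h1 h2 ht
    have h3 := hb.dist_le_mul _ h1 _ h2
    rw [dist_eq_norm, dist_eq_norm] at h3
    have h4 : a u₀ + t • v - (a u₀ + t • v') = t • (v - v') := by rw [smul_sub]; abel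
    rw [h4, norm_smul] at h3
    have h5 : f t v - f t v' = t⁻¹ • (b (a u₀ + t • v) - b (a u₀ + t • v')) := by
      simp only [f]
      rw [← smul_sub]; congr 1; abel
    rw [h5, norm_smul, norm_inv]
    have h6 : 0 < ‖t‖ := norm_pos_iff.2 ht
    calc ‖t‖⁻¹ * ‖b (a u₀ + t • v) - b (a u₀ + t • v')‖ ≤ ‖t‖⁻¹ * (L * (‖t‖ * ‖v - v'‖)) := by
          gcongr
      _ = L * ‖v - v'‖ := by field_simp
  have hf0 : ∀ t, f t 0 = 0 := by intro t; simp [f, hb0]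
  have hf2 : ∀ v : V, ∀ᶠ t in 𝓝[≠] (0 : ℝ), ‖f t v‖ ≤ L * ‖v‖ := by
    intro v
    filter_upwards [hf1 v 0] with t ht
    simpa [hf0] using ht
  have hφb : ∀ (φ : U →L[ℝ] ℝ) (v : V), ∀ᶠ t in (𝒰 : Filter ℝ), |φ (f t v)| ≤ ‖φ‖ * (L * ‖v‖) := by
    intro φ v
    filter_upwards [h𝒰 (hf2 v)] with t ht
    rw [← Real.norm_eq_abs]
    exact (φ.le_opNorm _).trans (by gcongr)
  -- blow-up functions
  let H : (U →L[ℝ] ℝ) → V → ℝ := fun φ v => ulim 𝒰 (fun t => φ (f t v))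
  have hHlip : ∀ φ v v', |H φ v - H φ v'| ≤ (L * ‖φ‖) * ‖v - v'‖ := by
    intro φ v v'
    simp only [H]
    rw [← ulim_sub 𝒰 (hφb φ v) (hφb φ v')]
    apply abs_ulim_le
    filter_upwards [h𝒰 (hf1 v v')] with t ht
    rw [← map_sub, ← Real.norm_eq_abs]
    calc ‖φ (f t v - f t v')‖ ≤ ‖φ‖ * ‖f t v - f t v'‖ := φ.le_opNorm _
      _ ≤ ‖φ‖ * (L * ‖v - v'‖) := by gcongr
      _ = (L * ‖φ‖) * ‖v - v'‖ := by ring
  have hHadd : ∀ φ φ', H (φ + φ') = fun v => H φ v + H φ' v := by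
    intro φ φ'
    funext v
    simp only [H, add_apply]
    exact ulim_add 𝒰 (hφb φ v) (hφb φ' v)
  have hHsmul : ∀ (c : ℝ) φ, H (c • φ) = fun v => c * H φ v := by
    intro c φ
    funext v
    simp only [H, smul_apply, smul_eq_mul]
    exact ulim_smul 𝒰 c (hφb φ v)
  have hHA : ∀ φ h, H φ (A h) = φ h := by
    intro φ h
    simp only [H]
    apply ulim_eq
    refine Tendsto.mono_left ?_ h𝒰
    have h1 : Tendsto (fun t : ℝ => f t (A h)) (𝓝[≠] 0) (𝓝 h) := by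
      have h2 := hA h
      rw [hasLineDerivAt_iff_tendsto_slope_zero] at h2
      -- `a (u₀ + t h)` is eventually in `S`
      have hcont : Tendsto (fun t : ℝ => a (u₀ + t • h)) (𝓝[≠] 0) (𝓝 (a u₀)) := by
        have h3 : ContinuousAt (fun t : ℝ => a (u₀ + t • h)) 0 := by
          have := hA h
          unfold HasLineDerivAt at this
          exact this.continuousAt
        have h4 : Tendsto (fun t : ℝ => a (u₀ + t • h)) (𝓝 0) (𝓝 (a u₀)) := by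
          simpa [ContinuousAt] using h3
        exact h4.mono_left nhdsWithin_le_nhds
      have hSe : ∀ᶠ t in 𝓝[≠] (0 : ℝ), a (u₀ + t • h) ∈ S := hcont hS
      have hbae : ∀ᶠ t in 𝓝[≠] (0 : ℝ), b (a (u₀ + t • h)) = u₀ + t • h := by
        have h5 : Tendsto (fun t : ℝ => u₀ + t • h) (𝓝 0) (𝓝 u₀) := by
          have : Continuous (fun t : ℝ => u₀ + t • h) := by fun_prop
          simpa using this.tendsto 0
        exact (h5.mono_left nhdsWithin_le_nhds).eventually hba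
      rw [tendsto_iff_norm_sub_tendsto_zero]
      have h6 : Tendsto (fun t : ℝ => L * ‖A h - t⁻¹ • (a (u₀ + t • h) - a u₀)‖) (𝓝[≠] 0)
          (𝓝 0) := by
        have h7 := (tendsto_const_nhds (x := A h)).sub h2
        have h8 := (h7.norm).const_mul (L : ℝ)
        simpa using h8
      refine squeeze_zero' (Eventually.of_forall fun t => norm_nonneg _) ?_ h6
      filter_upwards [hin (A h), hSe, hbae, hne] with t h9 h10 h11 ht
      have h12 := hb.dist_le_mul _ h9 _ h10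
      rw [dist_eq_norm, dist_eq_norm, h11] at h12
      have h13 : f t (A h) - h = t⁻¹ • (b (a u₀ + t • A h) - (u₀ + t • h)) := by
        simp only [f]
        rw [← sub_sub, smul_sub _ _ (t • h), smul_smul, inv_mul_cancel₀ ht, one_smul]
      have h14 : A h - t⁻¹ • (a (u₀ + t • h) - a u₀)
          = t⁻¹ • (a u₀ + t • A h - a (u₀ + t • h)) := by
        rw [smul_sub, smul_sub, smul_add, smul_smul, inv_mul_cancel₀ ht, one_smul]
        abel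
      rw [h13, h14, norm_smul, norm_smul]
      calc ‖t⁻¹‖ * ‖b (a u₀ + t • A h) - (u₀ + t • h)‖
          ≤ ‖t⁻¹‖ * (L * ‖a u₀ + t • A h - a (u₀ + t • h)‖) := by gcongr
        _ = L * (‖t⁻¹‖ * ‖a u₀ + t • A h - a (u₀ + t • h)‖) := by ring
    exact (φ.continuous.tendsto h).comp h1
  -- the linear extension operator
  let E0 : (U →L[ℝ] ℝ) → V → ℝ := fun φ => lin M₁ M₂ A (H φ)
  have hE0b : ∀ φ v, |E0 φ v| ≤ (L * ‖φ‖) * ‖v‖ := fun φ v => abs_lin_le hM₁ hM₂ (hHlip φ) v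
  let E1 : (U →L[ℝ] ℝ) → (V →+ ℝ) := fun φ =>
    AddMonoidHom.mk' (E0 φ) (lin_map_add hM₁ hM₂ hinv₂ (hHlip φ))
  have hE1c : ∀ φ, Continuous (E1 φ) := fun φ =>
    AddMonoidHomClass.continuous_of_bound (E1 φ) (L * ‖φ‖) fun v => hE0b φ v
  let E : (U →L[ℝ] ℝ) →ₗ[ℝ] (V →L[ℝ] ℝ) :=
    { toFun := fun φ => (E1 φ).toRealLinearMap (hE1c φ)
      map_add' := by
        intro φ φ'
        ext v
        show E0 (φ + φ') v = E0 φ v + E0 φ' v
        simp only [E0]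
        rw [hHadd]
        exact lin_add hM₁ hM₂ (hHlip φ) (hHlip φ') v
      map_smul' := by
        intro c φ
        ext v
        show E0 (c • φ) v = c * E0 φ v
        simp only [E0]
        rw [hHsmul]
        exact lin_smul hM₁ hM₂ c (hHlip φ) v }
  refine ⟨E, ?_, ?_⟩
  · intro φ
    refine ContinuousLinearMap.opNorm_le_bound _ (by positivity) fun v => ?_
    exact hE0b φ v
  · intro φ h
    exact lin_apply_A hM₁ hM₂ hinv₁ (hHlip φ) (hHA φ) h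

end Pool.Agent.H23
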