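import Mathlib
import Pool.Agent.H23.RNCurve
import Pool.Agent.H23.Gateaux
import Pool.Agent.H23.LocalComp
import Pool.Agent.H23.Contraction
import Pool.Agent.H23.Decomp

/-!
# Bi-Lipschitz images of small distortion
-/

open Set Filter Topology Metric NormedSpace TopologicalSpace
open scoped NNReal ENNReal

namespace Pool.Agent.H23

section Retraction

variable {Y : Type*} [NormedAddCommGroup Y] [NormedSpace ℝ Y]

/-- Radial retraction onto the unit ball. -/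
noncomputable def rad (x : Y) : Y := (max 1 ‖x‖)⁻¹ • x

theorem norm_rad_sub_le (x y : Y) : ‖rad x - rad y‖ ≤ 2 * ‖x - y‖ := by
  unfold rad
  set a : ℝ := max 1 ‖x‖ with ha
  set b : ℝ := max 1 ‖y‖ with hb
  have ha1 : 1 ≤ a := le_max_left _ _
  have hb1 : 1 ≤ b := le_max_left _ _
  have hby : ‖y‖ ≤ b := le_max_right _ _
  have hab : |b - a| ≤ ‖x - y‖ := by
    have h1 : |max 1 ‖y‖ - max 1 ‖x‖| ≤ |‖y‖ - ‖x‖| := by
      have := abs_max_sub_max_le_abs ‖y‖ ‖x‖ 1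
      rwa [max_comm ‖y‖ 1, max_comm ‖x‖ 1] at this
    refine h1.trans ?_
    rw [norm_sub_rev]
    exact abs_norm_sub_norm_le y x
  have ha0 : 0 < a := by linarith
  have hb0 : 0 < b := by linarith
  have h1 : a⁻¹ • x - b⁻¹ • y = a⁻¹ • (x - y) + (a⁻¹ - b⁻¹) • y := by
    rw [smul_sub, sub_smul]; abel
  rw [h1]
  have h2 : |a⁻¹ - b⁻¹| = |b - a| / (a * b) := by
    rw [inv_sub_inv ha0.ne' hb0.ne', abs_div, abs_of_pos (mul_pos ha0 hb0)]
  have h3 : ‖(a⁻¹ - b⁻¹) • y‖ ≤ ‖x - y‖ := by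
    rw [norm_smul, Real.norm_eq_abs, h2, div_mul_eq_mul_div, div_le_iff₀ (mul_pos ha0 hb0)]
    calc |b - a| * ‖y‖ ≤ ‖x - y‖ * b := by gcongr
      _ = ‖x - y‖ * (1 * b) := by ring
      _ ≤ ‖x - y‖ * (a * b) := by gcongr
  have h4 : ‖a⁻¹ • (x - y)‖ ≤ ‖x - y‖ := by
    rw [norm_smul, norm_inv, Real.norm_eq_abs, abs_of_pos ha0]
    have : a⁻¹ ≤ 1 := inv_le_one_of_one_le₀ ha1
    calc a⁻¹ * ‖x - y‖ ≤ 1 * ‖x - y‖ := by gcongr
      _ = ‖x - y‖ := one_mul _
  calc ‖a⁻¹ • (x - y) + (a⁻¹ - b⁻¹) • y‖ ≤ ‖a⁻¹ • (x - y)‖ + ‖(a⁻¹ - b⁻¹) • y‖ := norm_add_le _ _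
    _ ≤ 2 * ‖x - y‖ := by linarith

theorem norm_rad_le (x : Y) : ‖rad x‖ ≤ 1 := by
  unfold rad
  have ha1 : 1 ≤ max 1 ‖x‖ := le_max_left _ _
  rw [norm_smul, norm_inv, Real.norm_eq_abs, abs_of_pos (by linarith : 0 < max 1 ‖x‖),
    inv_mul_le_iff₀ (by linarith), mul_one]
  exact le_max_right _ _

theorem rad_of_norm_le {x : Y} (hx : ‖x‖ ≤ 1) : rad x = x := by
  unfold rad
  rw [max_eq_left hx, inv_one, one_smul]

/-- Retraction onto the ball of centre `u` and radius `r`. -/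
noncomputable def retr (u : Y) (r : ℝ) (y : Y) : Y := u + r • rad (r⁻¹ • (y - u))

theorem retr_mem {u : Y} {r : ℝ} (hr : 0 < r) (y : Y) : retr u r y ∈ closedBall u r := by
  rw [mem_closedBall, dist_eq_norm]
  have h1 : retr u r y - u = r • rad (r⁻¹ • (y - u)) := by simp [retr]
  rw [h1, norm_smul, Real.norm_eq_abs, abs_of_pos hr]
  calc r * ‖rad (r⁻¹ • (y - u))‖ ≤ r * 1 := by gcongr; exact norm_rad_le _
    _ = r := mul_one _

theorem retr_of_mem {u : Y} {r : ℝ} (hr : 0 < r) {y : Y} (hy : y ∈ closedBall u r) :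
    retr u r y = y := by
  rw [mem_closedBall, dist_eq_norm] at hy
  unfold retr
  rw [rad_of_norm_le, smul_smul, mul_inv_cancel₀ hr.ne', one_smul, add_sub_cancel]
  rw [norm_smul, norm_inv, Real.norm_eq_abs, abs_of_pos hr, inv_mul_le_iff₀ hr, mul_one]
  exact hy

theorem lipschitz_retr {u : Y} {r : ℝ} (hr : 0 < r) : LipschitzWith 2 (retr u r) := by
  apply LipschitzWith.of_dist_le_mul
  intro x y
  rw [dist_eq_norm, dist_eq_norm]
  have h1 : retr u r x - retr u r y = r • (rad (r⁻¹ • (x - u)) - rad (r⁻¹ • (y - u))) := by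
    unfold retr
    rw [smul_sub r]; abel
  rw [h1, norm_smul, Real.norm_eq_abs, abs_of_pos hr]
  have h2 := norm_rad_sub_le (r⁻¹ • (x - u)) (r⁻¹ • (y - u))
  have h3 : r⁻¹ • (x - u) - r⁻¹ • (y - u) = r⁻¹ • (x - y) := by
    rw [← smul_sub]; congr 1; abel
  rw [h3, norm_smul, norm_inv, Real.norm_eq_abs, abs_of_pos hr] at h2
  calc r * ‖rad (r⁻¹ • (x - u)) - rad (r⁻¹ • (y - u))‖ ≤ r * (2 * (r⁻¹ * ‖x - y‖)) := by gcongr
    _ = ((2 : ℝ≥0) : ℝ) * ‖x - y‖ := by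
      push_cast
      field_simp

end Retraction

/-- Local version of the existence of Gateaux differentiability points. -/
theorem exists_gateaux_point_local {Y X : Type*} [NormedAddCommGroup Y] [NormedSpace ℝ Y]
    [NormedAddCommGroup X] [NormedSpace ℝ X] [CompleteSpace Y] [SeparableSpace Y]
    [CompleteSpace X] [SeparableSpace X]
    (hX : ∀ (γ : ℝ → X) (K : ℝ≥0), LipschitzWith K γ → ∀ᵐ t : ℝ, DifferentiableAt ℝ γ t)
    {g : Y → X} {K : ℝ≥0} {O : Set Y} (hO : IsOpen O) (hg : LipschitzOnWith K g O)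
    (hne : O.Nonempty) :
    ∃ y ∈ O, ∃ A : Y →L[ℝ] X, ∀ v, HasLineDerivAt ℝ g (A v) y v := by
  obtain ⟨u, hu⟩ := hne
  obtain ⟨r, hr, hball⟩ := Metric.nhds_basis_closedBall.mem_iff.1 (hO.mem_nhds hu)
  have h1 : LipschitzWith (K * 2) (fun y => g (retr u r y)) := by
    apply LipschitzWith.of_dist_le_mul
    intro x y
    have h2 := hg.dist_le_mul _ (hball (retr_mem hr x)) _ (hball (retr_mem hr y))
    have h3 := (lipschitz_retr hr (u := u)).dist_le_mul x y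
    calc dist (g (retr u r x)) (g (retr u r y)) ≤ K * dist (retr u r x) (retr u r y) := h2
      _ ≤ K * ((2 : ℝ≥0) * dist x y) := by gcongr
      _ = ((K * 2 : ℝ≥0) : ℝ) * dist x y := by push_cast; ring
  obtain ⟨y, hy, A, -, hA⟩ := exists_gateaux_point hX h1 (isOpen_ball (x := u) (ε := r))
    ⟨u, mem_ball_self hr⟩
  refine ⟨y, hball (ball_subset_closedBall hy), A, fun v => ?_⟩
  refine (hA v).congr_of_eventuallyEq ?_
  filter_upwards [isOpen_ball.mem_nhds hy] with z hz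
  show g z = g (retr u r z)
  rw [retr_of_mem hr (ball_subset_closedBall hz)]

/-- A normed space with a nonempty open separable subset is separable. -/
theorem separableSpace_of_isOpen {Y : Type*} [NormedAddCommGroup Y] [NormedSpace ℝ Y]
    {O : Set Y} (hO : IsOpen O) (hne : O.Nonempty) (hs : IsSeparable O) : SeparableSpace Y := by
  obtain ⟨u, hu⟩ := hne
  obtain ⟨r, hr, hball⟩ := Metric.isOpen_iff.1 hO u hu
  rw [← isSeparable_univ_iff]
  have h1 : (univ : Set Y) ⊆ ⋃ n : ℕ, (fun y => (n : ℝ) • (y - u)) '' ball u r := by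
    intro x _
    obtain ⟨n, hn⟩ := exists_nat_gt (‖x‖ / r)
    have hn0 : 0 < (n : ℝ) := lt_of_le_of_lt (by positivity) hn
    simp only [mem_iUnion]
    refine ⟨n, u + (n : ℝ)⁻¹ • x, ?_, ?_⟩
    · rw [mem_ball, dist_eq_norm, add_sub_cancel_left, norm_smul, norm_inv, Real.norm_eq_abs,
        abs_of_pos hn0, inv_mul_lt_iff₀ hn0]
      rwa [div_lt_iff₀ hr] at hn
    · simp only [add_sub_cancel_left, smul_smul]
      rw [mul_inv_cancel₀ hn0.ne', one_smul]
  refine IsSeparable.mono ?_ h1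
  apply IsSeparable.iUnion
  intro n
  exact (hs.mono hball).image (by fun_prop)

section Main

variable {X Y Z : Type*} [NormedAddCommGroup X] [NormedSpace ℝ X] [CompleteSpace X]
  [SeparableSpace X] [NormedAddCommGroup Y] [NormedSpace ℝ Y] [CompleteSpace Y]
  [NormedAddCommGroup Z] [NormedSpace ℝ Z]

/-- Mutual complementation from a local bi-Lipschitz homeomorphism of small distortion. -/
theorem exists_mutual_complement (eZ : X ≃L[ℝ] (Z →L[ℝ] ℝ))
    (π : StrongDual ℝ (StrongDual ℝ X) →L[ℝ] X) (hπ : ∀ x, π (inclusionInDoubleDual ℝ X x) = x)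
    {κ : ℝ} (hκ : 0 < κ)
    (hπκ : ∀ ζ, κ * min ‖π ζ‖ ‖ζ - inclusionInDoubleDual ℝ X (π ζ)‖ ≤ ‖ζ‖)
    (e : OpenPartialHomeomorph Y X) (hne : e.source.Nonempty) {K L : ℝ≥0}
    (hK : LipschitzOnWith K e e.source) (hL : LipschitzOnWith L e.symm e.target)
    (hKL : (K : ℝ) * L < κ) :
    ∃ (A : Y →L[ℝ] X) (P : X →L[ℝ] Y) (B : X →L[ℝ] Y) (Q : Y →L[ℝ] X),
      (∀ y, P (A y) = y) ∧ ∀ x, Q (B x) = x := by
  have hX : ∀ (γ : ℝ → X) (K : ℝ≥0), LipschitzWith K γ → ∀ᵐ t : ℝ, DifferentiableAt ℝ γ t :=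
    fun γ K hγ => ae_differentiableAt_of_equiv_dual eZ hγ
  -- `Y` is separable
  have hsep : SeparableSpace Y := by
    apply separableSpace_of_isOpen e.open_source hne
    have h1 : IsSeparable (univ : Set e.target) := isSeparable_univ_iff.2 inferInstance
    have h2 : Continuous (fun x : e.target => e.symm x) :=
      continuousOn_iff_continuous_domRestrict.1 e.continuousOn_symm
    have h3 := h1.image h2
    refine h3.mono ?_
    intro y hy
    exact ⟨⟨e y, e.map_source hy⟩, trivial, e.left_inv hy⟩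
  -- derivative of `e`
  obtain ⟨y₀, hy₀, A, hA⟩ := exists_gateaux_point_local hX e.open_source hK hne
  have hsrc : e.source ∈ 𝓝 y₀ := e.open_source.mem_nhds hy₀
  have hAK : ∀ v, ‖A v‖ ≤ K * ‖v‖ := fun v => (hA v).le_of_lipschitzOn hsrc hK
  have hline : ∀ v : Y, Tendsto (fun t : ℝ => y₀ + t • v) (𝓝[≠] 0) (𝓝 y₀) := by
    intro v
    have h1 : Continuous (fun t : ℝ => y₀ + t • v) := by fun_prop
    have h2 : Tendsto (fun t : ℝ => y₀ + t • v) (𝓝 0) (𝓝 y₀) := by simpa using h1.tendsto 0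
    exact h2.mono_left nhdsWithin_le_nhds
  have hAL : ∀ v, ‖v‖ ≤ L * ‖A v‖ := by
    intro v
    have h1 := hA v
    rw [hasLineDerivAt_iff_tendsto_slope_zero] at h1
    have h2 := (h1.norm).const_mul (L : ℝ)
    refine ge_of_tendsto h2 ?_
    have hne0 : ∀ᶠ t in 𝓝[≠] (0 : ℝ), t ≠ 0 := self_mem_nhdsWithin
    filter_upwards [(hline v) hsrc, hne0] with t ht ht0
    have ht' : y₀ + t • v ∈ e.source := ht
    have h3 := hL.dist_le_mul _ (e.map_source ht') _ (e.map_source hy₀)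
    rw [e.left_inv ht', e.left_inv hy₀, dist_eq_norm, dist_eq_norm, add_sub_cancel_left,
      norm_smul] at h3
    rw [norm_smul, norm_inv]
    have h4 : 0 < ‖t‖ := norm_pos_iff.2 ht0
    calc ‖v‖ = ‖t‖⁻¹ * (‖t‖ * ‖v‖) := by field_simp
      _ ≤ ‖t‖⁻¹ * (L * ‖e (y₀ + t • v) - e y₀‖) := by gcongr
      _ = L * (‖t‖⁻¹ * ‖e (y₀ + t • v) - e y₀‖) := by ring
  obtain ⟨E, hE1, hE2⟩ := exists_local_complement (a := e) (b := e.symm) (u₀ := y₀) (A := A)
    (e.open_target.mem_nhds (e.map_source hy₀)) hL (e.eventually_left_inverse hy₀) hA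
  have hc : (0 : ℝ) < ((L : ℝ) + 1)⁻¹ := by positivity
  obtain ⟨P, hP⟩ := exists_left_inverse_of_local_complement π hπ hκ hπκ A K.2 L.2 hc hAK
    (fun v => by
      have h1 := hAL v
      rw [inv_mul_le_iff₀ (by positivity)]
      have h2 := norm_nonneg (A v)
      linarith) E hE1 hE2 hKL
  -- derivative of the inverse
  have hne' : e.target.Nonempty := ⟨e y₀, e.map_source hy₀⟩
  have hlip2 : LipschitzOnWith (‖A‖₊ * L) (fun x => A (e.symm x)) e.target :=
    A.lipschitz.comp_lipschitzOnWith hL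
  obtain ⟨x₀, hx₀, B', hB'⟩ := exists_gateaux_point_local hX e.open_target hlip2 hne'
  let B : X →L[ℝ] Y := P.comp B'
  have hB : ∀ v, HasLineDerivAt ℝ e.symm (B v) x₀ v := by
    intro v
    have h1 := hB' v
    unfold HasLineDerivAt at h1 ⊢
    have h2 := P.hasFDerivAt.comp_hasDerivAt (0 : ℝ) h1
    have h3 : (P ∘ fun t : ℝ => A (e.symm (x₀ + t • v))) = fun t : ℝ => e.symm (x₀ + t • v) := by
      funext t
      exact hP _
    rw [h3] at h2
    exact h2
  obtain ⟨E', hE1', hE2'⟩ := exists_local_complement (a := e.symm) (b := e) (u₀ := x₀) (A := B)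
    (e.open_source.mem_nhds (e.map_target hx₀)) hK (e.eventually_right_inverse hx₀) hB
  obtain ⟨Q, hQ⟩ := exists_left_inverse_of_bidual_projection π hπ B E' hE1' hE2'
  exact ⟨A, P, B, Q, hP, hQ⟩

/-- **Main theorem.** -/
theorem nonempty_equiv_of_small_distortion (eZ : X ≃L[ℝ] (Z →L[ℝ] ℝ))
    (π : StrongDual ℝ (StrongDual ℝ X) →L[ℝ] X) (hπ : ∀ x, π (inclusionInDoubleDual ℝ X x) = x)
    {κ : ℝ} (hκ : 0 < κ)
    (hπκ : ∀ ζ, κ * min ‖π ζ‖ ‖ζ - inclusionInDoubleDual ℝ X (π ζ)‖ ≤ ‖ζ‖)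
    {p : ℝ≥0∞} [Fact (1 ≤ p)] (hp : p ≠ ∞) (hXp : Nonempty (X ≃L[ℝ] lp (fun _ : ℕ => X) p))
    (e : OpenPartialHomeomorph Y X) (hne : e.source.Nonempty) {K L : ℝ≥0}
    (hK : LipschitzOnWith K e e.source) (hL : LipschitzOnWith L e.symm e.target)
    (hKL : (K : ℝ) * L < κ) : Nonempty (Y ≃L[ℝ] X) := by
  obtain ⟨A, P, B, Q, hP, hQ⟩ := exists_mutual_complement eZ π hπ hκ hπκ e hne hK hL hKL
  exact nonempty_equiv_of_complemented hp hXp A P hP B Q hQ

end Main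

end Pool.Agent.H23
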