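import Mathlib
import Pool.Agent.H23.MainThm

/-!
# The space `ℓ₁`
-/

open Set Filter Topology Metric NormedSpace TopologicalSpace
open scoped NNReal ENNReal

namespace Pool.Agent.H23

/-- The Banach space `ℓ₁`. -/
abbrev Ell1 : Type := lp (fun _ : ℕ => ℝ) 1

namespace Ell1

theorem norm_eq {E : Type*} [NormedAddCommGroup E] (x : lp (fun _ : ℕ => E) 1) :
    ‖x‖ = ∑' i, ‖x i‖ := by
  have := lp.norm_eq_tsum_rpow (p := 1) (by simp) x
  simpa using this

theorem summable {E : Type*} [NormedAddCommGroup E] (x : lp (fun _ : ℕ => E) 1) :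
    Summable fun i => ‖x i‖ := by
  simpa using (lp.memℓp x).summable (by simp)

theorem sum_le_norm {E : Type*} [NormedAddCommGroup E] (x : lp (fun _ : ℕ => E) 1)
    (s : Finset ℕ) : ∑ i ∈ s, ‖x i‖ ≤ ‖x‖ := by
  rw [norm_eq]
  exact (summable x).sum_le_tsum s (fun i _ => norm_nonneg _)

/-- Unit vectors. -/
noncomputable def e (i : ℕ) : Ell1 := lp.single 1 i (1 : ℝ)

theorem single_eq (i : ℕ) (c : ℝ) : (lp.single 1 i c : Ell1) = c • e i := by
  unfold e
  rw [← lp.single_smul]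
  simp

theorem separable : SeparableSpace Ell1 := by
  have hsep : IsSeparable (closure (Submodule.span ℝ (range e) : Set Ell1)) := by
    apply IsSeparable.closure
    apply IsSeparable.span
    exact (countable_range _).isSeparable
  rw [← isSeparable_univ_iff]
  refine hsep.mono ?_
  intro x _
  have h1 := lp.hasSum_single (E := fun _ : ℕ => ℝ) (p := 1) (by simp) x
  refine mem_closure_of_tendsto h1 (Eventually.of_forall fun s => ?_)
  refine Submodule.sum_mem _ fun i _ => ?_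
  rw [single_eq]
  exact Submodule.smul_mem _ _ (Submodule.subset_span ⟨i, rfl⟩)

/-- The space `c₀₀` of finitely supported sequences with the sup norm. -/
noncomputable abbrev C00 : Submodule ℝ (lp (fun _ : ℕ => ℝ) ∞) :=
  Submodule.span ℝ (range fun i : ℕ => (lp.single ∞ i (1 : ℝ) : lp (fun _ : ℕ => ℝ) ∞))

theorem summable_mul (x : Ell1) (z : lp (fun _ : ℕ => ℝ) ∞) : Summable fun i => x i * z i := by
  refine Summable.of_norm_bounded (g := fun i => ‖x i‖ * ‖z‖) ((summable x).mul_right _) ?_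
  intro i
  rw [norm_mul]
  gcongr
  exact lp.norm_apply_le_norm (by simp) z i

theorem abs_tsum_mul_le (x : Ell1) (z : lp (fun _ : ℕ => ℝ) ∞) :
    ‖∑' i, x i * z i‖ ≤ 1 * ‖x‖ * ‖z‖ := by
  have h1 : Summable fun i => ‖x i * z i‖ := (summable_mul x z).norm
  calc ‖∑' i, x i * z i‖ ≤ ∑' i, ‖x i * z i‖ := norm_tsum_le_tsum_norm h1
    _ ≤ ∑' i, ‖x i‖ * ‖z‖ := by
        refine h1.tsum_le_tsum (fun i => ?_) ((summable x).mul_right _)
        rw [norm_mul]
        gcongr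
        exact lp.norm_apply_le_norm (by simp) z i
    _ = 1 * ‖x‖ * ‖z‖ := by rw [tsum_mul_right, norm_eq, one_mul]

/-- The pairing of `ℓ₁` with `c₀₀`. -/
noncomputable def pairing : Ell1 →L[ℝ] (C00 →L[ℝ] ℝ) :=
  LinearMap.mkContinuous₂
    (LinearMap.mk₂ ℝ (fun (x : Ell1) (z : C00) => ∑' i, x i * z.1 i)
      (by
        intro x y z
        rw [← (summable_mul x z.1).tsum_add (summable_mul y z.1)]
        congr 1
        funext i
        rw [lp.coeFn_add, Pi.add_apply, add_mul])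
      (by
        intro c x z
        rw [smul_eq_mul, ← tsum_mul_left]
        congr 1
        funext i
        rw [lp.coeFn_smul, Pi.smul_apply, smul_eq_mul, mul_assoc])
      (by
        intro x z w
        rw [← (summable_mul x z.1).tsum_add (summable_mul x w.1)]
        congr 1
        funext i
        show x i * (z.1 + w.1 : lp (fun _ : ℕ => ℝ) ∞) i = _
        rw [lp.coeFn_add, Pi.add_apply, mul_add])
      (by
        intro c x z
        rw [smul_eq_mul, ← tsum_mul_left]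
        congr 1
        funext i
        show x i * (c • z.1 : lp (fun _ : ℕ => ℝ) ∞) i = _
        rw [lp.coeFn_smul, Pi.smul_apply, smul_eq_mul]
        ring))
    1 (fun x z => abs_tsum_mul_le x z.1)

theorem pairing_apply (x : Ell1) (z : C00) : pairing x z = ∑' i, x i * z.1 i := rfl

/-- Unit vectors of `c₀₀`. -/
noncomputable def f (i : ℕ) : C00 := ⟨lp.single ∞ i (1 : ℝ), Submodule.subset_span ⟨i, rfl⟩⟩

theorem pairing_f (x : Ell1) (i : ℕ) : pairing x (f i) = x i := by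
  rw [pairing_apply, tsum_eq_single i]
  · show x i * (lp.single ∞ i (1 : ℝ) : lp (fun _ : ℕ => ℝ) ∞) i = x i
    rw [lp.single_apply_self, mul_one]
  · intro j hj
    show x j * (lp.single ∞ i (1 : ℝ) : lp (fun _ : ℕ => ℝ) ∞) j = 0
    rw [lp.single_apply_ne _ _ _ hj, mul_zero]

theorem norm_sum_f_le (s : Finset ℕ) (c : ℕ → ℝ) (hc : ∀ i, |c i| ≤ 1) :
    ‖∑ i ∈ s, c i • f i‖ ≤ 1 := by
  change ‖((∑ i ∈ s, c i • f i : C00) : lp (fun _ : ℕ => ℝ) ∞)‖ ≤ 1
  apply lp.norm_le_of_forall_le zero_le_one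
  intro j
  rw [Submodule.coe_sum, lp.coeFn_sum, Finset.sum_apply]
  have h1 : ∀ i ∈ s, (((c i • f i : C00) : lp (fun _ : ℕ => ℝ) ∞) : ∀ _ : ℕ, ℝ) j =
      if i = j then c j else 0 := by
    intro i _
    show (c i • (lp.single ∞ i (1 : ℝ) : lp (fun _ : ℕ => ℝ) ∞)) j = _
    rw [lp.coeFn_smul, Pi.smul_apply, smul_eq_mul]
    split_ifs with h
    · subst h
      rw [lp.single_apply_self, mul_one]
    · rw [lp.single_apply_ne _ _ _ (Ne.symm h), mul_zero]
  rw [Finset.sum_congr rfl h1, Finset.sum_ite_eq' s j]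
  split_ifs
  · exact hc j
  · simp

theorem pairing_injective : Function.Injective pairing := by
  intro x y hxy
  ext i
  rw [← pairing_f x i, ← pairing_f y i, hxy]

theorem abs_sign_le (r : ℝ) : |(SignType.sign r : ℝ)| ≤ 1 := by
  rcases lt_trichotomy r 0 with h | h | h
  · simp [sign_neg h]
  · simp [h]
  · simp [sign_pos h]

theorem pairing_surjective : Function.Surjective pairing := by
  intro φ
  have h1 : Memℓp (fun i : ℕ => φ (f i)) 1 := by
    apply memℓp_gen' (C := ‖φ‖)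
    intro s
    simp only [ENNReal.toReal_one, Real.rpow_one]
    have h2 : φ (∑ i ∈ s, ((SignType.sign (φ (f i)) : ℝ)) • f i) = ∑ i ∈ s, ‖φ (f i)‖ := by
      rw [map_sum]
      refine Finset.sum_congr rfl fun i _ => ?_
      rw [map_smul, smul_eq_mul, Real.norm_eq_abs, sign_mul_self]
    rw [← h2]
    calc φ (∑ i ∈ s, ((SignType.sign (φ (f i)) : ℝ)) • f i)
        ≤ ‖φ (∑ i ∈ s, ((SignType.sign (φ (f i)) : ℝ)) • f i)‖ := Real.le_norm_self _
      _ ≤ ‖φ‖ * ‖∑ i ∈ s, ((SignType.sign (φ (f i)) : ℝ)) • f i‖ := φ.le_opNorm _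
      _ ≤ ‖φ‖ * 1 := by
          gcongr
          exact norm_sum_f_le s _ fun i => abs_sign_le _
      _ = ‖φ‖ := mul_one _
  refine ⟨⟨fun i => φ (f i), h1⟩, ?_⟩
  have key : ∀ z : lp (fun _ : ℕ => ℝ) ∞, ∀ hz : z ∈ C00,
      pairing ⟨fun i => φ (f i), h1⟩ ⟨z, hz⟩ = φ ⟨z, hz⟩ := by
    intro z hz
    induction hz using Submodule.span_induction with
    | mem x h =>
      obtain ⟨i, rfl⟩ := h
      exact pairing_f _ i
    | zero => exact (map_zero (pairing _)).trans (map_zero φ).symm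
    | add x y hx hy h1' h2' =>
      have : (⟨x + y, Submodule.add_mem _ hx hy⟩ : C00) = ⟨x, hx⟩ + ⟨y, hy⟩ := rfl
      rw [this, map_add, map_add, h1', h2']
    | smul a x hx h1' =>
      have : (⟨a • x, Submodule.smul_mem _ a hx⟩ : C00) = a • ⟨x, hx⟩ := rfl
      rw [this, map_smul, map_smul, h1']
  ext z
  exact key z.1 z.2

theorem exists_equiv_of_bijective {E F : Type*} [NormedAddCommGroup E] [NormedSpace ℝ E]
    [CompleteSpace E] [NormedAddCommGroup F] [NormedSpace ℝ F] [CompleteSpace F] (T : E →L[ℝ] F)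
    (h1 : Function.Injective T) (h2 : Function.Surjective T) : Nonempty (E ≃L[ℝ] F) :=
  ⟨ContinuousLinearEquiv.ofBijective T (LinearMap.ker_eq_bot.2 h1) (LinearMap.range_eq_top.2 h2)⟩

/-- `ℓ₁` is the dual of `c₀₀`. -/
theorem nonempty_dualEquiv : Nonempty (Ell1 ≃L[ℝ] (C00 →L[ℝ] ℝ)) :=
  exists_equiv_of_bijective (E := Ell1) (F := C00 →L[ℝ] ℝ) pairing pairing_injective
    pairing_surjective

/-! ### `ℓ₁(ℓ₁) ≅ ℓ₁` -/

/-- Flattening of double sequences. -/
noncomputable def flat : lp (fun _ : ℕ => Ell1) 1 →L[ℝ] Ell1 :=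
  have key : ∀ x : lp (fun _ : ℕ => Ell1) 1,
      HasSum (fun n : ℕ => ‖x (Nat.unpair n).1 (Nat.unpair n).2‖) ‖x‖ := by
    intro x
    have h1 : Summable (fun q : ℕ × ℕ => ‖x q.1 q.2‖) := by
      rw [summable_prod_of_nonneg (fun q => norm_nonneg _)]
      refine ⟨fun i => summable (x i), ?_⟩
      have h2 : (fun i => ∑' j, ‖x i j‖) = fun i => ‖x i‖ := by
        funext i
        rw [norm_eq (x i)]
      rw [h2]
      exact summable x
    have h3 : ∑' q : ℕ × ℕ, ‖x q.1 q.2‖ = ‖x‖ := by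
      rw [h1.tsum_prod, norm_eq x]
      congr 1
      funext i
      rw [norm_eq (x i)]
    have h4 : HasSum (fun q : ℕ × ℕ => ‖x q.1 q.2‖) ‖x‖ := h3 ▸ h1.hasSum
    have h5 := (Nat.pairEquiv.symm.hasSum_iff (f := fun q : ℕ × ℕ => ‖x q.1 q.2‖)).2 h4
    exact h5
  LinearMap.mkContinuous
    { toFun := fun x => ⟨fun n => x (Nat.unpair n).1 (Nat.unpair n).2, by
        apply memℓp_gen
        simp only [ENNReal.toReal_one, Real.rpow_one]
        exact (key x).summable⟩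
      map_add' := by
        intro x y
        ext n
        show (x + y) (Nat.unpair n).1 (Nat.unpair n).2 = _
        rw [lp.coeFn_add, Pi.add_apply, lp.coeFn_add, Pi.add_apply]
        rfl
      map_smul' := by
        intro c x
        ext n
        show (c • x) (Nat.unpair n).1 (Nat.unpair n).2 = _
        rw [lp.coeFn_smul, Pi.smul_apply, lp.coeFn_smul, Pi.smul_apply]
        rfl }
    1 (by
      intro x
      rw [one_mul, norm_eq]
      exact (key x).tsum_eq.le)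

theorem flat_apply (x : lp (fun _ : ℕ => Ell1) 1) (n : ℕ) :
    flat x n = x (Nat.unpair n).1 (Nat.unpair n).2 := rfl

theorem flat_injective : Function.Injective flat := by
  intro x y hxy
  ext i j
  have h1 := flat_apply x (Nat.pair i j)
  have h2 := flat_apply y (Nat.pair i j)
  rw [Nat.unpair_pair] at h1 h2
  rw [hxy] at h1
  exact h1.symm.trans h2

theorem flat_surjective : Function.Surjective flat := by
  intro y
  have h0 : Summable (fun q : ℕ × ℕ => ‖y (Nat.pair q.1 q.2)‖) := by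
    have := (Nat.pairEquiv.summable_iff (f := fun n : ℕ => ‖y n‖)).2 (summable y)
    exact this
  have h1 := (summable_prod_of_nonneg (fun q => norm_nonneg _)).1 h0
  let r : ℕ → Ell1 := fun i => ⟨fun j => y (Nat.pair i j), by
    apply memℓp_gen
    simp only [ENNReal.toReal_one, Real.rpow_one]
    exact h1.1 i⟩
  have hr : ∀ i, ‖r i‖ = ∑' j, ‖y (Nat.pair i j)‖ := fun i => norm_eq (r i)
  refine ⟨⟨r, ?_⟩, ?_⟩
  · apply memℓp_gen
    simp only [ENNReal.toReal_one, Real.rpow_one]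
    have h2 : (fun i => ‖r i‖) = fun i => ∑' j, ‖y (Nat.pair i j)‖ := funext hr
    rw [h2]
    exact h1.2
  · ext n
    rw [flat_apply]
    show y (Nat.pair (Nat.unpair n).1 (Nat.unpair n).2) = y n
    rw [Nat.pair_unpair]

/-- `ℓ₁ ≅ ℓ₁(ℓ₁)`. -/
theorem nonempty_flatEquiv : Nonempty (Ell1 ≃L[ℝ] lp (fun _ : ℕ => Ell1) 1) :=
  (exists_equiv_of_bijective flat flat_injective flat_surjective).map
    ContinuousLinearEquiv.symm

/-! ### The `L`-projection of the bidual -/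

/-- Coordinate functionals. -/
noncomputable def coord (i : ℕ) : StrongDual ℝ Ell1 := lp.evalCLM ℝ (fun _ : ℕ => ℝ) 1 i

theorem coord_apply (i : ℕ) (x : Ell1) : coord i x = x i := rfl

/-- Truncation. -/
noncomputable def tr (s : Finset ℕ) (x : Ell1) : Ell1 := ∑ i ∈ s, lp.single 1 i (x i)

theorem norm_sub_tr (s : Finset ℕ) (x : Ell1) : ‖x - tr s x‖ = ‖x‖ - ∑ i ∈ s, ‖x i‖ := by
  have h1 := lp.norm_compl_sum_single (E := fun _ : ℕ => ℝ) (p := 1) (by simp) x s
  simpa [tr] using h1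

theorem norm_test_le (s : Finset ℕ) (c : ℕ → ℝ) (hc : ∀ i, |c i| ≤ 1) (ψ : StrongDual ℝ Ell1) :
    ‖(∑ i ∈ s, (‖ψ‖ * c i) • coord i) + (ψ - ∑ i ∈ s, ψ (e i) • coord i)‖ ≤ ‖ψ‖ := by
  apply ContinuousLinearMap.opNorm_le_bound _ (norm_nonneg _)
  intro x
  have h1 : (ψ - ∑ i ∈ s, ψ (e i) • coord i) x = ψ (x - tr s x) := by
    unfold tr
    rw [_root_.sub_apply, _root_.sum_apply, map_sub, map_sum]
    congr 1
    refine Finset.sum_congr rfl fun i _ => ?_
    rw [single_eq, map_smul, _root_.smul_apply, smul_eq_mul, smul_eq_mul, mul_comm]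
    rfl
  rw [_root_.add_apply, h1, _root_.sum_apply]
  have h2 : ‖∑ i ∈ s, ((‖ψ‖ * c i) • coord i) x‖ ≤ ‖ψ‖ * ∑ i ∈ s, ‖x i‖ := by
    rw [Finset.mul_sum]
    refine (norm_sum_le _ _).trans (Finset.sum_le_sum fun i _ => ?_)
    rw [_root_.smul_apply, smul_eq_mul, coord_apply, norm_mul, norm_mul, norm_norm]
    have := hc i
    rw [← Real.norm_eq_abs] at this
    calc ‖ψ‖ * ‖c i‖ * ‖x i‖ ≤ ‖ψ‖ * 1 * ‖x i‖ := by gcongr
      _ = ‖ψ‖ * ‖x i‖ := by rw [mul_one]
  have h3 : ‖ψ (x - tr s x)‖ ≤ ‖ψ‖ * (‖x‖ - ∑ i ∈ s, ‖x i‖) := by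
    rw [← norm_sub_tr]
    exact ψ.le_opNorm _
  calc ‖∑ i ∈ s, ((‖ψ‖ * c i) • coord i) x + ψ (x - tr s x)‖
      ≤ ‖∑ i ∈ s, ((‖ψ‖ * c i) • coord i) x‖ + ‖ψ (x - tr s x)‖ := norm_add_le _ _
    _ ≤ ‖ψ‖ * ∑ i ∈ s, ‖x i‖ + ‖ψ‖ * (‖x‖ - ∑ i ∈ s, ‖x i‖) := add_le_add h2 h3
    _ = ‖ψ‖ * ‖x‖ := by ring

theorem norm_sum_coord_le (s : Finset ℕ) (c : ℕ → ℝ) (hc : ∀ i, |c i| ≤ 1) :
    ‖∑ i ∈ s, c i • coord i‖ ≤ 1 := by
  apply ContinuousLinearMap.opNorm_le_bound _ zero_le_one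
  intro x
  rw [_root_.sum_apply, one_mul]
  refine (norm_sum_le _ _).trans ?_
  refine le_trans (Finset.sum_le_sum fun i _ => ?_) (sum_le_norm x s)
  rw [_root_.smul_apply, smul_eq_mul, coord_apply, norm_mul, Real.norm_eq_abs (c i)]
  exact mul_le_of_le_one_left (norm_nonneg _) (hc i)

theorem sum_abs_coord_le (ζ : StrongDual ℝ (StrongDual ℝ Ell1)) (s : Finset ℕ) :
    ∑ i ∈ s, ‖ζ (coord i)‖ ≤ ‖ζ‖ := by
  have h2 : ζ (∑ i ∈ s, ((SignType.sign (ζ (coord i)) : ℝ)) • coord i) =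
      ∑ i ∈ s, ‖ζ (coord i)‖ := by
    rw [map_sum]
    refine Finset.sum_congr rfl fun i _ => ?_
    rw [map_smul, smul_eq_mul, Real.norm_eq_abs, sign_mul_self]
  rw [← h2]
  calc ζ (∑ i ∈ s, ((SignType.sign (ζ (coord i)) : ℝ)) • coord i)
      ≤ ‖ζ (∑ i ∈ s, ((SignType.sign (ζ (coord i)) : ℝ)) • coord i)‖ := Real.le_norm_self _
    _ ≤ ‖ζ‖ * ‖∑ i ∈ s, ((SignType.sign (ζ (coord i)) : ℝ)) • coord i‖ := ζ.le_opNorm _
    _ ≤ ‖ζ‖ * 1 := by
        gcongr
        exact norm_sum_coord_le s _ fun i => abs_sign_le _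
    _ = ‖ζ‖ := mul_one _

/-- The sequence of coordinates of an element of the bidual. -/
noncomputable def projFun (ζ : StrongDual ℝ (StrongDual ℝ Ell1)) : Ell1 :=
  ⟨fun i => ζ (coord i), by
    apply memℓp_gen' (C := ‖ζ‖)
    simp only [ENNReal.toReal_one, Real.rpow_one]
    exact sum_abs_coord_le ζ⟩

theorem projFun_apply (ζ : StrongDual ℝ (StrongDual ℝ Ell1)) (i : ℕ) :
    projFun ζ i = ζ (coord i) := rfl

theorem norm_projFun_le (ζ : StrongDual ℝ (StrongDual ℝ Ell1)) : ‖projFun ζ‖ ≤ ‖ζ‖ := by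
  rw [norm_eq]
  exact Real.tsum_le_of_sum_le (fun i => norm_nonneg _) (sum_abs_coord_le ζ)

/-- The canonical projection of the bidual onto `ℓ₁`. -/
noncomputable def proj : StrongDual ℝ (StrongDual ℝ Ell1) →L[ℝ] Ell1 :=
  LinearMap.mkContinuous
    { toFun := projFun
      map_add' := by
        intro ζ η
        ext i
        rfl
      map_smul' := by
        intro c ζ
        ext i
        rfl }
    1 (by
      intro ζ
      rw [one_mul]
      exact norm_projFun_le ζ)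

theorem proj_apply (ζ : StrongDual ℝ (StrongDual ℝ Ell1)) (i : ℕ) : proj ζ i = ζ (coord i) := rfl

theorem norm_proj_le (ζ : StrongDual ℝ (StrongDual ℝ Ell1)) : ‖proj ζ‖ ≤ ‖ζ‖ :=
  norm_projFun_le ζ

theorem proj_inclusion (x : Ell1) : proj (inclusionInDoubleDual ℝ Ell1 x) = x := by
  ext i
  rw [proj_apply, dual_def, coord_apply]

theorem norm_add_norm_le (ζ : StrongDual ℝ (StrongDual ℝ Ell1)) :
    ‖proj ζ‖ + ‖ζ - inclusionInDoubleDual ℝ Ell1 (proj ζ)‖ ≤ ‖ζ‖ := by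
  set z := proj ζ with hz
  set η := ζ - inclusionInDoubleDual ℝ Ell1 z with hη
  have hηc : ∀ i, η (coord i) = 0 := by
    intro i
    rw [hη, _root_.sub_apply, dual_def, coord_apply, hz, proj_apply, sub_self]
  have hζη : ∀ ψ, ζ ψ = η ψ + ψ z := by
    intro ψ
    rw [hη, _root_.sub_apply, dual_def]
    ring
  have main : ∀ ψ : StrongDual ℝ Ell1, η ψ ≤ (‖ζ‖ - ‖z‖) * ‖ψ‖ := by
    intro ψ
    have hfin : ∀ s : Finset ℕ, η ψ ≤ (‖ζ‖ + ‖z‖ - 2 * ∑ i ∈ s, ‖z i‖) * ‖ψ‖ := by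
      intro s
      set φ : StrongDual ℝ Ell1 := (∑ i ∈ s, (‖ψ‖ * (SignType.sign (z i) : ℝ)) • coord i) +
        (ψ - ∑ i ∈ s, ψ (e i) • coord i) with hφ
      have h1 : ‖φ‖ ≤ ‖ψ‖ := norm_test_le s _ (fun i => abs_sign_le _) ψ
      have h2 : η φ = η ψ := by
        rw [hφ, map_add, map_sub, map_sum, map_sum]
        simp [map_smul, hηc]
      have h3 : φ z = ‖ψ‖ * ∑ i ∈ s, ‖z i‖ + ψ (z - tr s z) := by
        have h31 : (ψ - ∑ i ∈ s, ψ (e i) • coord i) z = ψ (z - tr s z) := by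
          unfold tr
          rw [_root_.sub_apply, _root_.sum_apply, map_sub, map_sum]
          congr 1
          refine Finset.sum_congr rfl fun i _ => ?_
          rw [single_eq, map_smul, _root_.smul_apply, smul_eq_mul, smul_eq_mul,
            mul_comm]
          rfl
        rw [hφ, _root_.add_apply, h31, _root_.sum_apply, Finset.mul_sum]
        congr 1
        refine Finset.sum_congr rfl fun i _ => ?_
        rw [_root_.smul_apply, smul_eq_mul, coord_apply, mul_assoc, sign_mul_self,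
          Real.norm_eq_abs]
      have h4 : ζ φ ≤ ‖ζ‖ * ‖ψ‖ :=
        calc ζ φ ≤ ‖ζ φ‖ := Real.le_norm_self _
          _ ≤ ‖ζ‖ * ‖φ‖ := ζ.le_opNorm _
          _ ≤ ‖ζ‖ * ‖ψ‖ := by gcongr
      have h5 : -(‖ψ‖ * (‖z‖ - ∑ i ∈ s, ‖z i‖)) ≤ ψ (z - tr s z) := by
        rw [← norm_sub_tr]
        have := ψ.le_opNorm (z - tr s z)
        rw [Real.norm_eq_abs] at this
        exact (abs_le.1 this).1
      rw [hζη, h2, h3] at h4
      nlinarith
    have hlim : Tendsto (fun s : Finset ℕ => (‖ζ‖ + ‖z‖ - 2 * ∑ i ∈ s, ‖z i‖) * ‖ψ‖) atTop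
        (𝓝 ((‖ζ‖ + ‖z‖ - 2 * ‖z‖) * ‖ψ‖)) := by
      have h1 : HasSum (fun i => ‖z i‖) ‖z‖ := by
        rw [norm_eq z]; exact (summable z).hasSum
      exact ((h1.const_mul 2).const_sub _).mul_const _
    have := ge_of_tendsto hlim (Eventually.of_forall hfin)
    linarith
  have hle : ‖η‖ ≤ ‖ζ‖ - ‖z‖ := by
    have hnn : 0 ≤ ‖ζ‖ - ‖z‖ := by
      have h1 : ‖z‖ ≤ ‖ζ‖ := norm_proj_le ζ
      linarith
    apply ContinuousLinearMap.opNorm_le_bound _ hnn
    intro ψ
    rw [Real.norm_eq_abs, abs_le]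
    constructor
    · have := main (-ψ)
      rw [map_neg, norm_neg] at this
      linarith
    · exact main ψ
  linarith

theorem two_mul_min_le (ζ : StrongDual ℝ (StrongDual ℝ Ell1)) :
    2 * min ‖proj ζ‖ ‖ζ - inclusionInDoubleDual ℝ Ell1 (proj ζ)‖ ≤ ‖ζ‖ := by
  have h1 := norm_add_norm_le ζ
  have h2 := min_le_left ‖proj ζ‖ ‖ζ - inclusionInDoubleDual ℝ Ell1 (proj ζ)‖
  have h3 := min_le_right ‖proj ζ‖ ‖ζ - inclusionInDoubleDual ℝ Ell1 (proj ζ)‖
  linarith

/-- Local Lipschitz rigidity of `ℓ₁` for distortion less than `2`. -/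
theorem nonempty_equiv {Y : Type*} [NormedAddCommGroup Y] [NormedSpace ℝ Y] [CompleteSpace Y]
    (e : OpenPartialHomeomorph Y Ell1) (hne : e.source.Nonempty) {K L : ℝ≥0}
    (hK : LipschitzOnWith K e e.source) (hL : LipschitzOnWith L e.symm e.target)
    (hKL : (K : ℝ) * L < 2) : Nonempty (Y ≃L[ℝ] Ell1) := by
  have := separable
  obtain ⟨eZ⟩ := nonempty_dualEquiv
  exact nonempty_equiv_of_small_distortion eZ proj proj_inclusion two_pos
    two_mul_min_le (p := 1) (by simp) nonempty_flatEquiv e hne hK hL hKL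

end Ell1

end Pool.Agent.H23
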