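import Mathlib
import Pool.Agent.H23.Gateaux

/-!
# Linear liftings from Lipschitz liftings (Godefroy-Kalton)
-/

open Set Filter Topology Metric TopologicalSpace MeasureTheory
open scoped NNReal ENNReal

namespace Pool.Agent.H23

section Avg

variable {Y X : Type*} [NormedAddCommGroup Y] [NormedSpace ℝ Y]
  [NormedAddCommGroup X] [NormedSpace ℝ X]

/-- The average of `h` along the segment from `y` to `y + v`. -/
noncomputable def avg (v : Y) (h : Y → X) (y : Y) : X := ∫ t in (0 : ℝ)..1, h (y + t • v)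

theorem intervalIntegrable_line {h : Y → X} (hh : Continuous h) (y v : Y) (a b : ℝ) :
    IntervalIntegrable (fun t : ℝ => h (y + t • v)) volume a b :=
  (by fun_prop : Continuous (fun t : ℝ => h (y + t • v))).intervalIntegrable a b

theorem avg_sub_le {h h' : Y → X} (hh : Continuous h) (hh' : Continuous h') {C : ℝ} {v y y' : Y}
    (hC : ∀ t : ℝ, ‖h (y + t • v) - h' (y' + t • v)‖ ≤ C) : ‖avg v h y - avg v h' y'‖ ≤ C := by
  unfold avg
  rw [← intervalIntegral.integral_sub (intervalIntegrable_line hh y v 0 1)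
    (intervalIntegrable_line hh' y' v 0 1)]
  have h1 := intervalIntegral.norm_integral_le_of_norm_le_const (a := 0) (b := 1) (C := C)
    (f := fun t : ℝ => h (y + t • v) - h' (y' + t • v)) (fun t _ => hC t)
  simpa using h1

theorem lipschitz_avg {h : Y → X} {K : ℝ≥0} (hh : LipschitzWith K h) (v : Y) :
    LipschitzWith K (avg v h) := by
  apply LipschitzWith.of_dist_le_mul
  intro y y'
  rw [dist_eq_norm, dist_eq_norm]
  apply avg_sub_le hh.continuous hh.continuous
  intro t
  have h1 := hh.dist_le_mul (y + t • v) (y' + t • v)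
  rwa [dist_eq_norm, dist_eq_norm, add_sub_add_right_eq_sub] at h1

theorem norm_avg_sub_self_le [CompleteSpace X] {h : Y → X} {K : ℝ≥0} (hh : LipschitzWith K h)
    (v y : Y) : ‖avg v h y - h y‖ ≤ K * ‖v‖ := by
  have h0 : h y = ∫ _ in (0 : ℝ)..1, h y := by simp
  unfold avg
  rw [h0, ← intervalIntegral.integral_sub (intervalIntegrable_line hh.continuous y v 0 1)
    intervalIntegrable_const]
  have h1 := intervalIntegral.norm_integral_le_of_norm_le_const (a := 0) (b := 1)
    (C := K * ‖v‖) (f := fun t : ℝ => h (y + t • v) - h y) (fun t ht => by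
      rw [uIoc_of_le zero_le_one] at ht
      have h2 := hh.dist_le_mul (y + t • v) y
      rw [dist_eq_norm, dist_eq_norm, add_sub_cancel_left, norm_smul, Real.norm_eq_abs,
        abs_of_pos ht.1] at h2
      refine h2.trans ?_
      gcongr
      exact mul_le_of_le_one_left (norm_nonneg _) ht.2)
  simpa using h1

/-- Quantitative differentiability of `F` along `v`. -/
def SmoothAlong (F : Y → X) (v : Y) : Prop :=
  ∃ (g : Y → X) (C : ℝ) (L : ℝ≥0), 0 ≤ C ∧ LipschitzWith L g ∧
    ∀ (y : Y) (s : ℝ), ‖F (y + s • v) - F y - s • g y‖ ≤ C * s ^ 2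

theorem SmoothAlong.add {F : Y → X} {v w : Y} (hv : SmoothAlong F v) (hw : SmoothAlong F w) :
    SmoothAlong F (v + w) := by
  obtain ⟨g, C, L, hC, hL, hg⟩ := hv
  obtain ⟨g', C', L', hC', hL', hg'⟩ := hw
  refine ⟨fun y => g y + g' y, C + C' + L' * ‖v‖, L + L', by positivity, hL.add hL', ?_⟩
  intro y s
  have h1 := hg y s
  have h2 := hg' (y + s • v) s
  have h3 : ‖s • g' (y + s • v) - s • g' y‖ ≤ L' * ‖v‖ * s ^ 2 := by
    rw [← smul_sub, norm_smul]
    have h4 := hL'.dist_le_mul (y + s • v) y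
    rw [dist_eq_norm, dist_eq_norm, add_sub_cancel_left, norm_smul] at h4
    calc ‖s‖ * ‖g' (y + s • v) - g' y‖ ≤ ‖s‖ * (L' * (‖s‖ * ‖v‖)) := by gcongr
      _ = L' * ‖v‖ * (‖s‖ * ‖s‖) := by ring
      _ = L' * ‖v‖ * s ^ 2 := by rw [Real.norm_eq_abs, abs_mul_abs_self, sq]
  have h5 : F (y + s • (v + w)) - F y - s • (g y + g' y) =
      (F (y + s • v + s • w) - F (y + s • v) - s • g' (y + s • v)) +
        (F (y + s • v) - F y - s • g y) + (s • g' (y + s • v) - s • g' y) := by
    rw [smul_add, smul_add, add_assoc y]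
    abel
  rw [h5]
  calc _ ≤ ‖F (y + s • v + s • w) - F (y + s • v) - s • g' (y + s • v)‖ +
        ‖F (y + s • v) - F y - s • g y‖ + ‖s • g' (y + s • v) - s • g' y‖ := norm_add₃_le
    _ ≤ C' * s ^ 2 + C * s ^ 2 + L' * ‖v‖ * s ^ 2 := by gcongr
    _ = (C + C' + L' * ‖v‖) * s ^ 2 := by ring

theorem SmoothAlong.smul {F : Y → X} {v : Y} (hv : SmoothAlong F v) (c : ℝ) :
    SmoothAlong F (c • v) := by
  obtain ⟨g, C, L, hC, hL, hg⟩ := hv
  refine ⟨fun y => c • g y, C * c ^ 2, ‖c‖₊ * L, by positivity, ?_, ?_⟩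
  · apply LipschitzWith.of_dist_le_mul
    intro x y
    rw [dist_eq_norm, ← smul_sub, norm_smul, ← dist_eq_norm]
    have := hL.dist_le_mul x y
    calc ‖c‖ * dist (g x) (g y) ≤ ‖c‖ * (L * dist x y) := by gcongr
      _ = ((‖c‖₊ * L : ℝ≥0) : ℝ) * dist x y := by push_cast; ring
  · intro y s
    have h1 := hg y (s * c)
    rw [smul_smul, smul_smul]
    calc ‖F (y + (s * c) • v) - F y - (s * c) • g y‖ ≤ C * (s * c) ^ 2 := h1
      _ = C * c ^ 2 * s ^ 2 := by ring

theorem SmoothAlong.hasLineDerivAt {F : Y → X} {v : Y} (hv : SmoothAlong F v) (y : Y) :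
    LineDifferentiableAt ℝ F y v := by
  obtain ⟨g, C, L, hC, hL, hg⟩ := hv
  have : HasLineDerivAt ℝ F (g y) y v := by
    rw [hasLineDerivAt_iff_tendsto_slope_zero]
    rw [tendsto_iff_norm_sub_tendsto_zero]
    have h1 : Tendsto (fun s : ℝ => C * ‖s‖) (𝓝[≠] 0) (𝓝 0) := by
      have h2 : Tendsto (fun s : ℝ => C * ‖s‖) (𝓝 0) (𝓝 (C * ‖(0 : ℝ)‖)) :=
        (continuous_const.mul continuous_norm).tendsto 0
      rw [norm_zero, mul_zero] at h2
      exact h2.mono_left nhdsWithin_le_nhds
    refine squeeze_zero' (Eventually.of_forall fun s => norm_nonneg _) ?_ h1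
    have hne0 : ∀ᶠ t in 𝓝[≠] (0 : ℝ), t ≠ 0 := self_mem_nhdsWithin
    filter_upwards [hne0] with s hs
    have h3 := hg y s
    have h4 : s⁻¹ • (F (y + s • v) - F y) - g y = s⁻¹ • (F (y + s • v) - F y - s • g y) := by
      rw [smul_sub s⁻¹ (F (y + s • v) - F y), smul_smul, inv_mul_cancel₀ hs, one_smul]
    rw [h4, norm_smul, norm_inv]
    have h5 : 0 < ‖s‖ := norm_pos_iff.2 hs
    calc ‖s‖⁻¹ * ‖F (y + s • v) - F y - s • g y‖ ≤ ‖s‖⁻¹ * (C * s ^ 2) := by gcongr
      _ = ‖s‖⁻¹ * (C * (‖s‖ * ‖s‖)) := by rw [Real.norm_eq_abs, abs_mul_abs_self, sq]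
      _ = C * ‖s‖ := by field_simp
  exact this.lineDifferentiableAt

theorem SmoothAlong.avg [CompleteSpace X] {F : Y → X} {v : Y} (hv : SmoothAlong F v)
    (hF : Continuous F) (w : Y) : SmoothAlong (avg w F) v := by
  obtain ⟨g, C, L, hC, hL, hg⟩ := hv
  refine ⟨Pool.Agent.H23.avg w g, C, L, hC, lipschitz_avg hL w, ?_⟩
  intro y s
  have hgi : IntervalIntegrable (fun t : ℝ => s • g (y + t • w)) volume 0 1 :=
    (intervalIntegrable_line hL.continuous y w 0 1).smul s
  unfold Pool.Agent.H23.avg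
  rw [← intervalIntegral.integral_smul,
    ← intervalIntegral.integral_sub (intervalIntegrable_line hF (y + s • v) w 0 1)
      (intervalIntegrable_line hF y w 0 1),
    ← intervalIntegral.integral_sub ((intervalIntegrable_line hF (y + s • v) w 0 1).sub
      (intervalIntegrable_line hF y w 0 1)) hgi]
  have h1 := intervalIntegral.norm_integral_le_of_norm_le_const (a := 0) (b := 1)
    (C := C * s ^ 2) (f := fun t : ℝ => F (y + s • v + t • w) - F (y + t • w) - s • g (y + t • w))
    (fun t _ => by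
      have h2 := hg (y + t • w) s
      rwa [add_right_comm] at h2)
  simpa using h1

theorem smoothAlong_avg_self [CompleteSpace X] {h : Y → X} {K : ℝ≥0} (hh : LipschitzWith K h)
    (v : Y) : SmoothAlong (avg v h) v := by
  refine ⟨fun y => h (y + v) - h y, 2 * K * ‖v‖, K + K, by positivity, ?_, ?_⟩
  · apply LipschitzWith.of_dist_le_mul
    intro x y
    have h1 := hh.dist_le_mul (x + v) (y + v)
    have h2 := hh.dist_le_mul x y
    rw [dist_eq_norm, dist_eq_norm, add_sub_add_right_eq_sub] at h1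
    rw [dist_eq_norm, dist_eq_norm] at h2
    rw [dist_eq_norm, dist_eq_norm]
    have h3 : h (x + v) - h x - (h (y + v) - h y) = (h (x + v) - h (y + v)) - (h x - h y) := by
      abel
    rw [h3]
    calc _ ≤ ‖h (x + v) - h (y + v)‖ + ‖h x - h y‖ := norm_sub_le _ _
      _ ≤ K * ‖x - y‖ + K * ‖x - y‖ := add_le_add h1 h2
      _ = ((K + K : ℝ≥0) : ℝ) * ‖x - y‖ := by push_cast; ring
  · intro y s
    have hc := hh.continuous
    have e1 : avg v h (y + s • v) = ∫ t in s..(1 + s), h (y + t • v) := by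
      unfold avg
      have h1 := intervalIntegral.integral_comp_add_right (a := (0 : ℝ)) (b := 1)
        (fun t : ℝ => h (y + t • v)) s
      rw [zero_add] at h1
      rw [← h1]
      congr 1
      funext t
      rw [add_smul, add_assoc, add_comm (s • v)]
    have e2 : avg v h (y + s • v) - avg v h y =
        (∫ t in (0 : ℝ)..s, h (y + (t + 1) • v)) - ∫ t in (0 : ℝ)..s, h (y + t • v) := by
      have h2 := intervalIntegral.integral_comp_add_right (a := (0 : ℝ)) (b := s)
        (fun t : ℝ => h (y + t • v)) 1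
      rw [e1]
      unfold avg
      have i1 := intervalIntegrable_line hc y v
      rw [h2, zero_add]
      have h3 := intervalIntegral.integral_interval_sub_interval_comm' (i1 s (1 + s)) (i1 0 1)
        (i1 s 0)
      rw [h3, add_comm s 1, intervalIntegral.integral_symm s 0, sub_neg_eq_add,
        intervalIntegral.integral_symm]
    have i1 := intervalIntegrable_line hc y v 0 s
    have i2 : IntervalIntegrable (fun t : ℝ => h (y + (t + 1) • v)) volume 0 s :=
      (by fun_prop : Continuous (fun t : ℝ => h (y + (t + 1) • v))).intervalIntegrable 0 s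
    have e3 : avg v h (y + s • v) - avg v h y - s • (h (y + v) - h y) =
        ∫ t in (0 : ℝ)..s, ((h (y + (t + 1) • v) - h (y + t • v)) - (h (y + v) - h y)) := by
      rw [e2, ← intervalIntegral.integral_sub i2 i1, intervalIntegral.integral_sub (i2.sub i1)
        intervalIntegrable_const]
      simp [smul_sub]
    rw [e3]
    have h4 := intervalIntegral.norm_integral_le_of_norm_le_const (a := 0) (b := s)
      (C := 2 * K * ‖v‖ * |s|)
      (f := fun t : ℝ => (h (y + (t + 1) • v) - h (y + t • v)) - (h (y + v) - h y))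
      (fun t ht => by
        have hts : |t| ≤ |s| := by
          rcases le_total 0 s with h0 | h0
          · rw [uIoc_of_le h0] at ht
            rw [abs_of_pos ht.1, abs_of_nonneg h0]
            exact ht.2
          · rw [uIoc_of_ge h0] at ht
            rw [abs_of_nonpos ht.2, abs_of_nonpos h0]
            linarith [ht.1]
        have h5 := hh.dist_le_mul (y + (t + 1) • v) (y + v)
        have h6 := hh.dist_le_mul (y + t • v) y
        have e5 : y + (t + 1) • v - (y + v) = t • v := by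
          rw [add_smul, one_smul]; abel
        rw [dist_eq_norm, dist_eq_norm, e5, norm_smul, Real.norm_eq_abs] at h5
        rw [dist_eq_norm, dist_eq_norm, add_sub_cancel_left, norm_smul, Real.norm_eq_abs] at h6
        have e6 : (h (y + (t + 1) • v) - h (y + t • v)) - (h (y + v) - h y) =
            (h (y + (t + 1) • v) - h (y + v)) - (h (y + t • v) - h y) := by abel
        rw [e6]
        calc _ ≤ ‖h (y + (t + 1) • v) - h (y + v)‖ + ‖h (y + t • v) - h y‖ := norm_sub_le _ _
          _ ≤ K * (|t| * ‖v‖) + K * (|t| * ‖v‖) := add_le_add h5 h6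
          _ ≤ K * (|s| * ‖v‖) + K * (|s| * ‖v‖) := by gcongr
          _ = 2 * K * ‖v‖ * |s| := by ring)
    refine h4.trans (le_of_eq ?_)
    rw [sub_zero, mul_assoc, abs_mul_abs_self, sq]

end Avg

section Lift

variable {Y X : Type*} [NormedAddCommGroup Y] [NormedSpace ℝ Y]
  [NormedAddCommGroup X] [NormedSpace ℝ X]

/-- Iterated averages. -/
noncomputable def iterAvg (e : ℕ → Y) (σ : Y → X) : ℕ → ℕ → Y → X
  | 0, _ => σ
  | k + 1, n => avg (e n) (iterAvg e σ k (n + 1))

theorem lipschitz_iterAvg {e : ℕ → Y} {σ : Y → X} {K : ℝ≥0} (hσ : LipschitzWith K σ) :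
    ∀ k n, LipschitzWith K (iterAvg e σ k n)
  | 0, _ => hσ
  | k + 1, n => lipschitz_avg (lipschitz_iterAvg hσ k (n + 1)) (e n)

theorem norm_iterAvg_succ_sub_le [CompleteSpace X] {e : ℕ → Y} {σ : Y → X} {K : ℝ≥0}
    (hσ : LipschitzWith K σ) :
    ∀ (k n : ℕ) (y : Y), ‖iterAvg e σ (k + 1) n y - iterAvg e σ k n y‖ ≤ K * ‖e (n + k)‖
  | 0, n, y => norm_avg_sub_self_le hσ (e n) y
  | k + 1, n, y => by
    have h1 := norm_iterAvg_succ_sub_le (e := e) hσ k (n + 1)
    show ‖avg (e n) (iterAvg e σ (k + 1) (n + 1)) y - avg (e n) (iterAvg e σ k (n + 1)) y‖ ≤ _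
    have h2 : n + (k + 1) = n + 1 + k := by ring
    rw [h2]
    exact avg_sub_le (lipschitz_iterAvg hσ _ _).continuous (lipschitz_iterAvg hσ _ _).continuous
      fun t => h1 _

theorem map_avg_sub [CompleteSpace X] [CompleteSpace Y] (T : X →L[ℝ] Y) {h : Y → X}
    (hh : Continuous h) (hT : ∀ y y', T (h y) - T (h y') = y - y') (v y y' : Y) :
    T (avg v h y) - T (avg v h y') = y - y' := by
  unfold avg
  rw [← T.intervalIntegral_comp_comm (intervalIntegrable_line hh y v 0 1),
    ← T.intervalIntegral_comp_comm (intervalIntegrable_line hh y' v 0 1),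
    ← intervalIntegral.integral_sub
      ((by fun_prop : Continuous (fun t : ℝ => T (h (y + t • v)))).intervalIntegrable 0 1)
      ((by fun_prop : Continuous (fun t : ℝ => T (h (y' + t • v)))).intervalIntegrable 0 1)]
  have h1 : (fun t : ℝ => T (h (y + t • v)) - T (h (y' + t • v))) = fun _ => y - y' := by
    funext t
    rw [hT, add_sub_add_right_eq_sub]
  rw [h1]
  simp

theorem map_iterAvg_sub [CompleteSpace X] [CompleteSpace Y] (T : X →L[ℝ] Y) {e : ℕ → Y}
    {σ : Y → X} {K : ℝ≥0} (hσ : LipschitzWith K σ) (hT : ∀ y, T (σ y) = y) :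
    ∀ (k n : ℕ) (y y' : Y), T (iterAvg e σ k n y) - T (iterAvg e σ k n y') = y - y'
  | 0, _, y, y' => by
    show T (σ y) - T (σ y') = y - y'
    rw [hT, hT]
  | k + 1, n, y, y' =>
    map_avg_sub T (lipschitz_iterAvg hσ _ _).continuous (map_iterAvg_sub T hσ hT k (n + 1)) _ _ _

/-- **Godefroy-Kalton**: a bounded operator onto a separable Banach space which has a Lipschitz
right inverse has a bounded linear right inverse. -/
theorem exists_linear_lifting [CompleteSpace X] [CompleteSpace Y] [SeparableSpace Y]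
    (T : X →L[ℝ] Y) {σ : Y → X} {K : ℝ≥0} (hσ : LipschitzWith K σ) (hT : ∀ y, T (σ y) = y) :
    ∃ U : Y →L[ℝ] X, ∀ y, T (U y) = y := by
  obtain ⟨w, hw⟩ := TopologicalSpace.exists_dense_seq Y
  let c : ℕ → ℝ := fun i => 1 / 2 / 2 ^ i / (1 + ‖w i‖)
  have hc : ∀ i, 0 < c i := fun i => by positivity
  let e : ℕ → Y := fun i => c i • w i
  have he : ∀ i, ‖e i‖ ≤ 1 / 2 / 2 ^ i := by
    intro i
    simp only [e, norm_smul, Real.norm_eq_abs, abs_of_pos (hc i)]
    simp only [c]
    rw [div_mul_eq_mul_div, div_le_iff₀ (by positivity)]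
    have : (0 : ℝ) < 1 / 2 / 2 ^ i := by positivity
    nlinarith [norm_nonneg (w i)]
  have hwe : ∀ i, w i = (c i)⁻¹ • e i := by
    intro i
    simp only [e, smul_smul]
    rw [inv_mul_cancel₀ (hc i).ne', one_smul]
  have hgeo : HasSum (fun i : ℕ => (1 : ℝ) / 2 / 2 ^ i) 1 := hasSum_geometric_two' _
  have hsum : Summable fun i => ‖e i‖ :=
    Summable.of_nonneg_of_le (fun i => norm_nonneg _) he hgeo.summable
  have hsum' : ∀ n, Summable fun k => (K : ℝ) * ‖e (n + k)‖ := by
    intro n
    have h1 : Summable fun k => ‖e (k + n)‖ := (summable_nat_add_iff n).2 hsum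
    have h2 : (fun k => (K : ℝ) * ‖e (n + k)‖) = fun k => (K : ℝ) * ‖e (k + n)‖ := by
      funext k; rw [add_comm]
    rw [h2]
    exact h1.mul_left _
  have hd : ∀ n y k, dist (iterAvg e σ k n y) (iterAvg e σ (k + 1) n y) ≤ K * ‖e (n + k)‖ := by
    intro n y k
    rw [dist_comm, dist_eq_norm]
    exact norm_iterAvg_succ_sub_le hσ k n y
  have hcau : ∀ n y, CauchySeq fun k => iterAvg e σ k n y := fun n y =>
    cauchySeq_of_dist_le_of_summable _ (hd n y) (hsum' n)
  choose H hH using fun n y => cauchySeq_tendsto_of_complete (hcau n y)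
  have htail : ∀ n y k, dist (iterAvg e σ k n y) (H n y) ≤ ∑' m, (K : ℝ) * ‖e (n + (k + m))‖ :=
    fun n y k => dist_le_tsum_of_dist_le_of_tendsto _ (hd n y) (hsum' n) (hH n y) k
  have hHlip : ∀ n, LipschitzWith K (H n) := by
    intro n
    apply LipschitzWith.of_dist_le_mul
    intro y y'
    refine le_of_tendsto ((hH n y).dist (hH n y')) (Eventually.of_forall fun k => ?_)
    exact (lipschitz_iterAvg hσ k n).dist_le_mul y y'
  have hHavg : ∀ n, H n = avg (e n) (H (n + 1)) := by
    intro n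
    funext y
    refine tendsto_nhds_unique ((hH n y).comp (tendsto_add_atTop_nat 1)) ?_
    have h0 : Tendsto (fun k => ∑' m, (K : ℝ) * ‖e (n + 1 + (k + m))‖) atTop (𝓝 0) := by
      have h1 := tendsto_sum_nat_add (fun k => (K : ℝ) * ‖e (n + 1 + k)‖)
      refine h1.congr fun k => ?_
      congr 1
      funext m
      rw [add_comm m k]
    rw [tendsto_iff_norm_sub_tendsto_zero]
    refine squeeze_zero (fun _ => norm_nonneg _) (fun k => ?_) h0
    show ‖avg (e n) (iterAvg e σ k (n + 1)) y - avg (e n) (H (n + 1)) y‖ ≤ _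
    refine avg_sub_le (lipschitz_iterAvg hσ _ _).continuous (hHlip _).continuous fun t => ?_
    rw [← dist_eq_norm]
    exact htail _ _ _
  have hsm : ∀ n m, SmoothAlong (H n) (e (n + m)) := by
    intro n m
    induction m generalizing n with
    | zero =>
      rw [hHavg n]
      exact smoothAlong_avg_self (hHlip (n + 1)) (e n)
    | succ m ih =>
      have h1 := ih (n + 1)
      have h2 : n + (m + 1) = n + 1 + m := by ring
      rw [h2, hHavg n]
      exact h1.avg (hHlip (n + 1)).continuous (e n)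
  set S := H 0 with hS
  have hSlip : LipschitzWith K S := hHlip 0
  have hSw : ∀ i, SmoothAlong S (w i) := by
    intro i
    have h1 := hsm 0 i
    rw [zero_add] at h1
    rw [hwe i]
    exact h1.smul _
  have hTS : ∀ y y', T (S y) - T (S y') = y - y' := by
    intro y y'
    have h1 : Tendsto (fun k => T (iterAvg e σ k 0 y) - T (iterAvg e σ k 0 y')) atTop
        (𝓝 (T (S y) - T (S y'))) :=
      ((T.continuous.tendsto _).comp (hH 0 y)).sub ((T.continuous.tendsto _).comp (hH 0 y'))
    refine tendsto_nhds_unique h1 ?_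
    have h2 : (fun k => T (iterAvg e σ k 0 y) - T (iterAvg e σ k 0 y')) = fun _ => y - y' := by
      funext k
      exact map_iterAvg_sub T hσ hT k 0 y y'
    rw [h2]
    exact tendsto_const_nhds
  have hline : ∀ v, LineDifferentiableAt ℝ S 0 v :=
    lineDifferentiableAt_of_dense hSlip hw fun i => (hSw i).hasLineDerivAt 0
  have hbd : ∀ v, ‖lineDeriv ℝ S 0 v‖ ≤ K * ‖v‖ := fun v => norm_lineDeriv_le_of_lipschitz ℝ hSlip
  have hlip : ∀ v v', ‖lineDeriv ℝ S 0 v - lineDeriv ℝ S 0 v'‖ ≤ K * ‖v - v'‖ := by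
    intro v v'
    have h1 := (hline v).hasLineDerivAt
    have h2 := (hline v').hasLineDerivAt
    rw [hasLineDerivAt_iff_tendsto_slope_zero] at h1 h2
    refine le_of_tendsto (h1.sub h2).norm (Eventually.of_forall fun t => ?_)
    rw [← smul_sub]
    by_cases ht : t = 0
    · subst ht; simp; positivity
    · have h3 := hSlip.dist_le_mul (0 + t • v) (0 + t • v')
      rw [dist_eq_norm, dist_eq_norm] at h3
      have h4 : 0 + t • v - (0 + t • v') = t • (v - v') := by rw [smul_sub]; abel
      rw [h4, norm_smul] at h3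
      have h5 : S (0 + t • v) - S 0 - (S (0 + t • v') - S 0) = S (0 + t • v) - S (0 + t • v') := by
        abel
      rw [h5, norm_smul, norm_inv]
      have h6 : 0 < ‖t‖ := norm_pos_iff.2 ht
      calc ‖t‖⁻¹ * ‖S (0 + t • v) - S (0 + t • v')‖ ≤ ‖t‖⁻¹ * (K * (‖t‖ * ‖v - v'‖)) := by gcongr
        _ = K * ‖v - v'‖ := by field_simp
  have hcontd : Continuous (fun v => lineDeriv ℝ S 0 v) := by
    have : LipschitzWith K (fun v => lineDeriv ℝ S 0 v) :=
      LipschitzWith.of_dist_le_mul fun v v' => by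
        rw [dist_eq_norm, dist_eq_norm]; exact hlip v v'
    exact this.continuous
  have haddS : ∀ {v v'}, SmoothAlong S v → SmoothAlong S v' →
      lineDeriv ℝ S 0 (v + v') = lineDeriv ℝ S 0 v + lineDeriv ℝ S 0 v' := by
    intro v v' hv hv'
    obtain ⟨g, C, L, hC, hL, hg⟩ := hv
    obtain ⟨g', C', L', hC', hL', hg'⟩ := hv'
    have key : ∀ {u : Y} {G : Y → X} {D : ℝ}, 0 ≤ D →
        (∀ (y : Y) (s : ℝ), ‖S (y + s • u) - S y - s • G y‖ ≤ D * s ^ 2) →
        HasLineDerivAt ℝ S (G 0) 0 u := by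
      intro u G D hD hG
      rw [hasLineDerivAt_iff_tendsto_slope_zero, tendsto_iff_norm_sub_tendsto_zero]
      have h1 : Tendsto (fun s : ℝ => D * ‖s‖) (𝓝[≠] 0) (𝓝 0) := by
        have h2 : Tendsto (fun s : ℝ => D * ‖s‖) (𝓝 0) (𝓝 (D * ‖(0 : ℝ)‖)) :=
          (continuous_const.mul continuous_norm).tendsto 0
        rw [norm_zero, mul_zero] at h2
        exact h2.mono_left nhdsWithin_le_nhds
      refine squeeze_zero' (Eventually.of_forall fun s => norm_nonneg _) ?_ h1
      have hne0 : ∀ᶠ t in 𝓝[≠] (0 : ℝ), t ≠ 0 := self_mem_nhdsWithin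
      filter_upwards [hne0] with s hs
      have h3 := hG 0 s
      have h4 : s⁻¹ • (S (0 + s • u) - S 0) - G 0 = s⁻¹ • (S (0 + s • u) - S 0 - s • G 0) := by
        rw [smul_sub s⁻¹ (S (0 + s • u) - S 0), smul_smul, inv_mul_cancel₀ hs, one_smul]
      rw [h4, norm_smul, norm_inv]
      have h5 : 0 < ‖s‖ := norm_pos_iff.2 hs
      calc ‖s‖⁻¹ * ‖S (0 + s • u) - S 0 - s • G 0‖ ≤ ‖s‖⁻¹ * (D * s ^ 2) := by gcongr
        _ = ‖s‖⁻¹ * (D * (‖s‖ * ‖s‖)) := by rw [Real.norm_eq_abs, abs_mul_abs_self, sq]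
        _ = D * ‖s‖ := by field_simp
    have hsumd : HasLineDerivAt ℝ S (g 0 + g' 0) 0 (v + v') := by
      refine key (u := v + v') (G := fun y => g y + g' y) (D := C + C' + L' * ‖v‖)
        (by positivity) ?_
      intro y s
      have h1 := hg y s
      have h2 := hg' (y + s • v) s
      have h3 : ‖s • g' (y + s • v) - s • g' y‖ ≤ L' * ‖v‖ * s ^ 2 := by
        rw [← smul_sub, norm_smul]
        have h4 := hL'.dist_le_mul (y + s • v) y
        rw [dist_eq_norm, dist_eq_norm, add_sub_cancel_left, norm_smul] at h4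
        calc ‖s‖ * ‖g' (y + s • v) - g' y‖ ≤ ‖s‖ * (L' * (‖s‖ * ‖v‖)) := by gcongr
          _ = L' * ‖v‖ * (‖s‖ * ‖s‖) := by ring
          _ = L' * ‖v‖ * s ^ 2 := by rw [Real.norm_eq_abs, abs_mul_abs_self, sq]
      have h5 : S (y + s • (v + v')) - S y - s • (g y + g' y) =
          (S (y + s • v + s • v') - S (y + s • v) - s • g' (y + s • v)) +
            (S (y + s • v) - S y - s • g y) + (s • g' (y + s • v) - s • g' y) := by
        rw [smul_add, smul_add, add_assoc y]
        abel
      rw [h5]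
      calc _ ≤ ‖S (y + s • v + s • v') - S (y + s • v) - s • g' (y + s • v)‖ +
            ‖S (y + s • v) - S y - s • g y‖ + ‖s • g' (y + s • v) - s • g' y‖ := norm_add₃_le
        _ ≤ C' * s ^ 2 + C * s ^ 2 + L' * ‖v‖ * s ^ 2 := by gcongr
        _ = (C + C' + L' * ‖v‖) * s ^ 2 := by ring
    rw [hsumd.lineDeriv, (key hC hg).lineDeriv, (key hC' hg').lineDeriv]
  have hadd2 : ∀ v v', lineDeriv ℝ S 0 (v + v') = lineDeriv ℝ S 0 v + lineDeriv ℝ S 0 v' := by
    have hclosed : IsClosed {p : Y × Y | lineDeriv ℝ S 0 (p.1 + p.2)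
        = lineDeriv ℝ S 0 p.1 + lineDeriv ℝ S 0 p.2} :=
      isClosed_eq (hcontd.comp (continuous_fst.add continuous_snd))
        ((hcontd.comp continuous_fst).add (hcontd.comp continuous_snd))
    intro v v'
    exact hw.induction_on₂ (p := fun a b => lineDeriv ℝ S 0 (a + b)
        = lineDeriv ℝ S 0 a + lineDeriv ℝ S 0 b) hclosed (fun i j => haddS (hSw i) (hSw j)) v v'
  let A0 : Y →ₗ[ℝ] X :=
    { toFun := fun v => lineDeriv ℝ S 0 v
      map_add' := hadd2
      map_smul' := fun a v => lineDeriv_smul }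
  refine ⟨A0.mkContinuous K hbd, fun v => ?_⟩
  show T (lineDeriv ℝ S 0 v) = v
  have h1 := (hline v).hasLineDerivAt
  rw [hasLineDerivAt_iff_tendsto_slope_zero] at h1
  have h2 := (T.continuous.tendsto _).comp h1
  refine tendsto_nhds_unique h2 ?_
  refine tendsto_const_nhds.congr' ?_
  have hne0 : ∀ᶠ t in 𝓝[≠] (0 : ℝ), t ≠ 0 := self_mem_nhdsWithin
  filter_upwards [hne0] with s hs
  show v = T (s⁻¹ • (S (0 + s • v) - S 0))
  rw [map_smul, map_sub, hTS, add_sub_cancel_left, smul_smul, inv_mul_cancel₀ hs, one_smul]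

end Lift

end Pool.Agent.H23
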