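import Mathlib
import Pool.Agent.H23.Ell1

/-!
# A nonlinear Lipschitz retraction
-/

open Set Filter Topology Metric
open scoped NNReal ENNReal

namespace Pool.Agent.H23

/-- Total variation of the difference of the positive parts of two nondecreasing sequences. -/
theorem sum_abs_sub_pos_le {α α' : ℕ → ℝ} (hα : Monotone α) (hα' : Monotone α')
    (h0 : α 0 ≤ 0) (h0' : α' 0 ≤ 0) {δ : ℝ} (hδ : ∀ n, |α n - α' n| ≤ δ) (N : ℕ) :
    ∑ n ∈ Finset.range N, |(max 0 (α (n + 1)) - max 0 (α n)) -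
        (max 0 (α' (n + 1)) - max 0 (α' n))| ≤
      ∑ n ∈ Finset.range N, |(α (n + 1) - α n) - (α' (n + 1) - α' n)| + 3 * δ := by
  have hδ0 : 0 ≤ δ := (abs_nonneg _).trans (hδ 0)
  have hg : ∀ n, |max 0 (α n) - max 0 (α' n)| ≤ δ := fun n =>
    (abs_max_sub_max_le_max 0 (α n) 0 (α' n)).trans (by
      rw [sub_self, abs_zero]
      exact max_le hδ0 (hδ n))
  suffices H : (∑ n ∈ Finset.range N, |(max 0 (α (n + 1)) - max 0 (α n)) -
        (max 0 (α' (n + 1)) - max 0 (α' n))| ≤
      ∑ n ∈ Finset.range N, |(α (n + 1) - α n) - (α' (n + 1) - α' n)| + 3 * δ) ∧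
      (α N ≤ 0 ∨ α' N ≤ 0 → ∑ n ∈ Finset.range N, |(max 0 (α (n + 1)) - max 0 (α n)) -
        (max 0 (α' (n + 1)) - max 0 (α' n))| = |max 0 (α N) - max 0 (α' N)|) from H.1
  induction N with
  | zero => simp [h0, h0', hδ0]
  | succ N ih =>
    obtain ⟨ih1, ih2⟩ := ih
    rw [Finset.sum_range_succ, Finset.sum_range_succ]
    have hA0 : 0 ≤ ∑ n ∈ Finset.range N, |(α (n + 1) - α n) - (α' (n + 1) - α' n)| :=
      Finset.sum_nonneg fun _ _ => abs_nonneg _
    have hm := hα (Nat.le_succ N)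
    have hm' := hα' (Nat.le_succ N)
    by_cases hN : α N ≤ 0 ∨ α' N ≤ 0
    · rw [ih2 hN]
      by_cases hN1 : α (N + 1) ≤ 0 ∨ α' (N + 1) ≤ 0
      · have key : |max 0 (α N) - max 0 (α' N)| + |(max 0 (α (N + 1)) - max 0 (α N)) -
            (max 0 (α' (N + 1)) - max 0 (α' N))| = |max 0 (α (N + 1)) - max 0 (α' (N + 1))| := by
          rcases hN1 with h1 | h1
          · have h2 : α N ≤ 0 := hm.trans h1
            have h3 : max 0 (α' N) ≤ max 0 (α' (N + 1)) := max_le_max le_rfl hm'
            have h4 : 0 ≤ max 0 (α' N) := le_max_left _ _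
            have h5 : 0 ≤ max 0 (α' (N + 1)) := le_max_left _ _
            rw [max_eq_left h1, max_eq_left h2, abs_of_nonpos (by linarith),
              abs_of_nonpos (by linarith), abs_of_nonpos (by linarith)]
            ring
          · have h2 : α' N ≤ 0 := hm'.trans h1
            have h3 : max 0 (α N) ≤ max 0 (α (N + 1)) := max_le_max le_rfl hm
            have h4 : 0 ≤ max 0 (α N) := le_max_left _ _
            have h5 : 0 ≤ max 0 (α (N + 1)) := le_max_left _ _
            rw [max_eq_left h1, max_eq_left h2, abs_of_nonneg (by linarith),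
              abs_of_nonneg (by linarith), abs_of_nonneg (by linarith)]
            ring
        refine ⟨?_, fun _ => key⟩
        rw [key]
        have h1 := hg (N + 1)
        have h2 : 0 ≤ |(α (N + 1) - α N) - (α' (N + 1) - α' N)| := abs_nonneg _
        linarith
      · refine ⟨?_, fun h => absurd h hN1⟩
        have h1 := hg N
        have h2 := hg (N + 1)
        have h3 : |(max 0 (α (N + 1)) - max 0 (α N)) - (max 0 (α' (N + 1)) - max 0 (α' N))| ≤
            |max 0 (α (N + 1)) - max 0 (α' (N + 1))| + |max 0 (α N) - max 0 (α' N)| := by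
          have e : (max 0 (α (N + 1)) - max 0 (α N)) - (max 0 (α' (N + 1)) - max 0 (α' N)) =
            (max 0 (α (N + 1)) - max 0 (α' (N + 1))) - (max 0 (α N) - max 0 (α' N)) := by ring
          rw [e]
          exact abs_sub _ _
        have h4 : 0 ≤ |(α (N + 1) - α N) - (α' (N + 1) - α' N)| := abs_nonneg _
        linarith
    · push Not at hN
      have h1 : 0 < α (N + 1) := hN.1.trans_le hm
      have h1' : 0 < α' (N + 1) := hN.2.trans_le hm'
      refine ⟨?_, fun h => ?_⟩
      · rw [max_eq_right hN.1.le, max_eq_right hN.2.le, max_eq_right h1.le, max_eq_right h1'.le]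
        linarith
      · rcases h with h | h
        · exact absurd h (not_le.2 h1)
        · exact absurd h (not_le.2 h1')

section Path

variable {E : Type*} [NormedAddCommGroup E] [NormedSpace ℝ E] (j : E →ₗᵢ[ℝ] E)

/-- Partial sums along the inductive system `E → E → E → ⋯`. -/
noncomputable def psum (d : ℕ → E) : ℕ → E
  | 0 => d 0
  | n + 1 => j (psum d n) + d (n + 1)

@[simp] theorem psum_zero (d : ℕ → E) : psum j d 0 = d 0 := rfl

@[simp] theorem psum_succ (d : ℕ → E) (n : ℕ) : psum j d (n + 1) = j (psum j d n) + d (n + 1) := rfl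

theorem psum_add (d d' : ℕ → E) (n : ℕ) : psum j (d + d') n = psum j d n + psum j d' n := by
  induction n with
  | zero => simp
  | succ n ih => simp only [psum_succ, ih, map_add, Pi.add_apply]; abel

theorem psum_smul (c : ℝ) (d : ℕ → E) (n : ℕ) : psum j (c • d) n = c • psum j d n := by
  induction n with
  | zero => simp
  | succ n ih => simp only [psum_succ, ih, map_smul, Pi.smul_apply, smul_add]

theorem psum_sub (d d' : ℕ → E) (n : ℕ) : psum j (d - d') n = psum j d n - psum j d' n := by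
  induction n with
  | zero => simp
  | succ n ih => simp only [psum_succ, ih, map_sub, Pi.sub_apply]; abel

theorem norm_psum_le (d : ℕ → E) (n : ℕ) :
    ‖psum j d n‖ ≤ ∑ m ∈ Finset.range (n + 1), ‖d m‖ := by
  induction n with
  | zero => simp
  | succ n ih =>
    rw [psum_succ, Finset.sum_range_succ]
    refine (norm_add_le _ _).trans ?_
    rw [j.norm_map]
    linarith

theorem abs_norm_psum_sub_le (d : ℕ → E) (n : ℕ) :
    |‖psum j d (n + 1)‖ - ‖psum j d n‖| ≤ ‖d (n + 1)‖ := by
  have h1 := abs_norm_sub_norm_le (psum j d (n + 1)) (j (psum j d n))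
  rw [j.norm_map] at h1
  refine h1.trans (le_of_eq ?_)
  rw [psum_succ, add_sub_cancel_left]

end Path

section Space

variable {E : Type*} [NormedAddCommGroup E] [NormedSpace ℝ E]

/-- The space of summable sequences in `E`. -/
abbrev SeqSpace (E : Type*) [NormedAddCommGroup E] := lp (fun _ : ℕ => E) 1

/-- Tails. -/
noncomputable def tl (d : SeqSpace E) (n : ℕ) : ℝ := ‖d‖ - ∑ m ∈ Finset.range n, ‖d m‖

omit [NormedSpace ℝ E] in
theorem tl_zero (d : SeqSpace E) : tl d 0 = ‖d‖ := by simp [tl]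

omit [NormedSpace ℝ E] in
theorem tl_succ (d : SeqSpace E) (n : ℕ) : tl d (n + 1) = tl d n - ‖d n‖ := by
  unfold tl
  rw [Finset.sum_range_succ]
  ring

omit [NormedSpace ℝ E] in
theorem tl_nonneg (d : SeqSpace E) (n : ℕ) : 0 ≤ tl d n :=
  sub_nonneg.2 (Ell1.sum_le_norm d _)

omit [NormedSpace ℝ E] in
theorem tl_antitone (d : SeqSpace E) : Antitone (tl d) := by
  apply antitone_nat_of_succ_le
  intro n
  rw [tl_succ]
  have := norm_nonneg (d n)
  linarith

omit [NormedSpace ℝ E] in
theorem tl_tendsto (d : SeqSpace E) : Tendsto (tl d) atTop (𝓝 0) := by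
  have h1 : HasSum (fun n => ‖d n‖) ‖d‖ := by
    rw [Ell1.norm_eq d]
    exact (Ell1.summable d).hasSum
  have h2 := (h1.tendsto_sum_nat).const_sub ‖d‖
  rw [sub_self] at h2
  exact h2

omit [NormedSpace ℝ E] in
theorem tl_eq_tsum (d : SeqSpace E) (n : ℕ) : tl d n = ∑' m, ‖d (m + n)‖ := by
  unfold tl
  rw [Ell1.norm_eq d, ← (Ell1.summable d).sum_add_tsum_nat_add n]
  ring

omit [NormedSpace ℝ E] in
theorem tl_le (d d' : SeqSpace E) (n : ℕ) : tl d n ≤ tl d' n + ‖d - d'‖ := by
  have h0 : tl (d - d') n ≤ ‖d - d'‖ := by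
    have := tl_antitone (d - d') (Nat.zero_le n)
    rwa [tl_zero] at this
  have h1 : tl d n ≤ tl d' n + tl (d - d') n := by
    rw [tl_eq_tsum, tl_eq_tsum, tl_eq_tsum]
    have s1 : Summable fun m => ‖d (m + n)‖ := (summable_nat_add_iff n).2 (Ell1.summable d)
    have s2 : Summable fun m => ‖d' (m + n)‖ := (summable_nat_add_iff n).2 (Ell1.summable d')
    have s3 : Summable fun m => ‖(d - d') (m + n)‖ :=
      (summable_nat_add_iff n).2 (Ell1.summable (d - d'))
    rw [← s2.tsum_add s3]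
    refine s1.tsum_le_tsum (fun m => ?_) (s2.add s3)
    rw [lp.coeFn_sub, Pi.sub_apply]
    have := norm_sub_norm_le (d (m + n)) (d' (m + n))
    linarith
  linarith

omit [NormedSpace ℝ E] in
theorem abs_tl_sub_le (d d' : SeqSpace E) (n : ℕ) : |tl d n - tl d' n| ≤ ‖d - d'‖ := by
  rw [abs_le]
  have h1 := tl_le d d' n
  have h2 := tl_le d' d n
  rw [norm_sub_rev] at h2
  constructor <;> linarith

variable (j : E →ₗᵢ[ℝ] E)

theorem norm_psum_le_norm (d : SeqSpace E) (n : ℕ) : ‖psum j d n‖ ≤ ‖d‖ :=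
  (norm_psum_le j d n).trans (Ell1.sum_le_norm d _)

theorem exists_rho (d : SeqSpace E) :
    ∃ r : ℝ, Tendsto (fun n => ‖psum j d n‖) atTop (𝓝 r) := by
  apply cauchySeq_tendsto_of_complete
  refine cauchySeq_of_dist_le_of_summable (fun n => ‖d (n + 1)‖) (fun n => ?_)
    ((summable_nat_add_iff 1).2 (Ell1.summable d))
  rw [dist_comm, Real.dist_eq]
  exact abs_norm_psum_sub_le j d n

/-- The norm of the sum in the inductive limit. -/
noncomputable def rho (d : SeqSpace E) : ℝ := (exists_rho j d).choose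

theorem tendsto_rho (d : SeqSpace E) :
    Tendsto (fun n => ‖psum j d n‖) atTop (𝓝 (rho j d)) := (exists_rho j d).choose_spec

theorem rho_nonneg (d : SeqSpace E) : 0 ≤ rho j d :=
  ge_of_tendsto' (tendsto_rho j d) fun _ => norm_nonneg _

theorem abs_norm_psum_sub_le_sum (d : SeqSpace E) (n m : ℕ) :
    |‖psum j d (n + m)‖ - ‖psum j d n‖| ≤ tl d (n + 1) - tl d (n + m + 1) := by
  induction m with
  | zero => simp
  | succ m ih =>
    have h1 := abs_norm_psum_sub_le j d (n + m)
    have h2 : tl d (n + (m + 1) + 1) = tl d (n + m + 1) - ‖d (n + m + 1)‖ := tl_succ _ _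
    rw [h2]
    have h3 := abs_sub_le ‖psum j d (n + (m + 1))‖ ‖psum j d (n + m)‖ ‖psum j d n‖
    have h4 : n + (m + 1) = n + m + 1 := rfl
    rw [h4] at h3 ⊢
    linarith

theorem abs_rho_sub_le (d : SeqSpace E) (n : ℕ) : |rho j d - ‖psum j d n‖| ≤ tl d (n + 1) := by
  have h1 : Tendsto (fun m => |‖psum j d (m + n)‖ - ‖psum j d n‖|) atTop
      (𝓝 |rho j d - ‖psum j d n‖|) :=
    (((tendsto_add_atTop_iff_nat n).2 (tendsto_rho j d)).sub_const _).abs
  refine le_of_tendsto' h1 fun m => ?_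
  rw [add_comm m n]
  have := abs_norm_psum_sub_le_sum j d n m
  have h2 := tl_nonneg d (n + m + 1)
  linarith

theorem rho_le_norm (d : SeqSpace E) : rho j d ≤ ‖d‖ :=
  le_of_tendsto' (tendsto_rho j d) fun n => norm_psum_le_norm j d n

theorem abs_rho_sub_rho_le (d d' : SeqSpace E) : |rho j d - rho j d'| ≤ ‖d - d'‖ := by
  refine le_of_tendsto' ((tendsto_rho j d).sub (tendsto_rho j d')).abs fun n => ?_
  refine (abs_norm_sub_norm_le _ _).trans ?_
  rw [← psum_sub]
  exact norm_psum_le_norm j (d - d') n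

/-- Cumulative weights. -/
noncomputable def gw (d : SeqSpace E) (n : ℕ) : ℝ := max 0 (rho j d - tl d n)

theorem gw_zero (d : SeqSpace E) : gw j d 0 = 0 := by
  unfold gw
  rw [tl_zero]
  exact max_eq_left (sub_nonpos.2 (rho_le_norm j d))

theorem gw_nonneg (d : SeqSpace E) (n : ℕ) : 0 ≤ gw j d n := le_max_left _ _

theorem gw_le (d : SeqSpace E) (n : ℕ) : gw j d n ≤ rho j d :=
  max_le (rho_nonneg j d) (by have := tl_nonneg d n; linarith)

theorem gw_mono (d : SeqSpace E) : Monotone (gw j d) := fun _ _ h =>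
  max_le_max le_rfl (sub_le_sub_left (tl_antitone d h) _)

theorem tl_lt_of_gw_pos (d : SeqSpace E) {n : ℕ} (h : gw j d n ≠ 0) : tl d n < rho j d := by
  by_contra hc
  push Not at hc
  apply h
  unfold gw
  exact max_eq_left (sub_nonpos.2 hc)

theorem gw_tendsto (d : SeqSpace E) : Tendsto (gw j d) atTop (𝓝 (rho j d)) := by
  have h1 := (tl_tendsto d).const_sub (rho j d)
  have h2 := (tendsto_const_nhds (x := (0 : ℝ))).max h1
  rw [sub_zero, max_eq_right (rho_nonneg j d)] at h2
  exact h2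

/-- The unnormalised path. -/
noncomputable def Sw (d : SeqSpace E) (n : ℕ) : E :=
  (gw j d (n + 1) - gw j d n) • psum j d n + gw j d n • d n

theorem gw_mul_le (d : SeqSpace E) {C r : ℝ} {n : ℕ} {x : ℝ} (hx : |x| ≤ C)
    (hr : x ≠ 0 → tl d n ≤ r) :
    |x| * ‖d n‖ ≤ C * (min (tl d n) r - min (tl d (n + 1)) r) := by
  have h1 : tl d (n + 1) ≤ tl d n := tl_antitone d (Nat.le_succ n)
  have hC : 0 ≤ C := (abs_nonneg _).trans hx
  by_cases h : x = 0
  · rw [h, abs_zero, zero_mul]
    exact mul_nonneg hC (sub_nonneg.2 (min_le_min_right _ h1))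
  · have h2 := hr h
    rw [min_eq_left h2, min_eq_left (h1.trans h2), tl_succ, sub_sub_cancel]
    gcongr

theorem sum_min_tl_le (d : SeqSpace E) {C r : ℝ} (hC : 0 ≤ C) (hr : 0 ≤ r) (N : ℕ) :
    ∑ n ∈ Finset.range N, C * (min (tl d n) r - min (tl d (n + 1)) r) ≤ C * r := by
  rw [← Finset.mul_sum]
  have h1 : ∑ n ∈ Finset.range N, (min (tl d n) r - min (tl d (n + 1)) r) =
      min (tl d 0) r - min (tl d N) r := Finset.sum_range_sub' (fun n => min (tl d n) r) N
  rw [h1]
  have h2 : 0 ≤ min (tl d N) r := le_min (tl_nonneg d N) hr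
  have h3 : min (tl d 0) r ≤ r := min_le_right _ _
  gcongr
  linarith

theorem norm_psum_le_two (d : SeqSpace E) {n : ℕ} (h : gw j d (n + 1) - gw j d n ≠ 0) :
    ‖psum j d n‖ ≤ 2 * rho j d := by
  have h1 : gw j d (n + 1) ≠ 0 := by
    intro h0
    apply h
    have h2 := gw_mono j d (Nat.le_succ n)
    have h3 := gw_nonneg j d n
    rw [Nat.succ_eq_add_one, h0] at h2
    rw [h0, le_antisymm h2 h3, sub_zero]
  have h2 := tl_lt_of_gw_pos j d h1
  have h3 := abs_le.1 (abs_rho_sub_le j d n)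
  linarith [h3.1]

theorem sum_norm_Sw_le (d : SeqSpace E) (N : ℕ) :
    ∑ n ∈ Finset.range N, ‖Sw j d n‖ ≤ 3 * rho j d * rho j d := by
  have hρ := rho_nonneg j d
  have h1 : ∀ n, ‖Sw j d n‖ ≤ 2 * rho j d * (gw j d (n + 1) - gw j d n) +
      rho j d * (min (tl d n) (rho j d) - min (tl d (n + 1)) (rho j d)) := by
    intro n
    have hm : 0 ≤ gw j d (n + 1) - gw j d n := sub_nonneg.2 (gw_mono j d (Nat.le_succ n))
    refine (norm_add_le _ _).trans (add_le_add ?_ ?_)
    · rw [norm_smul, Real.norm_eq_abs, abs_of_nonneg hm]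
      by_cases h : gw j d (n + 1) - gw j d n = 0
      · rw [h]; simp
      · have h2 := norm_psum_le_two j d h
        calc (gw j d (n + 1) - gw j d n) * ‖psum j d n‖
            ≤ (gw j d (n + 1) - gw j d n) * (2 * rho j d) := by gcongr
          _ = _ := by ring
    · rw [norm_smul, Real.norm_eq_abs]
      exact gw_mul_le d (by rw [abs_of_nonneg (gw_nonneg j d n)]; exact gw_le j d n)
        fun h => (tl_lt_of_gw_pos j d h).le
  refine (Finset.sum_le_sum fun n _ => h1 n).trans ?_
  rw [Finset.sum_add_distrib, ← Finset.mul_sum, Finset.sum_range_sub]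
  have h2 := sum_min_tl_le d hρ hρ N
  have h3 : 2 * rho j d * (gw j d N - gw j d 0) ≤ 2 * rho j d * rho j d := by
    have := gw_le j d N
    have := gw_nonneg j d 0
    gcongr
    linarith
  linarith

theorem sum_norm_Sw_sub_le (d d' : SeqSpace E) (hρ : rho j d' ≤ rho j d)
    (hε : ‖d - d'‖ ≤ rho j d) (N : ℕ) :
    ∑ n ∈ Finset.range N, ‖Sw j d n - Sw j d' n‖ ≤ 27 * rho j d * ‖d - d'‖ := by
  set ρ := rho j d with hρdef
  set ρ' := rho j d' with hρ'def
  set ε := ‖d - d'‖ with hεdef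
  have hε0 : 0 ≤ ε := norm_nonneg _
  have hρ0 : 0 ≤ ρ := rho_nonneg j d
  have hρ'0 : 0 ≤ ρ' := rho_nonneg j d'
  have hα : ∀ n, |(ρ - tl d n) - (ρ' - tl d' n)| ≤ 2 * ε := by
    intro n
    have h1 := abs_rho_sub_rho_le j d d'
    have h2 := abs_tl_sub_le d d' n
    have h3 : (ρ - tl d n) - (ρ' - tl d' n) = (ρ - ρ') - (tl d n - tl d' n) := by ring
    rw [h3]
    refine (abs_sub _ _).trans ?_
    linarith
  have hgd : ∀ n, |gw j d n - gw j d' n| ≤ 2 * ε := by
    intro n
    refine (abs_max_sub_max_le_max 0 (ρ - tl d n) 0 (ρ' - tl d' n)).trans ?_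
    rw [sub_self, abs_zero]
    exact max_le (by positivity) (hα n)
  -- total variation
  have hTV : ∑ n ∈ Finset.range N, |(gw j d (n + 1) - gw j d n) -
      (gw j d' (n + 1) - gw j d' n)| ≤ 7 * ε := by
    have h1 := sum_abs_sub_pos_le (α := fun n => ρ - tl d n) (α' := fun n => ρ' - tl d' n)
      (fun _ _ h => sub_le_sub_left (tl_antitone d h) _)
      (fun _ _ h => sub_le_sub_left (tl_antitone d' h) _)
      (by show ρ - tl d 0 ≤ 0; rw [tl_zero]; exact sub_nonpos.2 (rho_le_norm j d))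
      (by show ρ' - tl d' 0 ≤ 0; rw [tl_zero]; exact sub_nonpos.2 (rho_le_norm j d')) hα N
    refine h1.trans ?_
    have h2 : ∑ n ∈ Finset.range N, |((ρ - tl d (n + 1)) - (ρ - tl d n)) -
        ((ρ' - tl d' (n + 1)) - (ρ' - tl d' n))| ≤ ε := by
      refine le_trans (Finset.sum_le_sum (g := fun n => ‖(d - d') n‖) fun n _ => ?_)
        (Ell1.sum_le_norm (d - d') _)
      rw [tl_succ, tl_succ, lp.coeFn_sub, Pi.sub_apply]
      have h3 : ((ρ - (tl d n - ‖d n‖)) - (ρ - tl d n)) -
          ((ρ' - (tl d' n - ‖d' n‖)) - (ρ' - tl d' n)) = ‖d n‖ - ‖d' n‖ := by ring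
      rw [h3]
      exact abs_norm_sub_norm_le _ _
    linarith
  -- location of the support
  have hloc : ∀ n, gw j d n ≠ 0 ∨ gw j d' n ≠ 0 → tl d' n ≤ 2 * ρ := by
    intro n h
    rcases h with h | h
    · have h1 := tl_lt_of_gw_pos j d h
      have h2 := tl_le d' d n
      rw [norm_sub_rev] at h2
      linarith
    · have h1 := tl_lt_of_gw_pos j d' h
      linarith
  have hb' : ∀ n, (gw j d (n + 1) - gw j d n) - (gw j d' (n + 1) - gw j d' n) ≠ 0 →
      ‖psum j d' n‖ ≤ 3 * ρ := by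
    intro n h
    have h1 : gw j d (n + 1) ≠ 0 ∨ gw j d' (n + 1) ≠ 0 := by
      by_contra hc
      push Not at hc
      apply h
      have h2 := gw_mono j d (Nat.le_succ n)
      have h3 := gw_nonneg j d n
      have h2' := gw_mono j d' (Nat.le_succ n)
      have h3' := gw_nonneg j d' n
      rw [Nat.succ_eq_add_one, hc.1] at h2
      rw [Nat.succ_eq_add_one, hc.2] at h2'
      rw [hc.1, hc.2, le_antisymm h2 h3, le_antisymm h2' h3']
      ring
    have h2 := hloc (n + 1) h1
    have h3 := abs_le.1 (abs_rho_sub_le j d' n)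
    linarith [h3.1]
  have hbd : ∀ n, ‖psum j d n - psum j d' n‖ ≤ ε := by
    intro n
    rw [← psum_sub]
    exact norm_psum_le_norm j (d - d') n
  have hterm : ∀ n, ‖Sw j d n - Sw j d' n‖ ≤ ε * (gw j d (n + 1) - gw j d n) +
      3 * ρ * |(gw j d (n + 1) - gw j d n) - (gw j d' (n + 1) - gw j d' n)| +
      ρ * ‖(d - d') n‖ + 2 * ε * (min (tl d' n) (2 * ρ) - min (tl d' (n + 1)) (2 * ρ)) := by
    intro n
    have hm : 0 ≤ gw j d (n + 1) - gw j d n := sub_nonneg.2 (gw_mono j d (Nat.le_succ n))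
    have e : Sw j d n - Sw j d' n =
        (gw j d (n + 1) - gw j d n) • (psum j d n - psum j d' n) +
        ((gw j d (n + 1) - gw j d n) - (gw j d' (n + 1) - gw j d' n)) • psum j d' n +
        gw j d n • (d - d') n + (gw j d n - gw j d' n) • d' n := by
      unfold Sw
      rw [lp.coeFn_sub, Pi.sub_apply]
      module
    rw [e]
    refine norm_add₄_le.trans ?_
    refine add_le_add (add_le_add (add_le_add ?_ ?_) ?_) ?_
    · rw [norm_smul, Real.norm_eq_abs, abs_of_nonneg hm, mul_comm]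
      gcongr
      exact hbd n
    · rw [norm_smul, Real.norm_eq_abs]
      by_cases h : (gw j d (n + 1) - gw j d n) - (gw j d' (n + 1) - gw j d' n) = 0
      · rw [h]; simp
      · rw [mul_comm]
        gcongr
        exact hb' n h
    · rw [norm_smul, Real.norm_eq_abs, abs_of_nonneg (gw_nonneg j d n)]
      gcongr
      exact gw_le j d n
    · rw [norm_smul, Real.norm_eq_abs]
      refine gw_mul_le d' (hgd n) fun h => hloc n ?_
      by_contra hc
      push Not at hc
      apply h
      rw [hc.1, hc.2, sub_zero]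
  refine (Finset.sum_le_sum fun n _ => hterm n).trans ?_
  rw [Finset.sum_add_distrib, Finset.sum_add_distrib, Finset.sum_add_distrib,
    ← Finset.mul_sum, ← Finset.mul_sum, ← Finset.mul_sum, Finset.sum_range_sub]
  have h1 : ε * (gw j d N - gw j d 0) ≤ ε * ρ := by
    have := gw_le j d N
    have := gw_nonneg j d 0
    gcongr
    linarith
  have h2 : 3 * ρ * ∑ n ∈ Finset.range N, |(gw j d (n + 1) - gw j d n) -
      (gw j d' (n + 1) - gw j d' n)| ≤ 3 * ρ * (7 * ε) := by gcongr
  have h3 : ρ * ∑ n ∈ Finset.range N, ‖(d - d') n‖ ≤ ρ * ε := by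
    gcongr
    exact Ell1.sum_le_norm (d - d') _
  have h4 := sum_min_tl_le d' (C := 2 * ε) (r := 2 * ρ) (by positivity) (by positivity) N
  nlinarith

end Space

end Pool.Agent.H23
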