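import Mathlib
import Pool.Agent.H23.Retract

/-!
# The kernel of the summation map is a Lipschitz retract
-/

open Set Filter Topology Metric
open scoped NNReal ENNReal

namespace Pool.Agent.H23

section Space

variable {E : Type*} [NormedAddCommGroup E] [NormedSpace ℝ E] (j : E →ₗᵢ[ℝ] E)

/-- The closed subspace of sequences whose sum vanishes in the inductive limit. -/
noncomputable def ker (j : E →ₗᵢ[ℝ] E) : Submodule ℝ (SeqSpace E) where
  carrier := {d | Tendsto (fun n => psum j d n) atTop (𝓝 0)}
  zero_mem' := by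
    have h : (fun n => psum j ((0 : SeqSpace E) : ℕ → E) n) = fun _ => (0 : E) := by
      funext n
      have := norm_psum_le_norm j (0 : SeqSpace E) n
      rw [norm_zero] at this
      exact norm_le_zero_iff.1 this
    show Tendsto (fun n => psum j ((0 : SeqSpace E) : ℕ → E) n) atTop (𝓝 0)
    rw [h]
    exact tendsto_const_nhds
  add_mem' := by
    intro d d' hd hd'
    show Tendsto (fun n => psum j ((d + d' : SeqSpace E) : ℕ → E) n) atTop (𝓝 0)
    have h := Tendsto.add hd hd'
    rw [add_zero] at h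
    refine h.congr fun n => ?_
    rw [lp.coeFn_add, psum_add]
  smul_mem' := by
    intro c d hd
    show Tendsto (fun n => psum j ((c • d : SeqSpace E) : ℕ → E) n) atTop (𝓝 0)
    have h := Tendsto.const_smul hd c
    rw [smul_zero] at h
    refine h.congr fun n => ?_
    rw [lp.coeFn_smul, psum_smul]

theorem mem_ker {d : SeqSpace E} :
    d ∈ ker j ↔ Tendsto (fun n => psum j d n) atTop (𝓝 0) := Iff.rfl

theorem mem_ker_iff {d : SeqSpace E} : d ∈ ker j ↔ rho j d = 0 := by
  rw [mem_ker, tendsto_zero_iff_norm_tendsto_zero]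
  constructor
  · intro h
    exact tendsto_nhds_unique (tendsto_rho j d) h
  · intro h
    have := tendsto_rho j d
    rwa [h] at this

theorem isClosed_ker : IsClosed (ker j : Set (SeqSpace E)) := by
  have h1 : Continuous (rho j) := by
    have : LipschitzWith 1 (rho j) := LipschitzWith.of_dist_le_mul fun d d' => by
      rw [Real.dist_eq, dist_eq_norm, NNReal.coe_one, one_mul]
      exact abs_rho_sub_rho_le j d d'
    exact this.continuous
  have h2 : (ker j : Set (SeqSpace E)) = {d | rho j d = 0} := by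
    ext d
    exact mem_ker_iff j
  rw [h2]
  exact isClosed_eq h1 continuous_const

instance completeSpace_ker [CompleteSpace E] : CompleteSpace (ker j) :=
  (isClosed_ker j).completeSpace_coe

theorem sum_norm_sPath_le (d : SeqSpace E) (N : ℕ) :
    ∑ n ∈ Finset.range N, ‖(rho j d)⁻¹ • Sw j d n‖ ≤ 3 * rho j d := by
  have hρ := rho_nonneg j d
  have h1 : ∑ n ∈ Finset.range N, ‖(rho j d)⁻¹ • Sw j d n‖ =
      (rho j d)⁻¹ * ∑ n ∈ Finset.range N, ‖Sw j d n‖ := by
    rw [Finset.mul_sum]
    refine Finset.sum_congr rfl fun n _ => ?_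
    rw [norm_smul, norm_inv, Real.norm_eq_abs, abs_of_nonneg hρ]
  rw [h1]
  rcases hρ.eq_or_lt with h | h
  · rw [← h]; simp
  · rw [inv_mul_le_iff₀ h]
    have := sum_norm_Sw_le j d N
    linarith

theorem sum_finset_le_of_range {f : ℕ → ℝ} (hf : ∀ n, 0 ≤ f n) {C : ℝ}
    (h : ∀ N, ∑ n ∈ Finset.range N, f n ≤ C) (s : Finset ℕ) : ∑ n ∈ s, f n ≤ C := by
  obtain ⟨N, hN⟩ := s.exists_nat_subset_range
  exact (Finset.sum_le_sum_of_subset_of_nonneg hN fun n _ _ => hf n).trans (h N)

/-- The nonlinear part. -/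
noncomputable def sPath (d : SeqSpace E) : SeqSpace E :=
  ⟨fun n => (rho j d)⁻¹ • Sw j d n, by
    apply memℓp_gen' (C := 3 * rho j d)
    simp only [ENNReal.toReal_one, Real.rpow_one]
    exact sum_finset_le_of_range (fun n => norm_nonneg _) (sum_norm_sPath_le j d)⟩

theorem sPath_apply (d : SeqSpace E) (n : ℕ) : sPath j d n = (rho j d)⁻¹ • Sw j d n := rfl

theorem norm_le_of_range {x : SeqSpace E} {C : ℝ} (hC : 0 ≤ C)
    (h : ∀ N, ∑ n ∈ Finset.range N, ‖x n‖ ≤ C) : ‖x‖ ≤ C := by
  apply lp.norm_le_of_forall_sum_le (by simp) hC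
  intro s
  simp only [ENNReal.toReal_one, Real.rpow_one]
  exact sum_finset_le_of_range (fun n => norm_nonneg _) h s

theorem norm_sPath_le (d : SeqSpace E) : ‖sPath j d‖ ≤ 3 * rho j d :=
  norm_le_of_range (by have := rho_nonneg j d; positivity) (sum_norm_sPath_le j d)

theorem norm_sPath_sub_le_aux (d d' : SeqSpace E) (hρ : rho j d' ≤ rho j d) :
    ‖sPath j d - sPath j d'‖ ≤ 30 * ‖d - d'‖ := by
  have hρ0 := rho_nonneg j d
  have hρ'0 := rho_nonneg j d'
  by_cases hε : ‖d - d'‖ ≤ rho j d
  · apply norm_le_of_range (by positivity)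
    intro N
    rcases hρ0.eq_or_lt with h0 | h0
    · have h1 : rho j d' = 0 := le_antisymm (h0 ▸ hρ) hρ'0
      have h2 : ∀ n, ‖(sPath j d - sPath j d') n‖ = 0 := by
        intro n
        rw [lp.coeFn_sub, Pi.sub_apply, sPath_apply, sPath_apply, h1, ← h0]
        simp
      rw [Finset.sum_congr rfl fun n _ => h2 n]
      simp
    · have h1 : ∀ n, ‖(sPath j d - sPath j d') n‖ ≤ (rho j d)⁻¹ * ‖Sw j d n - Sw j d' n‖ +
          (rho j d)⁻¹ * ((rho j d - rho j d') * ‖(rho j d')⁻¹ • Sw j d' n‖) := by
        intro n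
        have e : (sPath j d - sPath j d') n = (rho j d)⁻¹ • (Sw j d n - Sw j d' n) -
            (rho j d)⁻¹ • ((rho j d - rho j d') • ((rho j d')⁻¹ • Sw j d' n)) := by
          rw [lp.coeFn_sub, Pi.sub_apply, sPath_apply, sPath_apply]
          rcases hρ'0.eq_or_lt with h3 | h3
          · have h4 : Sw j d' n = 0 := by
              have h5 : ∀ m, gw j d' m = 0 := fun m =>
                le_antisymm ((gw_le j d' m).trans (h3 ▸ le_rfl)) (gw_nonneg j d' m)
              unfold Sw
              rw [h5, h5]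
              simp
            rw [h4]
            simp
          · rw [smul_smul (rho j d - rho j d'), smul_smul (rho j d)⁻¹, smul_sub]
            have h5 : (rho j d)⁻¹ * ((rho j d - rho j d') * (rho j d')⁻¹) =
                (rho j d')⁻¹ - (rho j d)⁻¹ := by
              field_simp
            rw [h5, sub_smul]
            abel
        rw [e]
        refine (norm_sub_le _ _).trans ?_
        rw [norm_smul, norm_inv, Real.norm_eq_abs, abs_of_pos h0, norm_smul (rho j d)⁻¹, norm_inv,
          Real.norm_eq_abs, abs_of_pos h0, norm_smul (rho j d - rho j d'), Real.norm_eq_abs,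
          abs_of_nonneg (sub_nonneg.2 hρ)]
      refine (Finset.sum_le_sum fun n _ => h1 n).trans ?_
      rw [Finset.sum_add_distrib, ← Finset.mul_sum, ← Finset.mul_sum, ← Finset.mul_sum,
        ← mul_add, inv_mul_le_iff₀ h0]
      have h2 := sum_norm_Sw_sub_le j d d' hρ hε N
      have h3 := sum_norm_sPath_le j d' N
      have h4 : rho j d - rho j d' ≤ ‖d - d'‖ := (le_abs_self _).trans (abs_rho_sub_rho_le j d d')
      have h5 : (rho j d - rho j d') * ∑ n ∈ Finset.range N, ‖(rho j d')⁻¹ • Sw j d' n‖ ≤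
          ‖d - d'‖ * (3 * rho j d) := by
        have : 0 ≤ rho j d - rho j d' := sub_nonneg.2 hρ
        gcongr
        exact h3.trans (by gcongr)
      nlinarith
  · push Not at hε
    refine (norm_sub_le _ _).trans ?_
    have h1 := norm_sPath_le j d
    have h2 := norm_sPath_le j d'
    linarith [norm_nonneg (d - d')]

theorem norm_sPath_sub_le (d d' : SeqSpace E) :
    ‖sPath j d - sPath j d'‖ ≤ 30 * ‖d - d'‖ := by
  rcases le_total (rho j d') (rho j d) with h | h
  · exact norm_sPath_sub_le_aux j d d' h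
  · rw [norm_sub_rev, norm_sub_rev d d']
    exact norm_sPath_sub_le_aux j d' d h

theorem sPath_of_mem {d : SeqSpace E} (hd : d ∈ ker j) : sPath j d = 0 := by
  rw [mem_ker_iff] at hd
  ext n
  rw [sPath_apply, hd, inv_zero, zero_smul]
  rfl

theorem psum_sPath (d : SeqSpace E) (n : ℕ) :
    psum j (sPath j d) n = ((rho j d)⁻¹ * gw j d (n + 1)) • psum j d n := by
  induction n with
  | zero =>
    rw [psum_zero, psum_zero, sPath_apply]
    unfold Sw
    rw [psum_zero]
    module
  | succ n ih =>
    rw [psum_succ, ih, map_smul, sPath_apply]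
    unfold Sw
    rw [psum_succ]
    module

theorem sub_sPath_mem (d : SeqSpace E) : d - sPath j d ∈ ker j := by
  by_cases h0 : rho j d = 0
  · have h1 := (mem_ker_iff j).2 h0
    rw [sPath_of_mem j h1, sub_zero]
    exact h1
  · rw [mem_ker, tendsto_zero_iff_norm_tendsto_zero]
    have h1 : ∀ n, ‖psum j ((d - sPath j d : SeqSpace E) : ℕ → E) n‖ ≤
        |1 - (rho j d)⁻¹ * gw j d (n + 1)| * ‖d‖ := by
      intro n
      rw [lp.coeFn_sub, psum_sub, psum_sPath]
      have e : psum j d n - ((rho j d)⁻¹ * gw j d (n + 1)) • psum j d n =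
          (1 - (rho j d)⁻¹ * gw j d (n + 1)) • psum j d n := by module
      rw [e, norm_smul, Real.norm_eq_abs]
      gcongr
      exact norm_psum_le_norm j d n
    refine squeeze_zero (fun _ => norm_nonneg _) h1 ?_
    have h2 : Tendsto (fun n => |1 - (rho j d)⁻¹ * gw j d (n + 1)| * ‖d‖) atTop
        (𝓝 (|1 - (rho j d)⁻¹ * rho j d| * ‖d‖)) := by
      have h3 := (gw_tendsto j d).comp (tendsto_add_atTop_nat 1)
      exact ((h3.const_mul _).const_sub _).abs.mul_const _
    rw [inv_mul_cancel₀ h0, sub_self, abs_zero, zero_mul] at h2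
    exact h2

/-- The Lipschitz retraction onto the kernel. -/
noncomputable def retrKer (d : SeqSpace E) : ker j := ⟨d - sPath j d, sub_sPath_mem j d⟩

theorem retrKer_of_mem (d : ker j) : retrKer j d.1 = d := by
  apply Subtype.ext
  show d.1 - sPath j d.1 = d.1
  rw [sPath_of_mem j d.2, sub_zero]

theorem lipschitz_retrKer : LipschitzWith 31 (retrKer j) := by
  apply LipschitzWith.of_dist_le_mul
  intro d d'
  rw [dist_eq_norm, dist_eq_norm]
  show ‖(d - sPath j d) - (d' - sPath j d')‖ ≤ _
  have e : (d - sPath j d) - (d' - sPath j d') = (d - d') - (sPath j d - sPath j d') := by abel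
  rw [e]
  have h1 := norm_sPath_sub_le j d d'
  have h2 := norm_sub_le (d - d') (sPath j d - sPath j d')
  have h3 : (((31 : ℝ≥0) : ℝ)) = 31 := by norm_num
  rw [h3]
  linarith

/-! ### The linear approximations -/

omit [NormedSpace ℝ E] in
theorem sgl_self (n : ℕ) (a : E) : (lp.single 1 n a : SeqSpace E) n = a :=
  lp.single_apply_self (E := fun _ : ℕ => E) 1 n a

omit [NormedSpace ℝ E] in
theorem sgl_ne {n m : ℕ} (h : m ≠ n) (a : E) : (lp.single 1 n a : SeqSpace E) m = 0 :=
  lp.single_apply_ne (E := fun _ : ℕ => E) 1 n a h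

theorem psum_single_lt (n : ℕ) (a : E) {m : ℕ} (hm : m < n) :
    psum j ((lp.single 1 n a : SeqSpace E) : ℕ → E) m = 0 := by
  induction m with
  | zero =>
    rw [psum_zero]
    exact sgl_ne hm.ne a
  | succ m ih =>
    rw [psum_succ, ih (Nat.lt_of_succ_lt hm), map_zero, zero_add]
    exact sgl_ne hm.ne a

theorem psum_single_self (n : ℕ) (a : E) :
    psum j ((lp.single 1 n a : SeqSpace E) : ℕ → E) n = a := by
  cases n with
  | zero =>
    rw [psum_zero]
    exact sgl_self 0 a
  | succ n =>
    rw [psum_succ, psum_single_lt j (n + 1) a (Nat.lt_succ_self n), map_zero, zero_add]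
    exact sgl_self (n + 1) a

theorem psum_single_add (n : ℕ) (a : E) (m : ℕ) :
    psum j ((lp.single 1 n a : SeqSpace E) : ℕ → E) (n + m) = (j^[m]) a := by
  induction m with
  | zero => exact psum_single_self j n a
  | succ m ih =>
    have h1 : (lp.single 1 n a : SeqSpace E) (n + m + 1) = 0 := sgl_ne (by omega) a
    rw [← add_assoc, psum_succ, ih, Function.iterate_succ_apply', h1, add_zero]

theorem norm_iterate (m : ℕ) (a : E) : ‖(j^[m]) a‖ = ‖a‖ := by
  induction m with
  | zero => rfl
  | succ m ih => rw [Function.iterate_succ_apply', j.norm_map, ih]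

theorem rho_single (n : ℕ) (a : E) : rho j (lp.single 1 n a : SeqSpace E) = ‖a‖ := by
  refine tendsto_nhds_unique (tendsto_rho j _) ?_
  refine tendsto_const_nhds.congr' ?_
  filter_upwards [eventually_ge_atTop n] with m hm
  obtain ⟨k, rfl⟩ := Nat.exists_eq_add_of_le hm
  rw [psum_single_add, norm_iterate]

theorem single_sub_single_mem (n : ℕ) (a : E) :
    (lp.single 1 n a : SeqSpace E) - lp.single 1 (n + 1) (j a) ∈ ker j := by
  rw [mem_ker]
  refine tendsto_const_nhds.congr' ?_
  filter_upwards [eventually_ge_atTop (n + 1)] with m hm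
  obtain ⟨k, rfl⟩ := Nat.exists_eq_add_of_le hm
  rw [lp.coeFn_sub, psum_sub, psum_single_add]
  have h1 : n + 1 + k = n + (k + 1) := by ring
  rw [h1, psum_single_add, Function.iterate_succ_apply, sub_self]

theorem rho_add_of_mem {d y : SeqSpace E} (hy : y ∈ ker j) : rho j (d + y) = rho j d := by
  refine tendsto_nhds_unique (tendsto_rho j (d + y)) ?_
  have h1 := (tendsto_rho j d)
  have h2 : Tendsto (fun n => ‖psum j ((d + y : SeqSpace E) : ℕ → E) n‖ - ‖psum j d n‖) atTop
      (𝓝 0) := by
    rw [mem_ker, tendsto_zero_iff_norm_tendsto_zero] at hy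
    refine squeeze_zero_norm (fun n => ?_) hy
    rw [Real.norm_eq_abs, lp.coeFn_add, psum_add]
    refine (abs_norm_sub_norm_le _ _).trans ?_
    rw [add_sub_cancel_left]
  have h3 := h2.add h1
  rw [zero_add] at h3
  exact h3.congr fun n => by ring

/-- Partial sums as a bounded operator. -/
noncomputable def psumL (n : ℕ) : SeqSpace E →L[ℝ] E :=
  LinearMap.mkContinuous
    { toFun := fun d => psum j d n
      map_add' := fun d d' => by rw [lp.coeFn_add, psum_add]
      map_smul' := fun c d => by rw [lp.coeFn_smul, psum_smul]; rfl }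
    1 (fun d => by rw [one_mul]; exact norm_psum_le_norm j d n)

theorem psumL_apply (n : ℕ) (d : SeqSpace E) : psumL j n d = psum j d n := rfl

/-- Truncation. -/
noncomputable def trunc (n : ℕ) (d : SeqSpace E) : SeqSpace E :=
  ∑ m ∈ Finset.range (n + 1), lp.single 1 m (d m)

theorem norm_sub_trunc (n : ℕ) (d : SeqSpace E) : ‖d - trunc n d‖ = tl d (n + 1) := by
  have h1 := lp.norm_compl_sum_single (E := fun _ : ℕ => E) (p := 1) (by simp) d
    (Finset.range (n + 1))
  simpa [trunc, tl] using h1

theorem trunc_apply_of_le (n : ℕ) (d : SeqSpace E) {m : ℕ} (hm : m ≤ n) : trunc n d m = d m := by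
  unfold trunc
  rw [lp.coeFn_sum, Finset.sum_apply, Finset.sum_eq_single m]
  · exact sgl_self m (d m)
  · intro k _ hk
    exact sgl_ne hk.symm (d k)
  · intro h
    exact absurd (Finset.mem_range.2 (Nat.lt_succ_of_le hm)) h

theorem trunc_apply_of_gt (n : ℕ) (d : SeqSpace E) {m : ℕ} (hm : n < m) : trunc n d m = 0 := by
  unfold trunc
  rw [lp.coeFn_sum, Finset.sum_apply]
  apply Finset.sum_eq_zero
  intro k hk
  have h1 : k < n + 1 := Finset.mem_range.1 hk
  exact sgl_ne (by omega) (d k)

theorem psum_trunc_le (n : ℕ) (d : SeqSpace E) {m : ℕ} (hm : m ≤ n) :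
    psum j (trunc n d) m = psum j d m := by
  induction m with
  | zero => rw [psum_zero, psum_zero, trunc_apply_of_le n d hm]
  | succ m ih => rw [psum_succ, psum_succ, ih (Nat.le_of_succ_le hm), trunc_apply_of_le n d hm]

theorem psum_trunc_add (n : ℕ) (d : SeqSpace E) (m : ℕ) :
    psum j (trunc n d) (n + m) = (j^[m]) (psum j d n) := by
  induction m with
  | zero => exact psum_trunc_le j n d le_rfl
  | succ m ih =>
    rw [← add_assoc, psum_succ, ih, Function.iterate_succ_apply',
      trunc_apply_of_gt n d (by omega), add_zero]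

theorem trunc_sub_mem (n : ℕ) (d : SeqSpace E) :
    trunc n d - lp.single 1 (n + 1) (j (psum j d n)) ∈ ker j := by
  rw [mem_ker]
  refine tendsto_const_nhds.congr' ?_
  filter_upwards [eventually_ge_atTop (n + 1)] with m hm
  obtain ⟨k, rfl⟩ := Nat.exists_eq_add_of_le hm
  rw [lp.coeFn_sub, psum_sub, psum_single_add]
  have h1 : n + 1 + k = n + (k + 1) := by ring
  rw [h1, psum_trunc_add, Function.iterate_succ_apply, sub_self]

theorem trunc_add (n : ℕ) (d d' : SeqSpace E) : trunc n (d + d') = trunc n d + trunc n d' := by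
  unfold trunc
  rw [← Finset.sum_add_distrib]
  refine Finset.sum_congr rfl fun m _ => ?_
  rw [lp.coeFn_add, Pi.add_apply, lp.single_add]

theorem trunc_smul (n : ℕ) (c : ℝ) (d : SeqSpace E) : trunc n (c • d) = c • trunc n d := by
  unfold trunc
  rw [Finset.smul_sum]
  refine Finset.sum_congr rfl fun m _ => ?_
  rw [lp.coeFn_smul, Pi.smul_apply, lp.single_smul]

/-- The linear approximations of the identity of the kernel. -/
noncomputable def appr (n : ℕ) : SeqSpace E →L[ℝ] ker j :=
  LinearMap.mkContinuous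
    { toFun := fun d => ⟨trunc n d - lp.single 1 (n + 1) (j (psum j d n)), trunc_sub_mem j n d⟩
      map_add' := by
        intro d d'
        apply Subtype.ext
        show trunc n (d + d') -
          (lp.single 1 (n + 1) (j (psum j ((d + d' : SeqSpace E) : ℕ → E) n)) : SeqSpace E) =
          (trunc n d - lp.single 1 (n + 1) (j (psum j d n))) +
          (trunc n d' - lp.single 1 (n + 1) (j (psum j d' n)))
        rw [trunc_add, lp.coeFn_add, psum_add, map_add, lp.single_add]
        abel
      map_smul' := by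
        intro c d
        apply Subtype.ext
        show trunc n (c • d) -
          (lp.single 1 (n + 1) (j (psum j ((c • d : SeqSpace E) : ℕ → E) n)) : SeqSpace E) =
          c • (trunc n d - lp.single 1 (n + 1) (j (psum j d n)))
        rw [trunc_smul, lp.coeFn_smul, psum_smul, map_smul, lp.single_smul, smul_sub] }
    3 (by
      intro d
      show ‖trunc n d - lp.single 1 (n + 1) (j (psum j d n))‖ ≤ 3 * ‖d‖
      have h1 : ‖(lp.single 1 (n + 1) (j (psum j d n)) : SeqSpace E)‖ ≤ ‖d‖ := by
        rw [lp.norm_single (by simp), j.norm_map]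
        exact norm_psum_le_norm j d n
      have h2 : ‖trunc n d‖ ≤ ‖d‖ + ‖d - trunc n d‖ := by
        have := norm_sub_le d (d - trunc n d)
        rwa [sub_sub_cancel] at this
      have h3 : ‖d - trunc n d‖ ≤ ‖d‖ := by
        rw [norm_sub_trunc]
        have := tl_antitone d (Nat.zero_le (n + 1))
        rwa [tl_zero] at this
      have h4 := norm_sub_le (trunc n d) (lp.single 1 (n + 1) (j (psum j d n)) : SeqSpace E)
      linarith)

theorem norm_appr_le (n : ℕ) (d : SeqSpace E) : ‖appr j n d‖ ≤ 3 * ‖d‖ :=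
  (LinearMap.mkContinuous_norm_le _ (by norm_num) _ : ‖appr j n‖ ≤ 3) |> fun h =>
    (appr j n).le_of_opNorm_le h d

theorem tendsto_appr (y : ker j) : Tendsto (fun n => appr j n y.1) atTop (𝓝 y) := by
  rw [tendsto_iff_norm_sub_tendsto_zero]
  have h1 : ∀ n, ‖appr j n y.1 - y‖ ≤ tl y.1 (n + 1) + ‖psum j y.1 n‖ := by
    intro n
    show ‖(trunc n y.1 - lp.single 1 (n + 1) (j (psum j y.1 n))) - y.1‖ ≤ _
    have e : (trunc n y.1 - lp.single 1 (n + 1) (j (psum j y.1 n))) - y.1 =
        -(y.1 - trunc n y.1) - lp.single 1 (n + 1) (j (psum j y.1 n)) := by abel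
    rw [e]
    refine (norm_sub_le _ _).trans ?_
    rw [norm_neg, norm_sub_trunc, lp.norm_single (by simp), j.norm_map]
  refine squeeze_zero (fun _ => norm_nonneg _) h1 ?_
  have h2 := (tl_tendsto y.1).comp (tendsto_add_atTop_nat 1)
  have h3 := y.2
  rw [mem_ker, tendsto_zero_iff_norm_tendsto_zero] at h3
  have h4 := h2.add h3
  rw [add_zero] at h4
  exact h4

end Space

end Pool.Agent.H23
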